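import Pool.Agent.H160R2.OA.Defs

/-! Task A: algebra of the matrices `R`, `B`, `J` -/

set_option autoImplicit false

namespace Pool.Agent.H160R2.OA
open Finset

theorem A_alt (n N j : ℕ) (h : n < N) :
    ∑ k ∈ range N, (-1 : ℝ) ^ k * (Nat.choose n k : ℝ) * (Nat.choose k j : ℝ) =
      if n = j then (-1) ^ j else 0 := by
  rcases lt_or_ge n j with hj | hj
  · rw [if_neg hj.ne]
    apply Finset.sum_eq_zero
    intro k _
    rcases lt_or_ge n k with hk | hk
    · rw [Nat.choose_eq_zero_of_lt hk]; simp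
    · rw [Nat.choose_eq_zero_of_lt (lt_of_le_of_lt hk hj)]; simp
  · have h1 : ∑ k ∈ range N, (-1 : ℝ) ^ k * (Nat.choose n k : ℝ) * (Nat.choose k j : ℝ) =
        ∑ k ∈ Ico j (n + 1), (-1 : ℝ) ^ k * (Nat.choose n k : ℝ) * (Nat.choose k j : ℝ) := by
      symm
      apply Finset.sum_subset
      · intro k hk
        rw [mem_Ico] at hk
        rw [mem_range]
        omega
      · intro k _ hk
        rw [mem_Ico] at hk
        rcases lt_or_ge k j with h2 | h2
        · rw [Nat.choose_eq_zero_of_lt h2]; simp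
        · rw [Nat.choose_eq_zero_of_lt (by omega : n < k)]; simp
    rw [h1, Finset.sum_Ico_eq_sum_range]
    have h2 : n + 1 - j = (n - j) + 1 := by omega
    rw [h2]
    have h3 : ∀ i ∈ range (n - j + 1),
        (-1 : ℝ) ^ (j + i) * (Nat.choose n (j + i) : ℝ) * (Nat.choose (j + i) j : ℝ) =
          (-1) ^ j * (Nat.choose n j : ℝ) * ((-1) ^ i * (Nat.choose (n - j) i : ℝ)) := by
      intro i hi
      rw [mem_range] at hi
      have h4 := Nat.choose_mul (n := n) (k := j + i) (s := j) (by omega)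
      rw [Nat.add_sub_cancel_left] at h4
      have h5 : (Nat.choose n (j + i) : ℝ) * (Nat.choose (j + i) j : ℝ) =
          (Nat.choose n j : ℝ) * (Nat.choose (n - j) i : ℝ) := by exact_mod_cast h4
      rw [pow_add, mul_assoc, h5]
      ring
    rw [Finset.sum_congr rfl h3, ← Finset.mul_sum]
    have h6 : ∑ i ∈ range (n - j + 1), ((-1 : ℝ) ^ i * (Nat.choose (n - j) i : ℝ)) =
        if n - j = 0 then 1 else 0 := by
      have := Int.alternating_sum_range_choose (n := n - j)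
      have h7 : ((∑ m ∈ range (n - j + 1), ((-1 : ℤ) ^ m * ((n - j).choose m : ℤ)) : ℤ) : ℝ) =
          ((if n - j = 0 then (1 : ℤ) else 0 : ℤ) : ℝ) := by rw [this]
      push_cast at h7
      exact h7
    rw [h6]
    rcases eq_or_ne n j with h8 | h8
    · subst h8
      simp
    · rw [if_neg h8, if_neg (by omega)]
      simp

theorem R_sq (L : ℕ) : R L * R L = 1 := by
  ext i j
  rw [Matrix.mul_apply, Matrix.one_apply]
  have h := A_alt i L j i.2
  rw [Finset.sum_range] at h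
  have h1 : ∀ k : Fin L, R L i k * R L k j =
      (-1) ^ (j : ℕ) * ((-1 : ℝ) ^ (k : ℕ) * (Nat.choose i k : ℝ) * (Nat.choose k j : ℝ)) := by
    intro k
    simp only [R, Matrix.of_apply]
    ring
  rw [Finset.sum_congr rfl (fun k _ => h1 k), ← Finset.mul_sum, h]
  rcases eq_or_ne i j with h2 | h2
  · subst h2
    rw [if_pos rfl, if_pos rfl, ← mul_pow]
    simp
  · rw [if_neg h2, if_neg (fun h3 => h2 (Fin.ext h3))]
    simp

theorem A_vand (i j N : ℕ) (h : i < N) :
    ∑ k ∈ range N, Nat.choose i k * Nat.choose j k = Nat.choose (i + j) i := by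
  have h1 := Nat.add_choose_eq j i i
  rw [Finset.Nat.sum_antidiagonal_eq_sum_range_succ (fun a b => j.choose a * i.choose b)] at h1
  rw [add_comm i j, h1]
  have h2 : ∑ k ∈ range N, Nat.choose i k * Nat.choose j k =
      ∑ k ∈ range (i + 1), Nat.choose i k * Nat.choose j k := by
    symm
    apply Finset.sum_subset
    · intro k hk
      rw [mem_range] at *
      omega
    · intro k _ hk
      rw [mem_range] at hk
      rw [Nat.choose_eq_zero_of_lt (by omega : i < k)]
      simp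
  rw [h2]
  apply Finset.sum_congr rfl
  intro k hk
  rw [mem_range] at hk
  rw [Nat.choose_symm (by omega : k ≤ i)]
  ring

theorem B_eq (L : ℕ) : B L = R L * (R L).transpose := by
  ext i j
  rw [Matrix.mul_apply]
  have h := A_vand i j L i.2
  rw [Finset.sum_range] at h
  simp only [B, R, Matrix.of_apply, Matrix.transpose_apply]
  rw [← h]
  push_cast
  apply Finset.sum_congr rfl
  intro k _
  have : (-1 : ℝ) ^ (k : ℕ) * (-1) ^ (k : ℕ) = 1 := by
    rw [← mul_pow]; simp
  linear_combination (-((Nat.choose i k : ℝ) * (Nat.choose j k : ℝ))) * this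

theorem J_symm (L : ℕ) : (J L).IsSymm := by
  ext i j
  simp only [J, Matrix.transpose_apply, Matrix.of_apply]
  by_cases h1 : (i : ℕ) = j
  · have h2 : i = j := Fin.ext h1
    subst h2
    rfl
  · rw [if_neg h1, if_neg (fun h => h1 h.symm)]
    split_ifs <;> first | rfl | omega

theorem A_b_zero (L : ℕ) : b L 0 = 0 := by simp [b]

theorem A_b_last (L : ℕ) (hL : 0 < L) : b L L = 0 := by
  have : (L : ℝ) ≠ 0 := by positivity
  unfold b
  rw [div_self (by positivity)]
  simp

/-- a row of `J` applied to a sequence -/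
theorem A_row (L : ℕ) (hL : 0 < L) (i : Fin L) (f : ℕ → ℝ) :
    ∑ k : Fin L, J L i k * f k =
      a L i * f i + b L ((i : ℕ) + 1) * f ((i : ℕ) + 1) + b L i * f ((i : ℕ) - 1) := by
  have h1 : ∀ k : Fin L, J L i k * f k =
      (if (i : ℕ) = (k : ℕ) then a L i * f (k : ℕ) else 0) +
      (if (i : ℕ) + 1 = (k : ℕ) then b L (k : ℕ) * f (k : ℕ) else 0) +
      (if (k : ℕ) + 1 = (i : ℕ) then b L i * f (k : ℕ) else 0) := by
    intro k
    simp only [J, Matrix.of_apply]
    split_ifs <;> first | omega | simp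
  rw [Finset.sum_congr rfl (fun k _ => h1 k), Finset.sum_add_distrib, Finset.sum_add_distrib]
  have e1 : ∑ k : Fin L, (if (i : ℕ) = (k : ℕ) then a L i * f (k : ℕ) else 0) = a L i * f i := by
    rw [← Finset.sum_range (fun k => if (i : ℕ) = k then a L i * f k else 0), Finset.sum_ite_eq,
      if_pos (mem_range.2 i.2)]
  have e2 : ∑ k : Fin L, (if (i : ℕ) + 1 = (k : ℕ) then b L (k : ℕ) * f (k : ℕ) else 0) =
      b L ((i : ℕ) + 1) * f ((i : ℕ) + 1) := by
    rw [← Finset.sum_range (fun k => if (i : ℕ) + 1 = k then b L k * f k else 0),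
      Finset.sum_ite_eq]
    split_ifs with h
    · rfl
    · rw [mem_range] at h
      have h2 : (i : ℕ) + 1 = L := by have := i.2; omega
      rw [h2, A_b_last L hL, zero_mul]
  have e3 : ∑ k : Fin L, (if (k : ℕ) + 1 = (i : ℕ) then b L i * f (k : ℕ) else 0) =
      b L i * f ((i : ℕ) - 1) := by
    rcases Nat.eq_zero_or_pos (i : ℕ) with h | h
    · rw [h, A_b_zero]
      simp
    · rw [← Finset.sum_range (fun k => if k + 1 = (i : ℕ) then b L i * f k else 0),
        Finset.sum_eq_single ((i : ℕ) - 1)]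
      · rw [if_pos (by omega)]
      · intro k _ hk
        rw [if_neg (by omega)]
      · intro hk
        rw [mem_range] at hk
        have := i.2
        omega
  rw [e1, e2, e3]

theorem A_c1 (i j : ℕ) : ((j : ℝ) + 1) * (Nat.choose i (j + 1) : ℝ) =
    ((i : ℝ) - j) * (Nat.choose i j : ℝ) := by
  rcases le_or_gt j i with h | h
  · have h1 := Nat.choose_succ_right_eq i j
    have h2 : (Nat.choose i (j + 1) : ℝ) * ((j : ℝ) + 1) =
        (Nat.choose i j : ℝ) * ((i : ℝ) - j) := by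
      rw [← Nat.cast_sub h]
      exact_mod_cast h1
    linarith
  · rw [Nat.choose_eq_zero_of_lt h, Nat.choose_eq_zero_of_lt (by omega : i < j + 1)]
    simp

theorem A_c2 (i j : ℕ) : (i : ℝ) * (Nat.choose (i - 1) j : ℝ) =
    ((i : ℝ) - j) * (Nat.choose i j : ℝ) := by
  rcases i with _ | i
  · rcases j with _ | j
    · simp
    · rw [Nat.choose_eq_zero_of_lt (by omega : 0 < j + 1)]
      simp
  · rw [Nat.add_sub_cancel]
    rcases le_or_gt j (i + 1) with h | h
    · have h1 := Nat.choose_mul_succ_eq i j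
      have h2 : (Nat.choose i j : ℝ) * ((i : ℝ) + 1) =
          (Nat.choose (i + 1) j : ℝ) * (((i + 1 : ℕ) : ℝ) - j) := by
        rw [← Nat.cast_sub h]
        exact_mod_cast h1
      push_cast at h2 ⊢
      linarith
    · rw [Nat.choose_eq_zero_of_lt h, Nat.choose_eq_zero_of_lt (by omega : i < j)]
      simp

theorem A_a_eq (L j : ℕ) (hL : 0 < L) :
    a L j = (2 * (j : ℝ) + 1) * (((j : ℝ) ^ 2 + j + 1 / 2) * ((L : ℝ) ^ 2)⁻¹ - 1 / 2) := by
  have : (L : ℝ) ≠ 0 := by positivity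
  unfold a
  field_simp
  ring

theorem A_b_eq (L k : ℕ) : b L k = (k : ℝ) * (1 - (k : ℝ) ^ 2 * ((L : ℝ) ^ 2)⁻¹) := by
  unfold b
  rw [div_eq_mul_inv]

theorem JR (L : ℕ) (hL : 0 < L) : J L * R L = -(R L * J L) := by
  ext i j
  rw [Matrix.neg_apply, Matrix.mul_apply, Matrix.mul_apply]
  have h1 := A_row L hL i (fun k => (-1) ^ (j : ℕ) * (Nat.choose k j : ℝ))
  have h2 := A_row L hL j (fun k => (-1) ^ k * (Nat.choose i k : ℝ))
  have e1 : ∑ k, J L i k * R L k j =
      ∑ k : Fin L, J L i k * ((-1) ^ (j : ℕ) * (Nat.choose (k : ℕ) j : ℝ)) := by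
    apply Finset.sum_congr rfl
    intro k _
    simp only [R, Matrix.of_apply]
  have e2 : ∑ k, R L i k * J L k j =
      ∑ k : Fin L, J L j k * ((-1) ^ (k : ℕ) * (Nat.choose i (k : ℕ) : ℝ)) := by
    apply Finset.sum_congr rfl
    intro k _
    have h := (J_symm L).apply k j
    rw [← h]
    simp only [R, Matrix.of_apply]
    ring
  rw [e1, e2]
  beta_reduce at h1 h2
  rw [h1, h2]
  have c1 := A_c1 i j
  have c2 := A_c2 i j
  rcases Nat.eq_zero_or_pos (j : ℕ) with hj | hj
  · rw [hj] at c1 c2 ⊢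
    rw [A_a_eq L _ hL, A_a_eq L _ hL, A_b_eq, A_b_eq, A_b_eq, A_b_eq]
    have c3 : (Nat.choose (i : ℕ) 0 : ℝ) = 1 := by simp
    have c4 : (Nat.choose ((i : ℕ) + 1) 0 : ℝ) = 1 := by simp
    rw [c3] at c1 c2 ⊢
    rw [c4]
    push_cast at c1 c2 ⊢
    simp only [zero_add] at c1 ⊢
    generalize (Nat.choose (i : ℕ) 1 : ℝ) = Y at *
    generalize (Nat.choose ((i : ℕ) - 1) 0 : ℝ) = Z at *
    generalize ((L : ℝ) ^ 2)⁻¹ = t
    generalize ((i : ℕ) : ℝ) = I at *
    linear_combination (1 - I ^ 2 * t) * c2 - (1 - t) * c1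
  · obtain ⟨j', hj'⟩ : ∃ j', (j : ℕ) = j' + 1 := ⟨(j : ℕ) - 1, by omega⟩
    have c3 := A_c1 i j'
    rw [hj'] at c1 c2 ⊢
    rw [A_a_eq L _ hL, A_a_eq L _ hL, A_b_eq, A_b_eq, A_b_eq, A_b_eq, Nat.choose_succ_succ' (i : ℕ) j',
      Nat.add_sub_cancel]
    push_cast at c1 c2 ⊢
    generalize (Nat.choose (i : ℕ) (j' + 1 + 1) : ℝ) = Cj at *
    generalize (Nat.choose ((i : ℕ) - 1) (j' + 1) : ℝ) = Ci at *
    generalize (Nat.choose (i : ℕ) (j' + 1) : ℝ) = X at *
    generalize (Nat.choose (i : ℕ) j' : ℝ) = Y at *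
    generalize ((L : ℝ) ^ 2)⁻¹ = t
    generalize ((i : ℕ) : ℝ) = I at *
    generalize (j' : ℝ) = K at *
    have e3 : (-1 : ℝ) ^ (j' + 1 + 1) = (-1) ^ j' := by ring
    have e4 : (-1 : ℝ) ^ (j' + 1) = -(-1) ^ j' := by ring
    rw [e3, e4]
    generalize (-1 : ℝ) ^ j' = S
    linear_combination (-S) * ((1 - I ^ 2 * t) * c2 - (1 - (K + 2) ^ 2 * t) * c1
      + (-(1 - ((I + 1) ^ 2 + (I + 1) * (K + 1) + (K + 1) ^ 2) * t)) * c3)

theorem det_B (L : ℕ) : (B L).det = 1 := by
  rw [B_eq, Matrix.det_mul, Matrix.det_transpose, ← Matrix.det_mul, R_sq, Matrix.det_one]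

end Pool.Agent.H160R2.OA
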