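import Pool.Agent.H160R2.OA.Alg

/-! Task C: counting eigenvalues -/

set_option autoImplicit false

namespace Pool.Agent.H160R2.OA
open Finset

theorem C_eig {n : ℕ} (A : Matrix (Fin n) (Fin n) ℝ) (hA : A.IsHermitian) (i : Fin n) :
    Matrix.toEuclideanLin A (hA.eigenvectorBasis i) =
      hA.eigenvalues i • hA.eigenvectorBasis i := by
  have h := hA.mulVec_eigenvectorBasis i
  have h2 : (Matrix.toEuclideanLin A (hA.eigenvectorBasis i)).ofLp =
      A.mulVec (hA.eigenvectorBasis i).ofLp := rfl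
  ext j
  rw [h2, h]
  rfl

theorem C_inner {n : ℕ} (A : Matrix (Fin n) (Fin n) ℝ) (hA : A.IsHermitian) (c : ℝ) (i : Fin n)
    (v : EuclideanSpace ℝ (Fin n)) :
    inner ℝ (hA.eigenvectorBasis i) (Matrix.toEuclideanLin A v - c • v) =
      (hA.eigenvalues i - c) * inner ℝ (hA.eigenvectorBasis i) v := by
  have hs : (Matrix.toEuclideanLin A).IsSymmetric := Matrix.isSymmetric_toEuclideanLin_iff.mpr hA
  rw [inner_sub_right, ← hs (hA.eigenvectorBasis i) v, C_eig, inner_smul_left, inner_smul_right]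
  simp only [conj_trivial]
  ring

theorem card_ge_of_subspace {n : ℕ} (A : Matrix (Fin n) (Fin n) ℝ) (hA : A.IsHermitian)
    (c r : ℝ) (V : Submodule ℝ (EuclideanSpace ℝ (Fin n)))
    (hV : ∀ v ∈ V, ‖Matrix.toEuclideanLin A v - c • v‖ ≤ r * ‖v‖) :
    Module.finrank ℝ V ≤ (univ.filter (fun i => |hA.eigenvalues i - c| ≤ r)).card := by
  set S := univ.filter (fun i => |hA.eigenvalues i - c| ≤ r) with hS
  let Φ : V →ₗ[ℝ] (S → ℝ) :=
    { toFun := fun v i => inner ℝ (hA.eigenvectorBasis i) (v : EuclideanSpace ℝ (Fin n))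
      map_add' := fun v w => by
        funext i
        simp [inner_add_right]
      map_smul' := fun a v => by
        funext i
        simp [inner_smul_right] }
  have hinj : Function.Injective Φ := by
    rw [← LinearMap.ker_eq_bot, LinearMap.ker_eq_bot']
    intro v hv
    have h0 : ∀ i ∈ S, inner ℝ (hA.eigenvectorBasis i) (v : EuclideanSpace ℝ (Fin n)) = 0 :=
      fun i hi => congrFun hv ⟨i, hi⟩
    have hle := hV v v.2
    rcases lt_or_ge r 0 with hr | hr
    · have h1 : ‖(v : EuclideanSpace ℝ (Fin n))‖ = 0 := by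
        have h2 := norm_nonneg (v : EuclideanSpace ℝ (Fin n))
        have h3 := norm_nonneg (Matrix.toEuclideanLin A v - c • (v : EuclideanSpace ℝ (Fin n)))
        nlinarith
      exact Subtype.ext (norm_eq_zero.1 h1)
    · have h1 := hA.eigenvectorBasis.sum_sq_norm_inner_right
        (Matrix.toEuclideanLin A v - c • (v : EuclideanSpace ℝ (Fin n)))
      have h2 := hA.eigenvectorBasis.sum_sq_norm_inner_right (v : EuclideanSpace ℝ (Fin n))
      have h3 : ‖Matrix.toEuclideanLin A v - c • (v : EuclideanSpace ℝ (Fin n))‖ ^ 2 ≤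
          (r * ‖(v : EuclideanSpace ℝ (Fin n))‖) ^ 2 :=
        pow_le_pow_left₀ (norm_nonneg _) hle 2
      rw [mul_pow, ← h1, ← h2, Finset.mul_sum] at h3
      simp only [C_inner, Real.norm_eq_abs, sq_abs, mul_pow] at h3
      have h4 : ∀ i, r ^ 2 * inner ℝ (hA.eigenvectorBasis i) (v : EuclideanSpace ℝ (Fin n)) ^ 2 ≤
          (hA.eigenvalues i - c) ^ 2 *
            inner ℝ (hA.eigenvectorBasis i) (v : EuclideanSpace ℝ (Fin n)) ^ 2 := by
        intro i
        by_cases hi : i ∈ S
        · rw [h0 i hi]; simp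
        · have h5 : r < |hA.eigenvalues i - c| := by
            rw [hS, mem_filter] at hi
            push Not at hi
            exact hi (mem_univ i)
          have h6 : r ^ 2 ≤ (hA.eigenvalues i - c) ^ 2 := by
            rw [← sq_abs (hA.eigenvalues i - c)]
            exact pow_le_pow_left₀ hr h5.le 2
          exact mul_le_mul_of_nonneg_right h6 (sq_nonneg _)
      have h5 : ∀ i, r ^ 2 * inner ℝ (hA.eigenvectorBasis i) (v : EuclideanSpace ℝ (Fin n)) ^ 2 =
          (hA.eigenvalues i - c) ^ 2 *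
            inner ℝ (hA.eigenvectorBasis i) (v : EuclideanSpace ℝ (Fin n)) ^ 2 := by
        intro i
        have h6 := Finset.sum_le_sum (fun i (_ : i ∈ (univ : Finset (Fin n))) => h4 i)
        have h7 := le_antisymm h6 h3
        exact (Finset.sum_eq_sum_iff_of_le (fun i _ => h4 i)).1 h7 i (mem_univ i)
      have h6 : ∀ i, inner ℝ (hA.eigenvectorBasis i) (v : EuclideanSpace ℝ (Fin n)) = 0 := by
        intro i
        by_cases hi : i ∈ S
        · exact h0 i hi
        · have h7 : r < |hA.eigenvalues i - c| := by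
            rw [hS, mem_filter] at hi
            push Not at hi
            exact hi (mem_univ i)
          have h8 : r ^ 2 < (hA.eigenvalues i - c) ^ 2 := by
            rw [← sq_abs (hA.eigenvalues i - c)]
            exact pow_lt_pow_left₀ h7 hr (by norm_num)
          have h9 := h5 i
          have h10 : ((hA.eigenvalues i - c) ^ 2 - r ^ 2) *
              inner ℝ (hA.eigenvectorBasis i) (v : EuclideanSpace ℝ (Fin n)) ^ 2 = 0 := by
            linarith
          rcases mul_eq_zero.1 h10 with h | h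
          · linarith
          · exact pow_eq_zero_iff (n := 2) (by norm_num) |>.1 h
      have h7 : ‖(v : EuclideanSpace ℝ (Fin n))‖ ^ 2 = 0 := by
        rw [← h2]
        exact Finset.sum_eq_zero fun i _ => by rw [h6 i]; simp
      exact Subtype.ext (norm_eq_zero.1 (pow_eq_zero_iff (n := 2) (by norm_num) |>.1 h7))
  have h := LinearMap.finrank_le_finrank_of_injective hinj
  rw [Module.finrank_fintype_fun_eq_card, Fintype.card_coe] at h
  exact h

theorem C_tr (L m : ℕ) (e : ℝ) (i : ℕ) (hb : b L (m + i + 1) ≠ 0) :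
    a L (m + i) * tr L m e (i + 1) + b L (m + i + 1) * tr L m e (i + 2) +
      b L (m + i) * tr L m e i = e * tr L m e (i + 1) := by
  have h : tr L m e (i + 2) =
      ((e - a L (m + i)) * tr L m e (i + 1) - b L (m + i) * tr L m e i) / b L (m + i + 1) := by
    rw [tr]
  rw [h]
  field_simp
  ring

/-- the truncated sequence -/
noncomputable def C_cu (L m n : ℕ) (e : ℝ) (j : ℕ) : ℝ :=
  if m ≤ j ∧ j < m + n then tr L m e (j - m + 1) else 0

theorem C_cu_lt {L m n : ℕ} {e : ℝ} {j : ℕ} (h : j < m) : C_cu L m n e j = 0 := by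
  unfold C_cu
  rw [if_neg (by omega)]

theorem C_cu_ge {L m n : ℕ} {e : ℝ} {j : ℕ} (h : m + n ≤ j) : C_cu L m n e j = 0 := by
  unfold C_cu
  rw [if_neg (by omega)]

theorem C_cu_in {L m n : ℕ} {e : ℝ} {i : ℕ} (h : i < n) :
    C_cu L m n e (m + i) = tr L m e (i + 1) := by
  unfold C_cu
  rw [if_pos (by omega), Nat.add_sub_cancel_left]

theorem C_row (L m n : ℕ) (hm : 1 ≤ m) (hn : 1 ≤ n) (hL : m + n < L)
    (hb : ∀ k, 1 ≤ k → k < L → b L k ≠ 0) (e : ℝ) (he : tr L m e (n + 1) = 0) (j : ℕ) :
    a L j * C_cu L m n e j + b L (j + 1) * C_cu L m n e (j + 1) +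
      b L j * C_cu L m n e (j - 1) = e * C_cu L m n e j + (if j + 1 = m then b L m else 0) +
        (if j = m + n then b L (m + n) * tr L m e n else 0) := by
  have ht1 : tr L m e 1 = 1 := by rw [tr]
  have ht0 : tr L m e 0 = 0 := by rw [tr]
  rcases lt_trichotomy (j + 1) m with h | h | h
  · rw [C_cu_lt (by omega : j < m), C_cu_lt h, C_cu_lt (by omega : j - 1 < m), if_neg (by omega),
      if_neg (by omega)]
    ring
  · rw [C_cu_lt (by omega : j < m), C_cu_lt (by omega : j - 1 < m), if_pos h,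
      if_neg (by omega), h]
    have h1 := C_cu_in (L := L) (m := m) (e := e) (show 0 < n by omega)
    rw [add_zero, zero_add, ht1] at h1
    rw [h1]
    ring
  · rw [if_neg (by omega)]
    rcases lt_trichotomy j (m + n) with h2 | h2 | h2
    · obtain ⟨i, rfl⟩ : ∃ i, j = m + i := ⟨j - m, by omega⟩
      have hi : i < n := by omega
      rw [if_neg (by omega), C_cu_in hi]
      have e1 : C_cu L m n e (m + i + 1) = tr L m e (i + 2) := by
        rcases lt_or_eq_of_le (Nat.succ_le_of_lt hi) with h3 | h3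
        · exact C_cu_in (i := i + 1) h3
        · rw [C_cu_ge (by omega)]
          rw [← he, ← h3]
      have e2 : C_cu L m n e (m + i - 1) = tr L m e i := by
        rcases Nat.eq_zero_or_pos i with h3 | h3
        · subst h3
          rw [C_cu_lt (by omega), ht0]
        · obtain ⟨i', rfl⟩ : ∃ i', i = i' + 1 := ⟨i - 1, by omega⟩
          have h4 : m + (i' + 1) - 1 = m + i' := by omega
          rw [h4, C_cu_in (by omega : i' < n)]
      rw [e1, e2]
      have h5 := C_tr L m e i (hb _ (by omega) (by omega))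
      linarith
    · subst h2
      rw [C_cu_ge le_rfl, C_cu_ge (by omega : m + n ≤ m + n + 1), if_pos rfl]
      obtain ⟨n', rfl⟩ : ∃ n', n = n' + 1 := ⟨n - 1, by omega⟩
      have h4 : m + (n' + 1) - 1 = m + n' := by omega
      rw [h4, C_cu_in (by omega : n' < n' + 1)]
      ring
    · rw [C_cu_ge (by omega : m + n ≤ j), C_cu_ge (by omega : m + n ≤ j + 1),
        C_cu_ge (by omega : m + n ≤ j - 1), if_neg (by omega)]
      ring

/-- the truncated vector -/
noncomputable def C_U (L m n : ℕ) (e : ℝ) : EuclideanSpace ℝ (Fin L) :=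
  WithLp.toLp 2 (fun j : Fin L => C_cu L m n e j)

theorem C_JU (L m n : ℕ) (hm : 1 ≤ m) (hn : 1 ≤ n) (hL : m + n < L)
    (hb : ∀ k, 1 ≤ k → k < L → b L k ≠ 0) (e : ℝ) (he : tr L m e (n + 1) = 0) (j : Fin L) :
    Matrix.toEuclideanLin (J L) (C_U L m n e) j =
      e * C_cu L m n e j + (if (j : ℕ) + 1 = m then b L m else 0) +
        (if (j : ℕ) = m + n then b L (m + n) * tr L m e n else 0) := by
  rw [← C_row L m n hm hn hL hb e he j, ← A_row L (by omega) j (C_cu L m n e)]
  rfl

theorem C_inner_U (L m n : ℕ) (e : ℝ) (y : EuclideanSpace ℝ (Fin L)) :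
    inner ℝ y (C_U L m n e) = ∑ j : Fin L, y j * C_cu L m n e j := by
  rw [PiLp.inner_apply]
  apply Finset.sum_congr rfl
  intro j _
  have h : (C_U L m n e) j = C_cu L m n e j := rfl
  rw [h]
  simp [mul_comm]

theorem C_orth (L m n : ℕ) (hm : 1 ≤ m) (hn : 1 ≤ n) (hL : m + n < L)
    (hb : ∀ k, 1 ≤ k → k < L → b L k ≠ 0) (e e' : ℝ) (he : tr L m e (n + 1) = 0)
    (he' : tr L m e' (n + 1) = 0) (hJ : (J L).IsHermitian) (hne : e ≠ e') :
    inner ℝ (C_U L m n e) (C_U L m n e') = 0 := by
  have key : ∀ f f' : ℝ, tr L m f (n + 1) = 0 →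
      inner ℝ (Matrix.toEuclideanLin (J L) (C_U L m n f)) (C_U L m n f') =
        f * inner ℝ (C_U L m n f) (C_U L m n f') := by
    intro f f' hf
    rw [C_inner_U, C_inner_U, Finset.mul_sum]
    apply Finset.sum_congr rfl
    intro j _
    rw [C_JU L m n hm hn hL hb f hf j]
    have h1 : (if (j : ℕ) + 1 = m then b L m else 0) * C_cu L m n f' j = 0 := by
      split_ifs with h
      · rw [C_cu_lt (by omega), mul_zero]
      · rw [zero_mul]
    have h2 : (if (j : ℕ) = m + n then b L (m + n) * tr L m f n else 0) * C_cu L m n f' j = 0 := by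
      split_ifs with h
      · rw [C_cu_ge (by omega), mul_zero]
      · rw [zero_mul]
    have h3 : (C_U L m n f) j = C_cu L m n f j := rfl
    rw [h3, add_mul, add_mul, h1, h2]
    ring
  have hs : (Matrix.toEuclideanLin (J L)).IsSymmetric :=
    Matrix.isSymmetric_toEuclideanLin_iff.mpr hJ
  have h1 := key e e' he
  have h2 := key e' e he'
  rw [hs (C_U L m n e) (C_U L m n e'), real_inner_comm] at h1
  rw [h2, real_inner_comm] at h1
  have h3 : (e' - e) * inner ℝ (C_U L m n e) (C_U L m n e') = 0 := by linarith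
  rcases mul_eq_zero.1 h3 with h | h
  · exact absurd (by linarith) hne
  · exact h

theorem C_pyth {E : Type*} [NormedAddCommGroup E] [InnerProductSpace ℝ E] {ι : Type*}
    [Fintype ι] (u : ι → E) (hu : ∀ i j, i ≠ j → inner ℝ (u i) (u j) = 0) (y : ι → ℝ) :
    ‖∑ i, y i • u i‖ ^ 2 = ∑ i, y i ^ 2 * ‖u i‖ ^ 2 := by
  classical
  rw [← real_inner_self_eq_norm_sq, sum_inner]
  apply Finset.sum_congr rfl
  intro i _
  rw [inner_sum, Finset.sum_eq_single i]
  · rw [inner_smul_left, inner_smul_right, real_inner_self_eq_norm_sq]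
    simp only [conj_trivial]
    ring
  · intro j _ hj
    rw [inner_smul_left, inner_smul_right, hu i j (Ne.symm hj)]
    simp
  · intro h
    exact absurd (mem_univ _) h

theorem count_of_trunc (L m n : ℕ) (hm : 1 ≤ m) (hn : 1 ≤ n) (hL : m + n < L) (c r : ℝ)
    (S : Finset ℝ) (hS : ∀ e ∈ S, |e - c| ≤ r ∧ tr L m e (n + 1) = 0)
    (hJ : (J L).IsHermitian) :
    S.card ≤ 2 + (univ.filter (fun i => |hJ.eigenvalues i - c| ≤ r)).card := by
  rcases S.eq_empty_or_nonempty with hSe | hSne
  · rw [hSe]; simp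
  have hr : 0 ≤ r := by
    obtain ⟨e, he⟩ := hSne
    exact (abs_nonneg _).trans (hS e he).1
  have hb : ∀ k, 1 ≤ k → k < L → b L k ≠ 0 := by
    intro k hk hkL
    have h1 : (0 : ℝ) < k := by exact_mod_cast hk
    have h2 : (k : ℝ) < L := by exact_mod_cast hkL
    have h3 : (0 : ℝ) < L := h1.trans h2
    unfold b
    apply ne_of_gt
    apply mul_pos h1
    have h4 : (k : ℝ) ^ 2 / (L : ℝ) ^ 2 < 1 := by
      rw [div_lt_one (by positivity)]
      exact pow_lt_pow_left₀ h2 h1.le (by norm_num)
    linarith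
  set u : S → EuclideanSpace ℝ (Fin L) := fun e => C_U L m n e with hu
  have hut : ∀ e : S, tr L m (e : ℝ) (n + 1) = 0 := fun e => (hS e e.2).2
  have horth : ∀ e e' : S, e ≠ e' → inner ℝ (u e) (u e') = 0 := by
    intro e e' hne
    exact C_orth L m n hm hn hL hb e e' (hut e) (hut e') hJ (fun h => hne (Subtype.ext h))
  have hune : ∀ e : S, u e ≠ 0 := by
    intro e h
    have h1 : (u e) ⟨m, by omega⟩ = 0 := by rw [h]; rfl
    have h2 : (u e) ⟨m, by omega⟩ = C_cu L m n e m := rfl
    have h3 := C_cu_in (L := L) (m := m) (e := (e : ℝ)) (show 0 < n by omega)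
    rw [add_zero, zero_add] at h3
    rw [h2, h3, tr] at h1
    exact one_ne_zero h1
  have hli : LinearIndependent ℝ u :=
    linearIndependent_of_ne_zero_of_inner_eq_zero hune (fun e e' h => horth e e' h)
  -- the synthesis map
  let Ψ : (S → ℝ) →ₗ[ℝ] EuclideanSpace ℝ (Fin L) := Fintype.linearCombination ℝ u
  have hΨ : ∀ x, Ψ x = ∑ e, x e • u e := fun x => Fintype.linearCombination_apply ℝ u x
  have hΨinj : Function.Injective Ψ :=
    linearIndependent_iff_injective_fintypeLinearCombination.1 hli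
  let Θ : (S → ℝ) →ₗ[ℝ] (Fin 2 → ℝ) :=
    { toFun := fun x => ![∑ e, x e, ∑ e : S, x e * tr L m (e : ℝ) n]
      map_add' := fun x y => by
        funext i
        fin_cases i
        · simp [Finset.sum_add_distrib]
        · simp [Finset.sum_add_distrib, add_mul]
      map_smul' := fun a x => by
        funext i
        fin_cases i
        · simp [Finset.mul_sum]
        · simp [Finset.mul_sum, mul_assoc] }
  set K : Submodule ℝ (S → ℝ) := LinearMap.ker Θ with hK
  have hfin : S.card ≤ 2 + Module.finrank ℝ K := by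
    have h1 := LinearMap.finrank_range_add_finrank_ker Θ
    rw [← hK] at h1
    have h2 : Module.finrank ℝ (LinearMap.range Θ) ≤ 2 := by
      have h3 := Submodule.finrank_le (LinearMap.range Θ)
      rw [Module.finrank_fin_fun] at h3
      exact h3
    rw [Module.finrank_fintype_fun_eq_card, Fintype.card_coe] at h1
    omega
  set V : Submodule ℝ (EuclideanSpace ℝ (Fin L)) := K.map Ψ with hV
  have hVK : Module.finrank ℝ V = Module.finrank ℝ K :=
    (LinearEquiv.finrank_eq (Submodule.equivMapOfInjective Ψ hΨinj K)).symm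
  have hmain : ∀ v ∈ V, ‖Matrix.toEuclideanLin (J L) v - c • v‖ ≤ r * ‖v‖ := by
    intro v hv
    obtain ⟨x, hx, rfl⟩ := hv
    have hx1 : Θ x = 0 := hx
    have hx2 : ∑ e, x e = 0 := congrFun hx1 0
    have hx3 : ∑ e : S, x e * tr L m (e : ℝ) n = 0 := congrFun hx1 1
    have hJv : Matrix.toEuclideanLin (J L) (Ψ x) = ∑ e : S, (x e * (e : ℝ)) • u e := by
      rw [hΨ, map_sum]
      simp only [map_smul]
      ext j
      rw [WithLp.ofLp_sum, WithLp.ofLp_sum, Finset.sum_apply, Finset.sum_apply]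
      have h1 : ∀ e : S, (x e • Matrix.toEuclideanLin (J L) (u e)).ofLp j =
          (x e * (e : ℝ)) * C_cu L m n e j + (if (j : ℕ) + 1 = m then b L m else 0) * x e +
          (if (j : ℕ) = m + n then b L (m + n) else 0) * (x e * tr L m (e : ℝ) n) := by
        intro e
        have h2 := C_JU L m n hm hn hL hb (e : ℝ) (hut e) j
        have h3 : (x e • Matrix.toEuclideanLin (J L) (u e)).ofLp j =
            x e * (Matrix.toEuclideanLin (J L) (C_U L m n e)) j := rfl
        rw [h3, h2]
        split_ifs <;> ring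
      rw [Finset.sum_congr rfl (fun e _ => h1 e), Finset.sum_add_distrib,
        Finset.sum_add_distrib, ← Finset.mul_sum, ← Finset.mul_sum, hx2, hx3, mul_zero, mul_zero,
        add_zero, add_zero]
      rfl
    have hd : Matrix.toEuclideanLin (J L) (Ψ x) - c • Ψ x =
        ∑ e : S, (x e * ((e : ℝ) - c)) • u e := by
      rw [hJv, hΨ, Finset.smul_sum, ← Finset.sum_sub_distrib]
      apply Finset.sum_congr rfl
      intro e _
      rw [smul_smul, ← sub_smul]
      congr 1
      ring
    have hsq : ‖Matrix.toEuclideanLin (J L) (Ψ x) - c • Ψ x‖ ^ 2 ≤ (r * ‖Ψ x‖) ^ 2 := by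
      rw [hd, mul_pow, hΨ, C_pyth u horth, C_pyth u horth, Finset.mul_sum]
      apply Finset.sum_le_sum
      intro e _
      have h1 := (hS e e.2).1
      have h2 : ((e : ℝ) - c) ^ 2 ≤ r ^ 2 := by
        rw [← sq_abs ((e : ℝ) - c)]
        exact pow_le_pow_left₀ (abs_nonneg _) h1 2
      have h3 : 0 ≤ x e ^ 2 * ‖u e‖ ^ 2 := by positivity
      have h4 := mul_le_mul_of_nonneg_right h2 h3
      calc (x e * ((e : ℝ) - c)) ^ 2 * ‖u e‖ ^ 2 = ((e : ℝ) - c) ^ 2 * (x e ^ 2 * ‖u e‖ ^ 2) := by
            ring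
        _ ≤ r ^ 2 * (x e ^ 2 * ‖u e‖ ^ 2) := h4
    exact le_of_sq_le_sq hsq (mul_nonneg hr (norm_nonneg _))
  have h := card_ge_of_subspace (J L) hJ c r V hmain
  rw [hVK] at h
  omega

end Pool.Agent.H160R2.OA
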