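import Mathlib

/-!
# Definitions for the asymptotics of `det (w + B_L)`, `B_L` the Pascal matrix

`J L` is a symmetric tridiagonal matrix commuting with the Pascal matrix `B L`.
-/

set_option autoImplicit false

namespace Pool.Agent.H160R2.OA

/-- bond coefficient (bond `k` joins sites `k-1` and `k`) -/
noncomputable def b (L k : ℕ) : ℝ := (k : ℝ) * (1 - (k : ℝ) ^ 2 / (L : ℝ) ^ 2)

/-- diagonal coefficient at site `j` -/
noncomputable def a (L j : ℕ) : ℝ :=
  (2 * (j : ℝ) + 1) * ((j : ℝ) ^ 2 + j + (1 - (L : ℝ) ^ 2) / 2) / (L : ℝ) ^ 2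

/-- the tridiagonal matrix -/
noncomputable def J (L : ℕ) : Matrix (Fin L) (Fin L) ℝ := Matrix.of fun i j =>
  if (i : ℕ) = j then a L i else if (i : ℕ) + 1 = j then b L j
    else if (j : ℕ) + 1 = i then b L i else 0

/-- the Pascal matrix -/
def B (L : ℕ) : Matrix (Fin L) (Fin L) ℝ :=
  Matrix.of fun i j => (Nat.choose ((i : ℕ) + j) i : ℝ)

/-- the involution `f(x) ↦ f(x/(x-1))/(1-x)` in coordinates -/
def R (L : ℕ) : Matrix (Fin L) (Fin L) ℝ :=
  Matrix.of fun i j => (-1) ^ (j : ℕ) * (Nat.choose i j : ℝ)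

/-- solution of the three-term recurrence with `sol 0 = 1` -/
noncomputable def sol (L : ℕ) (e : ℝ) : ℕ → ℝ
  | 0 => 1
  | 1 => (e - a L 0) / b L 1
  | (j + 2) => ((e - a L (j + 1)) * sol L e (j + 1) - b L (j + 1) * sol L e j) / b L (j + 2)

/-- value at `1/2` of the generating polynomial of `sol` -/
noncomputable def F (L : ℕ) (e : ℝ) : ℝ := ∑ j ∈ Finset.range L, sol L e j / 2 ^ j

/-- `e` is an eigenvalue of `J L` -/
def IsEv (L : ℕ) (e : ℝ) : Prop := ∃ v : Fin L → ℝ, v ≠ 0 ∧ (J L).mulVec v = e • v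

/-- limit of `sol` (Meixner-Pollaczek polynomials) -/
noncomputable def P (y : ℝ) : ℕ → ℝ
  | 0 => 1
  | 1 => √3 * y + 1 / 2
  | (j + 2) => ((√3 * y + ((j : ℝ) + 1) + 1 / 2) * P y (j + 1) - ((j : ℝ) + 1) * P y j) / ((j : ℝ) + 2)

/-- truncated solution: `tr L m e i` lives at site `m - 1 + i`; it vanishes at site `m - 1` and is
`1` at site `m` -/
noncomputable def tr (L m : ℕ) (e : ℝ) : ℕ → ℝ
  | 0 => 0
  | 1 => 1
  | (i + 2) => ((e - a L (m + i)) * tr L m e (i + 1) - b L (m + i) * tr L m e i) / b L (m + i + 1)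

/-- the matrix `w + B_L` over the complex numbers -/
noncomputable def wB (L : ℕ) (w : ℂ) : Matrix (Fin L) (Fin L) ℂ :=
  w • (1 : Matrix (Fin L) (Fin L) ℂ) + (B L).map (fun x : ℝ => (x : ℂ))

end Pool.Agent.H160R2.OA
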