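import Pool.Agent.H160R2.OA.Eig

/-! Task D: the determinant of `w + B` -/

set_option autoImplicit false

namespace Pool.Agent.H160R2.OA
open Finset

/-- `μ` lists the eigenvalues of `B L` along the eigenvalues of `J L` -/
def IsMu (L : ℕ) (hJ : (J L).IsHermitian) (μ : Fin L → ℝ) : Prop :=
    (∀ i, 0 < μ i) ∧
    (∀ i, ∃ v : Fin L → ℝ, v ≠ 0 ∧ (J L).mulVec v = hJ.eigenvalues i • v ∧
      (B L).mulVec v = μ i • v) ∧
    (∀ w : ℂ, (wB L w).det = ∏ i, (w + (μ i : ℂ))) ∧
    (∀ θ : ℝ, ‖(wB L (Complex.exp (θ * Complex.I))).det‖ ^ 2 =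
      ∏ i, (2 * Real.cosh (Real.log (μ i)) + 2 * Real.cos θ))

theorem D_det (L : ℕ) (U V : Matrix (Fin L) (Fin L) ℝ) (μ : Fin L → ℝ) (hUV : U * V = 1)
    (hBU : B L * U = U * Matrix.diagonal μ) (w : ℂ) :
    (wB L w).det = ∏ i, (w + (μ i : ℂ)) := by
  set φ : ℝ →+* ℂ := Complex.ofRealHom with hφ
  have h1 : U.map φ * V.map φ = 1 := by
    rw [← Matrix.map_mul, hUV, Matrix.map_one _ (map_zero φ) (map_one φ)]
  have h2 : (B L).map φ * U.map φ = U.map φ * Matrix.diagonal (fun i => (μ i : ℂ)) := by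
    rw [← Matrix.map_mul, hBU, Matrix.map_mul, Matrix.diagonal_map (map_zero φ)]
    rfl
  have h3 : wB L w * U.map φ = U.map φ * Matrix.diagonal (fun i => w + (μ i : ℂ)) := by
    have h4 : Matrix.diagonal (fun i => w + (μ i : ℂ)) =
        w • (1 : Matrix (Fin L) (Fin L) ℂ) + Matrix.diagonal (fun i => (μ i : ℂ)) := by
      ext i j
      rw [Matrix.add_apply, Matrix.smul_apply, Matrix.diagonal_apply, Matrix.diagonal_apply,
        Matrix.one_apply]
      split_ifs <;> simp
    rw [h4, Matrix.mul_add, ← h2]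
    unfold wB
    rw [Matrix.add_mul, Matrix.smul_mul, Matrix.mul_smul, one_mul, mul_one]
    rfl
  have h5 := congrArg Matrix.det h3
  rw [Matrix.det_mul, Matrix.det_mul, Matrix.det_diagonal, mul_comm] at h5
  have h6 : (U.map φ).det ≠ 0 := by
    intro h
    have h7 := congrArg Matrix.det h1
    rw [Matrix.det_mul, h, zero_mul, Matrix.det_one] at h7
    exact zero_ne_one h7
  exact mul_left_cancel₀ h6 h5

theorem D_norm (μ θ : ℝ) (hμ : 0 < μ) :
    ‖Complex.exp (θ * Complex.I) + (μ : ℂ)‖ ^ 2 =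
      μ * (2 * Real.cosh (Real.log μ) + 2 * Real.cos θ) := by
  rw [Complex.sq_norm, Complex.normSq_apply, Complex.add_re, Complex.add_im,
    Complex.exp_ofReal_mul_I_re, Complex.exp_ofReal_mul_I_im, Complex.ofReal_re,
    Complex.ofReal_im, Real.cosh_log hμ]
  have h := Real.sin_sq_add_cos_sq θ
  field_simp
  linear_combination h

theorem det_wB (L : ℕ) (hL : 0 < L) (hJ : (J L).IsHermitian) : ∃ μ : Fin L → ℝ, IsMu L hJ μ := by
  have hex : ∀ i : Fin L, ∃ μ : ℝ, 0 < μ ∧
      (B L).mulVec (hJ.eigenvectorBasis i).ofLp = μ • (hJ.eigenvectorBasis i).ofLp := by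
    intro i
    have h1 := hJ.mulVec_eigenvectorBasis i
    have h0 : (hJ.eigenvectorBasis i).ofLp ≠ 0 := by
      intro h
      have h2 : hJ.eigenvectorBasis i = 0 := by
        ext j
        exact congrFun h j
      have h3 := hJ.eigenvectorBasis.orthonormal.ne_zero i
      exact h3 h2
    obtain ⟨_, _, _, μ, hμ, hB, _⟩ := ev_B L hL (hJ.eigenvalues i) _ h0 h1
    exact ⟨μ, hμ, hB⟩
  choose μ hμ hB using hex
  set U : Matrix (Fin L) (Fin L) ℝ := (hJ.eigenvectorUnitary : Matrix (Fin L) (Fin L) ℝ) with hU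
  have hUV : U * star U = 1 := by
    exact Unitary.coe_mul_star_self hJ.eigenvectorUnitary
  have hBU : B L * U = U * Matrix.diagonal μ := by
    ext i j
    rw [Matrix.mul_diagonal, Matrix.mul_apply]
    have h1 := congrFun (hB j) i
    unfold Matrix.mulVec dotProduct at h1
    rw [Pi.smul_apply, smul_eq_mul] at h1
    rw [mul_comm, hU]
    simp only [Matrix.IsHermitian.eigenvectorUnitary_apply]
    exact h1
  have hdet := D_det L U (star U) μ hUV hBU
  have hprod : ∏ i, μ i = 1 := by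
    have h1 := hdet 0
    have h2 : wB L 0 = (B L).map Complex.ofRealHom := by
      unfold wB
      rw [zero_smul, zero_add]
      rfl
    rw [h2] at h1
    have h3 : ((B L).map Complex.ofRealHom).det = Complex.ofRealHom (B L).det := by
      rw [RingHom.map_det]
      rfl
    rw [h3, det_B, map_one] at h1
    simp only [zero_add] at h1
    have h4 : ((∏ i, μ i : ℝ) : ℂ) = 1 := by
      rw [Complex.ofReal_prod]
      exact h1.symm
    exact_mod_cast h4
  refine ⟨μ, hμ, fun i => ⟨(hJ.eigenvectorBasis i).ofLp, ?_, hJ.mulVec_eigenvectorBasis i, hB i⟩,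
    hdet, fun θ => ?_⟩
  · intro h
    have h2 : hJ.eigenvectorBasis i = 0 := by
      ext j
      exact congrFun h j
    exact hJ.eigenvectorBasis.orthonormal.ne_zero i h2
  · rw [hdet, norm_prod, ← Finset.prod_pow,
      Finset.prod_congr rfl (fun i _ => D_norm (μ i) θ (hμ i)), Finset.prod_mul_distrib, hprod,
      one_mul]

end Pool.Agent.H160R2.OA
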