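import Pool.Agent.H160R2.OA.Defs

/-!
# WKB lower bound for the number of zeros of the truncated solution
-/

set_option autoImplicit false

namespace Pool.Agent.H160R2.OA

open Finset ComplexConjugate

noncomputable section

/-- `(k / L)^2` -/
def W_q (L k : ℕ) : ℝ := (k : ℝ) ^ 2 / (L : ℝ) ^ 2

/-- imaginary part of the approximate ratio -/
def W_S (L k : ℕ) : ℝ := √(3 / 4 - W_q L k)

/-- unnormalised direction -/
def W_U (L k : ℕ) : ℂ := ⟨1 / 2 - W_q L k, W_S L k⟩

/-- normalised direction -/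
def W_u (L k : ℕ) : ℂ := W_U L k / ((1 - W_q L k : ℝ) : ℂ)

/-- `1/2 + i y` -/
def W_z (y : ℝ) : ℂ := ⟨1 / 2, y⟩

/-- ratio of the approximate solution -/
def W_rho (L : ℕ) (y : ℝ) (k : ℕ) : ℂ := W_u L k * (1 - W_z y / k)

/-- residual of the approximate solution -/
def W_eps (L : ℕ) (y : ℝ) (j : ℕ) : ℂ :=
  (b L (j + 1) : ℂ) * W_rho L y (j + 1) + (b L j : ℂ) / W_rho L y j + (a L j : ℂ) -
    ((√3 * y : ℝ) : ℂ)

theorem W_q_nonneg (L k : ℕ) : 0 ≤ W_q L k := by unfold W_q; positivity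

theorem W_b_eq (L k : ℕ) : b L k = k * (1 - W_q L k) := rfl

theorem W_S_sq {L k : ℕ} (hq : W_q L k ≤ 1 / 16) : W_S L k ^ 2 = 3 / 4 - W_q L k :=
  Real.sq_sqrt (by linarith)

theorem W_S_ge {L k : ℕ} (hq : W_q L k ≤ 1 / 16) : 4 / 5 ≤ W_S L k := by
  refine Real.le_sqrt_of_sq_le ?_
  norm_num
  linarith

theorem W_S_le (L k : ℕ) : W_S L k ≤ √3 / 2 := by
  have h1 : √3 / 2 = √(3 / 4) := by
    rw [Real.sqrt_div' _ (by norm_num : (0 : ℝ) ≤ 4)]
    congr 1
    rw [show (4 : ℝ) = 2 ^ 2 by norm_num, Real.sqrt_sq (by norm_num)]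
  rw [h1]
  exact Real.sqrt_le_sqrt (by linarith [W_q_nonneg L k])

theorem W_U_mul_conj {L k : ℕ} (hq : W_q L k ≤ 1 / 16) :
    W_U L k * conj (W_U L k) = (((1 - W_q L k) ^ 2 : ℝ) : ℂ) := by
  rw [Complex.mul_conj]
  congr 1
  rw [Complex.normSq_apply]
  simp only [W_U]
  have := W_S_sq hq
  nlinarith

theorem W_U_ne {L k : ℕ} (hq : W_q L k ≤ 1 / 16) : W_U L k ≠ 0 := by
  intro h
  have h1 := congrArg Complex.im h
  have h2 := W_S_ge hq
  simp only [W_U, Complex.zero_im] at h1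
  linarith

theorem W_k_sub_ne {k : ℕ} (hk : 1 ≤ k) (y : ℝ) : (k : ℂ) - W_z y ≠ 0 := by
  intro h
  have h1 := congrArg Complex.re h
  simp only [W_z, Complex.sub_re, Complex.natCast_re, Complex.zero_re] at h1
  have : (1 : ℝ) ≤ k := by exact_mod_cast hk
  linarith

theorem W_b_rho {L k : ℕ} (hk : 1 ≤ k) (hq : W_q L k ≤ 1 / 16) (y : ℝ) :
    (b L k : ℂ) * W_rho L y k = W_U L k * (k - W_z y) := by
  have h1 : ((1 - W_q L k : ℝ) : ℂ) ≠ 0 := by
    rw [Ne, Complex.ofReal_eq_zero]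
    linarith
  have h2 : (k : ℂ) ≠ 0 := by
    rw [Nat.cast_ne_zero]
    omega
  rw [W_b_eq, W_rho, W_u]
  push_cast at h1 ⊢
  field_simp

theorem W_b_div {L k : ℕ} (hk : 1 ≤ k) (hq : W_q L k ≤ 1 / 16) (y : ℝ) :
    (b L k : ℂ) / W_rho L y k = conj (W_U L k) * (k ^ 2 / (k - W_z y)) := by
  have h1 : ((1 - W_q L k : ℝ) : ℂ) ≠ 0 := by
    rw [Ne, Complex.ofReal_eq_zero]
    linarith
  have h2 : (k : ℂ) ≠ 0 := by
    rw [Nat.cast_ne_zero]
    omega
  have h3 := W_k_sub_ne hk y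
  have h4 := W_U_ne hq
  have h5 := W_U_mul_conj hq
  have h6 : (1 - W_z y / k) ≠ 0 := by
    rw [Ne, sub_eq_zero, eq_div_iff h2, one_mul]
    intro h
    exact h3 (by rw [h]; ring)
  have h7 : W_rho L y k ≠ 0 := by
    unfold W_rho W_u
    exact mul_ne_zero (div_ne_zero h4 h1) h6
  rw [div_eq_iff h7, W_b_eq, W_rho, W_u]
  have h8 : conj (W_U L k) * (k ^ 2 / (k - W_z y)) * (W_U L k / ((1 - W_q L k : ℝ) : ℂ) *
      (1 - W_z y / k)) = (W_U L k * conj (W_U L k)) * (k ^ 2 / (k - W_z y)) *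
      (1 - W_z y / k) / ((1 - W_q L k : ℝ) : ℂ) := by ring
  rw [h8, h5]
  push_cast at h1 ⊢
  field_simp

theorem W_rho_ne {L k : ℕ} (hk : 1 ≤ k) (hq : W_q L k ≤ 1 / 16) (y : ℝ) :
    W_rho L y k ≠ 0 := by
  intro h
  have h1 := W_b_rho hk hq y
  rw [h, mul_zero] at h1
  exact mul_ne_zero (W_U_ne hq) (W_k_sub_ne hk y) h1.symm

theorem W_eps_eq {L j : ℕ} (hj : 1 ≤ j) (hL : 1 ≤ L) (hq : W_q L (j + 1) ≤ 1 / 16)
    (hq' : W_q L j ≤ 1 / 16) (y : ℝ) :
    W_eps L y j = ((y * (W_S L (j + 1) + W_S L j - √3) : ℝ) : ℂ) +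
      (((j + 1 / 2) * (W_S L (j + 1) - W_S L j) - y * (W_q L j - W_q L (j + 1)) : ℝ) : ℂ) *
        Complex.I + conj (W_U L j) * (W_z y ^ 2 / (j - W_z y)) := by
  have h1 := W_b_rho (L := L) (k := j + 1) (by omega) hq y
  have h2 := W_b_div hj hq' y
  have h3 := W_k_sub_ne hj y
  unfold W_eps
  rw [h1, h2]
  have h4 : ((j : ℂ) ^ 2 / (j - W_z y)) = j + W_z y + W_z y ^ 2 / (j - W_z y) := by
    field_simp
    ring
  rw [h4, mul_add]
  have h5 : W_U L (j + 1) * (((j + 1 : ℕ) : ℂ) - W_z y) + conj (W_U L j) * (j + W_z y) +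
      (a L j : ℂ) - ((√3 * y : ℝ) : ℂ) = ((y * (W_S L (j + 1) + W_S L j - √3) : ℝ) : ℂ) +
      (((j + 1 / 2) * (W_S L (j + 1) - W_S L j) - y * (W_q L j - W_q L (j + 1)) : ℝ) : ℂ) *
        Complex.I := by
    have hL0 : (L : ℝ) ≠ 0 := by
      rw [Nat.cast_ne_zero]; omega
    have ha : (j + 1 / 2 : ℝ) * (1 - W_q L (j + 1) - W_q L j) + a L j = 0 := by
      unfold W_q a
      push_cast
      field_simp
      ring
    apply Complex.ext
    · simp only [W_U, W_z, Complex.sub_re, Complex.add_re, Complex.mul_re, Complex.natCast_re,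
        Complex.natCast_im, Complex.sub_im, Complex.add_im, Complex.conj_re, Complex.conj_im,
        Complex.ofReal_re, Complex.ofReal_im, Complex.I_re, Complex.I_im]
      push_cast
      linarith
    · simp only [W_U, W_z, Complex.sub_re, Complex.add_re, Complex.mul_im, Complex.natCast_re,
        Complex.natCast_im, Complex.sub_im, Complex.add_im, Complex.conj_re, Complex.conj_im,
        Complex.ofReal_re, Complex.ofReal_im, Complex.I_re, Complex.I_im]
      push_cast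
      ring
  rw [← h5]
  ring

/-! ### Estimates -/

/-- the standing assumptions -/
structure W_hyp (L m M : ℕ) (D η : ℝ) : Prop where
  hL : 1 ≤ L
  hD : 1 ≤ D
  hm : 4 * D ^ 2 ≤ m
  hM : W_q L M ≤ 1 / 16
  hη : η ≤ 1 / 6
  hη0 : 0 < η
  h1 : 4 * D * W_q L M ≤ η / 2
  h2 : 2 * D ^ 2 / m ≤ η / 2

theorem W_q_mono {L k k' : ℕ} (h : k ≤ k') : W_q L k ≤ W_q L k' := by
  unfold W_q
  gcongr

theorem W_q_step (L j : ℕ) : W_q L (j + 1) - W_q L j = (2 * j + 1) / (L : ℝ) ^ 2 := by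
  unfold W_q
  push_cast
  ring

variable {L m M : ℕ} {D η : ℝ}

theorem W_hyp.q (h : W_hyp L m M D η) {k : ℕ} (hk : k ≤ M) : W_q L k ≤ 1 / 16 :=
  (W_q_mono hk).trans h.hM

theorem W_hyp.mk4 (h : W_hyp L m M D η) {k : ℕ} (hk : m ≤ k) : 4 * D ^ 2 ≤ k :=
  h.hm.trans (by exact_mod_cast hk)

theorem W_hyp.mk1 (h : W_hyp L m M D η) {k : ℕ} (hk : m ≤ k) : 1 ≤ k := by
  have h1 := h.mk4 hk
  have h2 := h.hD
  have h3 : (1 : ℝ) ≤ k := by nlinarith
  exact_mod_cast h3

theorem W_z_norm {y : ℝ} (hy : |y| ≤ D - 1) : ‖W_z y‖ ≤ D := by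
  have h1 := Complex.norm_le_abs_re_add_abs_im (W_z y)
  simp only [W_z] at h1
  have h2 : |(1 / 2 : ℝ)| = 1 / 2 := abs_of_pos (by norm_num)
  rw [h2] at h1
  unfold W_z
  linarith

theorem W_U_norm {k : ℕ} (hq : W_q L k ≤ 1 / 16) : ‖W_U L k‖ = 1 - W_q L k := by
  have h1 := W_U_mul_conj hq
  rw [Complex.mul_conj, Complex.ofReal_inj, Complex.normSq_eq_norm_sq] at h1
  exact (sq_eq_sq₀ (norm_nonneg _) (by linarith)).1 h1

theorem W_u_norm {k : ℕ} (hq : W_q L k ≤ 1 / 16) : ‖W_u L k‖ = 1 := by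
  unfold W_u
  rw [norm_div, W_U_norm hq, Complex.norm_real, Real.norm_eq_abs,
    abs_of_pos (by linarith), div_self (by linarith)]

theorem W_sub_S {k : ℕ} (hq : W_q L k ≤ 1 / 16) : √3 / 2 - W_S L k ≤ W_q L k := by
  have h1 := W_S_sq hq
  have h2 := W_S_ge hq
  have h3 := W_S_le L k
  have h4 : (√3) ^ 2 = 3 := Real.sq_sqrt (by norm_num)
  have h5 : (√3 / 2 - W_S L k) * (√3 / 2 + W_S L k) = W_q L k := by nlinarith
  nlinarith

theorem W_eps_le (h : W_hyp L m M D η) {j : ℕ} (hj : m ≤ j) (hjM : j < M) {y : ℝ}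
    (hy : |y| ≤ D - 1) : ‖W_eps L y j‖ ≤ η := by
  have hq' := h.q (k := j + 1) hjM
  have hq := h.q hjM.le
  have hj1 := h.mk1 hj
  have hj4 := h.mk4 hj
  have hD := h.hD
  have hjR : (1 : ℝ) ≤ j := by exact_mod_cast hj1
  rw [W_eps_eq hj1 h.hL hq' hq y]
  have hq0 := W_q_nonneg L j
  have hq0' := W_q_nonneg L (j + 1)
  have hmono : W_q L j ≤ W_q L (j + 1) := W_q_mono (Nat.le_succ j)
  -- first term
  have t1 : ‖((y * (W_S L (j + 1) + W_S L j - √3) : ℝ) : ℂ)‖ ≤ (D - 1) * (2 * W_q L (j + 1)) := by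
    rw [Complex.norm_real, Real.norm_eq_abs, abs_mul]
    refine mul_le_mul hy ?_ (abs_nonneg _) (by linarith)
    have e1 := W_sub_S hq
    have e2 := W_sub_S hq'
    have e3 := W_S_le L j
    have e4 := W_S_le L (j + 1)
    rw [abs_le]
    constructor <;> linarith
  -- second term
  have t2 : ‖(((j + 1 / 2) * (W_S L (j + 1) - W_S L j) - y * (W_q L j - W_q L (j + 1)) : ℝ) : ℂ) *
        Complex.I‖ ≤ 2 * W_q L (j + 1) + (D - 1) * W_q L (j + 1) := by
    rw [norm_mul, Complex.norm_I, mul_one, Complex.norm_real, Real.norm_eq_abs]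
    refine (abs_sub _ _).trans (add_le_add ?_ ?_)
    · rw [abs_mul, abs_of_pos (by positivity : (0 : ℝ) < j + 1 / 2)]
      have e1 := W_S_sq hq
      have e2 := W_S_sq hq'
      have e3 := W_S_ge hq
      have e4 := W_S_ge hq'
      have e5 : |W_S L (j + 1) - W_S L j| ≤ W_q L (j + 1) - W_q L j := by
        rw [abs_le]
        constructor <;> nlinarith
      refine (mul_le_mul_of_nonneg_left e5 (by positivity)).trans ?_
      rw [W_q_step]
      unfold W_q
      have hL : (0 : ℝ) < (L : ℝ) ^ 2 := by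
        have : (1 : ℝ) ≤ L := by exact_mod_cast h.hL
        positivity
      rw [mul_div_assoc', mul_div_assoc']
      refine div_le_div_of_nonneg_right ?_ hL.le
      push_cast
      nlinarith
    · rw [abs_mul]
      refine mul_le_mul hy ?_ (abs_nonneg _) (by linarith)
      rw [abs_le]
      constructor <;> linarith
  -- third term
  have t3 : ‖conj (W_U L j) * (W_z y ^ 2 / (j - W_z y))‖ ≤ 2 * D ^ 2 / m := by
    have hz := W_z_norm hy
    have h3 : (j : ℝ) / 2 ≤ ‖(j : ℂ) - W_z y‖ := by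
      have e1 : (j : ℝ) - D ≤ ‖(j : ℂ) - W_z y‖ := by
        have := norm_sub_norm_le (j : ℂ) (W_z y)
        rw [Complex.norm_natCast] at this
        linarith
      nlinarith
    have hmR : (0 : ℝ) < m := by
      have := h.hm
      nlinarith
    have hmj : (m : ℝ) ≤ j := by exact_mod_cast hj
    rw [norm_mul, norm_div, norm_pow, RCLike.norm_conj, W_U_norm hq]
    calc (1 - W_q L j) * (‖W_z y‖ ^ 2 / ‖(j : ℂ) - W_z y‖) ≤ 1 * (D ^ 2 / (j / 2)) := by
          refine mul_le_mul (by linarith) ?_ (by positivity) zero_le_one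
          refine div_le_div₀ (by positivity) (pow_le_pow_left₀ (norm_nonneg _) hz 2)
            (by positivity) h3
      _ = 2 * D ^ 2 / j := by
          field_simp
      _ ≤ 2 * D ^ 2 / m := div_le_div_of_nonneg_left (by positivity) hmR hmj
  have h4 : W_q L (j + 1) ≤ W_q L M := W_q_mono hjM
  have h5 := h.h1
  have h6 := h.h2
  refine (norm_add_le _ _).trans ?_
  refine (add_le_add (norm_add_le _ _) le_rfl).trans ?_
  have h7 : 4 * D * W_q L (j + 1) ≤ 4 * D * W_q L M :=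
    mul_le_mul_of_nonneg_left h4 (by linarith)
  nlinarith

theorem W_rho_norm_le (h : W_hyp L m M D η) {k : ℕ} (hk : m ≤ k) (hkM : k ≤ M) {y : ℝ}
    (hy : |y| ≤ D - 1) : ‖W_rho L y k‖ ≤ 1 := by
  have hk4 := h.mk4 hk
  have hk1 : (1 : ℝ) ≤ k := by exact_mod_cast h.mk1 hk
  have hD := h.hD
  unfold W_rho
  rw [norm_mul, W_u_norm (h.q hkM), one_mul]
  have h1 : ‖1 - W_z y / k‖ ^ 2 ≤ 1 := by
    rw [← Complex.normSq_eq_norm_sq, Complex.normSq_apply]
    have e1 : (1 - W_z y / k).re = 1 - 1 / (2 * k) := by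
      rw [Complex.sub_re, Complex.one_re, Complex.div_natCast_re]
      simp only [W_z]
      field_simp
    have e2 : (1 - W_z y / k).im = - (y / k) := by
      rw [Complex.sub_im, Complex.one_im, Complex.div_natCast_im]
      simp only [W_z]
      ring
    rw [e1, e2]
    have hy2 : y ^ 2 ≤ (D - 1) ^ 2 := by
      rw [← sq_abs y]
      exact pow_le_pow_left₀ (abs_nonneg _) hy 2
    have e3 : (1 - 1 / (2 * (k : ℝ))) * (1 - 1 / (2 * k)) + -(y / k) * -(y / k) =
        1 - (k - 1 / 4 - y ^ 2) / k ^ 2 := by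
      field_simp
      ring
    rw [e3]
    have : 0 ≤ (k - 1 / 4 - y ^ 2) / (k : ℝ) ^ 2 := by
      refine div_nonneg ?_ (by positivity)
      nlinarith
    linarith
  have h2 : ‖1 - W_z y / k‖ ^ 2 ≤ 1 ^ 2 := by simpa using h1
  exact le_of_sq_le_sq h2 zero_le_one |>.trans le_rfl

theorem W_rho_im (h : W_hyp L m M D η) {k : ℕ} (hk : m ≤ k) (hkM : k ≤ M) {y : ℝ}
    (hy : |y| ≤ D - 1) : 1 / 2 ≤ (W_rho L y k).im := by
  have hk4 := h.mk4 hk
  have hk1 : (1 : ℝ) ≤ k := by exact_mod_cast h.mk1 hk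
  have hD := h.hD
  have hq := h.q hkM
  have hq0 := W_q_nonneg L k
  have e1 : W_rho L y k = W_u L k - W_u L k * (W_z y / k) := by
    unfold W_rho; ring
  have e2 : |(W_u L k * (W_z y / k)).im| ≤ 1 / 4 := by
    refine (Complex.abs_im_le_norm _).trans ?_
    rw [norm_mul, W_u_norm hq, one_mul, norm_div, Complex.norm_natCast,
      div_le_iff₀ (by linarith)]
    have := W_z_norm hy
    nlinarith
  have e3 : (W_u L k).im = W_S L k / (1 - W_q L k) := by
    unfold W_u
    rw [Complex.div_ofReal_im]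
    rfl
  have e4 : 4 / 5 ≤ (W_u L k).im := by
    rw [e3, le_div_iff₀ (by linarith)]
    have := W_S_ge hq
    nlinarith
  rw [e1, Complex.sub_im]
  have := (abs_le.1 e2).2
  linarith

theorem W_b_ge (h : W_hyp L m M D η) {k : ℕ} (hkM : k ≤ M) : 3 / 4 * (k : ℝ) ≤ b L k := by
  rw [W_b_eq]
  have := h.q hkM
  have hk0 : (0 : ℝ) ≤ k := Nat.cast_nonneg k
  nlinarith

/-! ### The complex Wronskian -/

/-- the truncated solution -/
def W_v (L m : ℕ) (y : ℝ) (i : ℕ) : ℝ := tr L m (√3 * y) i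

/-- normalised Wronskian of the truncated and the approximate solution -/
def W_w (L m : ℕ) (y : ℝ) (i : ℕ) : ℂ :=
  (b L (m + i) : ℂ) * W_rho L y (m + i) *
    ((W_v L m y (i + 1) : ℂ) - conj (W_rho L y (m + i)) * (W_v L m y i : ℂ))

theorem W_w_zero (L m : ℕ) (y : ℝ) : W_w L m y 0 = (b L m : ℂ) * W_rho L y m := by
  simp [W_w, W_v, tr]

theorem W_w_im (L m : ℕ) (y : ℝ) (i : ℕ) :
    (W_w L m y i).im = b L (m + i) * (W_rho L y (m + i)).im * W_v L m y (i + 1) := by
  have h1 : W_w L m y i = (b L (m + i) : ℂ) * W_rho L y (m + i) * (W_v L m y (i + 1) : ℂ) -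
      ((b L (m + i) * Complex.normSq (W_rho L y (m + i)) * W_v L m y i : ℝ) : ℂ) := by
    push_cast
    rw [← Complex.mul_conj]
    unfold W_w
    ring
  rw [h1, Complex.sub_im, Complex.ofReal_im, sub_zero, Complex.im_mul_ofReal,
    Complex.im_ofReal_mul]

theorem W_tr_rec (h : W_hyp L m M D η) (y : ℝ) {i : ℕ} (hi : m + i < M) :
    b L (m + i + 1) * W_v L m y (i + 2) =
      (√3 * y - a L (m + i)) * W_v L m y (i + 1) - b L (m + i) * W_v L m y i := by
  have h1 := W_b_ge h (k := m + i + 1) hi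
  have h2 : (0 : ℝ) < ((m + i + 1 : ℕ) : ℝ) := by positivity
  have h3 : b L (m + i + 1) ≠ 0 := by
    have : 0 < b L (m + i + 1) := by linarith
    exact this.ne'
  unfold W_v
  rw [tr]
  field_simp

theorem W_w_succ (h : W_hyp L m M D η) (y : ℝ) {i : ℕ} (hi : m + i < M) :
    (Complex.normSq (W_rho L y (m + i)) : ℂ) * W_w L m y (i + 1) =
      W_rho L y (m + i + 1) * (W_w L m y i - conj (W_eps L y (m + i)) *
        (Complex.normSq (W_rho L y (m + i)) : ℂ) * (W_v L m y (i + 1) : ℂ)) := by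
  have hr := W_rho_ne (h.mk1 (k := m + i) (by omega)) (h.q hi.le) y
  have hrec := congrArg (fun x : ℝ => (x : ℂ)) (W_tr_rec h y hi)
  push_cast at hrec
  have heps : conj (W_eps L y (m + i)) = (b L (m + i + 1) : ℂ) * conj (W_rho L y (m + i + 1)) +
      (b L (m + i) : ℂ) / conj (W_rho L y (m + i)) + (a L (m + i) : ℂ) - √3 * y := by
    unfold W_eps
    simp only [map_sub, map_add, map_mul, map_div₀, Complex.conj_ofReal]
    rw [Complex.ofReal_mul]
  have hrc : conj (W_rho L y (m + i)) ≠ 0 := (map_ne_zero _).2 hr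
  rw [heps]
  have hw1 : W_w L m y (i + 1) = W_rho L y (m + i + 1) * ((b L (m + i + 1) : ℂ) *
      (W_v L m y (i + 2) : ℂ) - (b L (m + i + 1) : ℂ) * conj (W_rho L y (m + i + 1)) *
      (W_v L m y (i + 1) : ℂ)) := by
    unfold W_w
    rw [show m + (i + 1) = m + i + 1 by ring, show i + 1 + 1 = i + 2 by ring]
    ring
  rw [hw1, hrec, ← Complex.mul_conj]
  unfold W_w
  field_simp
  ring

/-- the ratio -/
def W_r (L m : ℕ) (y : ℝ) (i : ℕ) : ℂ :=
  W_w L m y (i + 1) * (Complex.normSq (W_rho L y (m + i)) : ℂ) /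
    (W_rho L y (m + i + 1) * W_w L m y i)

theorem W_r_bound (h : W_hyp L m M D η) {y : ℝ} (hy : |y| ≤ D - 1) {i : ℕ} (hi : m + i < M)
    (hw : W_w L m y i ≠ 0) : ‖W_r L m y i - 1‖ ≤ 3 * η / ((m + i : ℕ) : ℝ) := by
  have hr := W_rho_ne (h.mk1 (k := m + i) (by omega)) (h.q hi.le) y
  have hr' := W_rho_ne (h.mk1 (k := m + i + 1) (by omega)) (h.q (k := m + i + 1) hi) y
  have e1 : W_r L m y i - 1 = - (conj (W_eps L y (m + i)) *
      (Complex.normSq (W_rho L y (m + i)) : ℂ) * ((W_v L m y (i + 1) : ℂ) / W_w L m y i)) := by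
    unfold W_r
    rw [mul_comm (W_w L m y (i + 1)), W_w_succ h y hi]
    field_simp
    ring
  have hj : (1 : ℝ) ≤ ((m + i : ℕ) : ℝ) := by exact_mod_cast h.mk1 (k := m + i) (by omega)
  have hb := W_b_ge h (k := m + i) hi.le
  have him := W_rho_im h (k := m + i) (by omega) hi.le hy
  have hnw : 0 < ‖W_w L m y i‖ := norm_pos_iff.2 hw
  -- the quotient
  have e2 : ‖(W_v L m y (i + 1) : ℂ) / W_w L m y i‖ ≤ 8 / 3 / ((m + i : ℕ) : ℝ) := by
    rw [norm_div, Complex.norm_real, Real.norm_eq_abs, div_le_iff₀ hnw]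
    have e3 := (Complex.abs_im_le_norm (W_w L m y i))
    have hbp : 0 < b L (m + i) * (W_rho L y (m + i)).im :=
      mul_pos (by linarith) (by linarith)
    rw [W_w_im, abs_mul, abs_of_pos hbp] at e3
    have e4 : 3 / 8 * ((m + i : ℕ) : ℝ) * |W_v L m y (i + 1)| ≤ ‖W_w L m y i‖ := by
      refine le_trans (mul_le_mul_of_nonneg_right ?_ (abs_nonneg _)) e3
      nlinarith
    rw [div_mul_eq_mul_div, le_div_iff₀ (by linarith)]
    nlinarith
  have e3 := W_eps_le h (j := m + i) (by omega) hi hy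
  have e4 : ‖(Complex.normSq (W_rho L y (m + i)) : ℂ)‖ ≤ 1 := by
    rw [Complex.norm_real, Real.norm_eq_abs, abs_of_nonneg (Complex.normSq_nonneg _),
      Complex.normSq_eq_norm_sq]
    exact pow_le_one₀ (norm_nonneg _) (W_rho_norm_le h (by omega) hi.le hy)
  rw [e1, norm_neg, norm_mul, norm_mul, RCLike.norm_conj]
  calc ‖W_eps L y (m + i)‖ * ‖(Complex.normSq (W_rho L y (m + i)) : ℂ)‖ *
      ‖(W_v L m y (i + 1) : ℂ) / W_w L m y i‖ ≤ η * 1 * (8 / 3 / ((m + i : ℕ) : ℝ)) := by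
        refine mul_le_mul (mul_le_mul e3 e4 (norm_nonneg _) h.hη0.le) e2 (norm_nonneg _) ?_
        have := h.hη0
        positivity
    _ ≤ 3 * η / ((m + i : ℕ) : ℝ) := by
        rw [mul_one, mul_div_assoc']
        refine div_le_div_of_nonneg_right ?_ (by linarith)
        have := h.hη0
        linarith

theorem W_r_half (h : W_hyp L m M D η) {y : ℝ} (hy : |y| ≤ D - 1) {i : ℕ} (hi : m + i < M)
    (hw : W_w L m y i ≠ 0) : ‖W_r L m y i - 1‖ ≤ 1 / 2 := by
  refine (W_r_bound h hy hi hw).trans ?_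
  have hj : (1 : ℝ) ≤ ((m + i : ℕ) : ℝ) := by exact_mod_cast h.mk1 (k := m + i) (by omega)
  have h1 := h.hη
  rw [div_le_iff₀ (by linarith)]
  linarith

theorem W_r_re {r : ℂ} (h : ‖r - 1‖ ≤ 1 / 2) : 1 / 2 ≤ r.re := by
  have h1 := (Complex.abs_re_le_norm (r - 1)).trans h
  rw [Complex.sub_re, Complex.one_re] at h1
  have := (abs_le.1 h1).1
  linarith

theorem W_w_ne (h : W_hyp L m M D η) {y : ℝ} (hy : |y| ≤ D - 1) :
    ∀ i : ℕ, m + i ≤ M → W_w L m y i ≠ 0 := by
  intro i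
  induction i with
  | zero =>
    intro hi
    rw [W_w_zero]
    have hb := W_b_ge h (k := m) (by omega)
    have hm : (1 : ℝ) ≤ (m : ℝ) := by exact_mod_cast h.mk1 le_rfl
    have hb0 : (0 : ℝ) < b L m := by linarith
    exact mul_ne_zero (Complex.ofReal_ne_zero.2 hb0.ne')
      (W_rho_ne (h.mk1 le_rfl) (h.q (by omega)) y)
  | succ i ih =>
    intro hi hz
    have hw := ih (by omega)
    have h1 := W_r_re (W_r_half h hy (i := i) (by omega) hw)
    have h2 : W_r L m y i = 0 := by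
      unfold W_r
      rw [hz, zero_mul, zero_div]
    rw [h2, Complex.zero_re] at h1
    linarith

/-- the phase -/
def W_Th (L m : ℕ) (y : ℝ) (i : ℕ) : ℝ :=
  ∑ k ∈ range (i + 1), (W_rho L y (m + k)).arg + ∑ k ∈ range i, (W_r L m y k).arg

theorem W_polar (h : W_hyp L m M D η) {y : ℝ} (hy : |y| ≤ D - 1) :
    ∀ i : ℕ, m + i ≤ M → W_w L m y i = ‖W_w L m y i‖ * Complex.exp (W_Th L m y i * Complex.I) := by
  intro i
  induction i with
  | zero =>
    intro hi
    rw [W_w_zero]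
    have hb := W_b_ge h (k := m) (by omega)
    have hm : (1 : ℝ) ≤ (m : ℝ) := by exact_mod_cast h.mk1 le_rfl
    have hb0 : (0 : ℝ) < b L m := by linarith
    have e1 : W_Th L m y 0 = (W_rho L y m).arg := by simp [W_Th]
    rw [e1, norm_mul, Complex.norm_real, Real.norm_eq_abs, abs_of_pos hb0]
    push_cast
    rw [mul_assoc, Complex.norm_mul_exp_arg_mul_I]
  | succ i ih =>
    intro hi
    have ih' := ih (by omega)
    have hw := W_w_ne h hy i (by omega)
    have hr := W_rho_ne (h.mk1 (k := m + i) (by omega)) (h.q (k := m + i) (by omega)) y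
    have hr' := W_rho_ne (h.mk1 (k := m + i + 1) (by omega)) (h.q (k := m + i + 1) hi) y
    have hn : Complex.normSq (W_rho L y (m + i)) ≠ 0 := by
      rwa [Ne, Complex.normSq_eq_zero]
    have hn0 : 0 < Complex.normSq (W_rho L y (m + i)) := Complex.normSq_pos.2 hr
    have e1 : W_w L m y (i + 1) * (Complex.normSq (W_rho L y (m + i)) : ℂ) =
        W_rho L y (m + i + 1) * W_w L m y i * W_r L m y i := by
      unfold W_r
      field_simp
    have e2 : ‖W_w L m y (i + 1)‖ * Complex.normSq (W_rho L y (m + i)) =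
        ‖W_rho L y (m + i + 1)‖ * ‖W_w L m y i‖ * ‖W_r L m y i‖ := by
      have := congrArg norm e1
      rwa [norm_mul, norm_mul, norm_mul, Complex.norm_real, Real.norm_eq_abs,
        abs_of_pos hn0] at this
    have e3 : W_Th L m y (i + 1) = (W_rho L y (m + i + 1)).arg + W_Th L m y i +
        (W_r L m y i).arg := by
      unfold W_Th
      rw [sum_range_succ (fun k => (W_rho L y (m + k)).arg) (i + 1),
        sum_range_succ (fun k => (W_r L m y k).arg) i]
      rw [show m + (i + 1) = m + i + 1 by ring]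
      ring
    have hnc : (Complex.normSq (W_rho L y (m + i)) : ℂ) ≠ 0 := Complex.ofReal_ne_zero.2 hn
    apply mul_right_cancel₀ hnc
    rw [e1]
    have e4 : (‖W_w L m y (i + 1)‖ : ℂ) * Complex.exp (W_Th L m y (i + 1) * Complex.I) *
        (Complex.normSq (W_rho L y (m + i)) : ℂ) =
        ((‖W_w L m y (i + 1)‖ * Complex.normSq (W_rho L y (m + i)) : ℝ) : ℂ) *
          Complex.exp (W_Th L m y (i + 1) * Complex.I) := by
      push_cast
      ring
    rw [e4, e2, e3]
    push_cast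
    rw [add_mul, add_mul, Complex.exp_add, Complex.exp_add]
    have e5 := Complex.norm_mul_exp_arg_mul_I (W_rho L y (m + i + 1))
    have e6 := Complex.norm_mul_exp_arg_mul_I (W_r L m y i)
    calc W_rho L y (m + i + 1) * W_w L m y i * W_r L m y i
        = (‖W_rho L y (m + i + 1)‖ * Complex.exp ((W_rho L y (m + i + 1)).arg * Complex.I)) *
          (‖W_w L m y i‖ * Complex.exp (W_Th L m y i * Complex.I)) *
          (‖W_r L m y i‖ * Complex.exp ((W_r L m y i).arg * Complex.I)) := by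
          rw [e5, e6, ← ih']
      _ = _ := by ring

theorem W_zero (h : W_hyp L m M D η) {y : ℝ} (hy : |y| ≤ D - 1) {i : ℕ} (hi : m + i ≤ M)
    (q : ℤ) (hq : W_Th L m y i = q * Real.pi) : tr L m (√3 * y) (i + 1) = 0 := by
  have h1 := W_polar h hy i hi
  have h2 : (W_w L m y i).im = 0 := by
    rw [h1, hq]
    have e1 : Complex.exp (((q * Real.pi : ℝ) : ℂ) * Complex.I) =
        ((Real.cos (q * Real.pi) : ℝ) : ℂ) := by
      rw [Complex.exp_mul_I, ← Complex.ofReal_cos, ← Complex.ofReal_sin, Real.sin_int_mul_pi]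
      simp
    rw [e1, ← Complex.ofReal_mul, Complex.ofReal_im]
  rw [W_w_im] at h2
  have hb := W_b_ge h (k := m + i) hi
  have hj : (1 : ℝ) ≤ ((m + i : ℕ) : ℝ) := by exact_mod_cast h.mk1 (k := m + i) (by omega)
  have him := W_rho_im h (k := m + i) (by omega) hi hy
  have h3 : 0 < b L (m + i) * (W_rho L y (m + i)).im := by
    have : 0 < b L (m + i) := by linarith
    positivity
  exact (mul_eq_zero.1 h2).resolve_left h3.ne'

/-! ### Continuity in `y` -/

theorem W_z_cont : Continuous W_z := by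
  have : W_z = fun y : ℝ => ((1 / 2 : ℝ) : ℂ) + (y : ℂ) * Complex.I := by
    funext y
    apply Complex.ext <;> simp [W_z]
  rw [this]
  fun_prop

theorem W_rho_cont (L k : ℕ) : Continuous fun y => W_rho L y k := by
  unfold W_rho
  have := W_z_cont
  fun_prop

theorem W_v_cont (L m : ℕ) : ∀ i : ℕ, Continuous (fun y => W_v L m y i) ∧
    Continuous (fun y => W_v L m y (i + 1)) := by
  intro i
  induction i with
  | zero =>
    unfold W_v
    simp only [tr]
    exact ⟨continuous_const, continuous_const⟩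
  | succ i ih =>
    refine ⟨ih.2, ?_⟩
    have h1 := ih.1
    have h2 := ih.2
    have h3 : (fun y => W_v L m y (i + 1 + 1)) = fun y => ((√3 * y - a L (m + i)) *
        W_v L m y (i + 1) - b L (m + i) * W_v L m y i) / b L (m + i + 1) := by
      funext y
      unfold W_v
      rw [tr]
    rw [h3]
    fun_prop

theorem W_w_cont (L m i : ℕ) : Continuous fun y => W_w L m y i := by
  unfold W_w
  have h1 := (W_v_cont L m i).1
  have h2 := (W_v_cont L m i).2
  have h3 := W_rho_cont L (m + i)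
  have h4 : Continuous fun y => conj (W_rho L y (m + i)) := Complex.continuous_conj.comp h3
  have h5 : Continuous fun y => (W_v L m y (i + 1) : ℂ) := Complex.continuous_ofReal.comp h2
  have h6 : Continuous fun y => (W_v L m y i : ℂ) := Complex.continuous_ofReal.comp h1
  exact (continuous_const.mul h3).mul (h5.sub (h4.mul h6))

theorem W_Th_cont (h : W_hyp L m M D η) {i : ℕ} (hi : m + i ≤ M) :
    ContinuousOn (fun y => W_Th L m y i) {y | |y| ≤ D - 1} := by
  unfold W_Th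
  refine ContinuousOn.add ?_ ?_
  · refine continuousOn_finsetSum _ fun k hk => ?_
    rw [mem_range] at hk
    intro y hy
    have him := W_rho_im h (k := m + k) (by omega) (by omega) hy
    have hs : W_rho L y (m + k) ∈ Complex.slitPlane := Or.inr (by linarith)
    exact (ContinuousAt.comp (f := fun y => W_rho L y (m + k)) (Complex.continuousAt_arg hs)
      (W_rho_cont L (m + k)).continuousAt).continuousWithinAt
  · refine continuousOn_finsetSum _ fun k hk => ?_
    rw [mem_range] at hk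
    intro y hy
    have hw := W_w_ne h hy k (by omega)
    have hr' := W_rho_ne (h.mk1 (k := m + k + 1) (by omega))
      (h.q (k := m + k + 1) (by omega)) y
    have hre := W_r_re (W_r_half h hy (i := k) (by omega) hw)
    have hs : W_r L m y k ∈ Complex.slitPlane := Or.inl (by linarith)
    have hc : ContinuousAt (fun y => W_r L m y k) y := by
      unfold W_r
      have h1 : Continuous fun y => (Complex.normSq (W_rho L y (m + k)) : ℂ) :=
        Complex.continuous_ofReal.comp (Complex.continuous_normSq.comp (W_rho_cont L (m + k)))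
      exact ((W_w_cont L m (k + 1)).mul h1).continuousAt.div
        ((W_rho_cont L (m + k + 1)).mul (W_w_cont L m k)).continuousAt (mul_ne_zero hr' hw)
    exact (ContinuousAt.comp (f := fun y => W_r L m y k) (Complex.continuousAt_arg hs)
      hc).continuousWithinAt

/-! ### Variation of the phase -/

theorem W_arg {z : ℂ} (hz : 0 < z.re) : z.arg = Real.arctan (z.im / z.re) := by
  have h1 : |z.arg| < Real.pi / 2 := Complex.abs_arg_lt_pi_div_two_iff.2 (Or.inl hz)
  rw [← Complex.tan_arg, Real.arctan_tan (abs_lt.1 h1).1 (abs_lt.1 h1).2]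

theorem W_arctan_le {A x y : ℝ} (hx : -A ≤ x) (hxy : x ≤ y) (hy : y ≤ A) :
    1 / (1 + A ^ 2) * (y - x) ≤ Real.arctan y - Real.arctan x := by
  have hA : 0 ≤ A := by linarith
  refine Convex.mul_sub_le_image_sub_of_le_deriv (convex_Icc (-A) A)
    Real.continuous_arctan.continuousOn Real.differentiable_arctan.differentiableOn
    (fun t ht => ?_) x ⟨hx, hxy.trans hy⟩ y ⟨hx.trans hxy, hy⟩ hxy
  rw [interior_Icc] at ht
  rw [Real.deriv_arctan]
  refine one_div_le_one_div_of_le (by positivity) ?_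
  nlinarith [ht.1, ht.2]

theorem W_arg_r (h : W_hyp L m M D η) {y : ℝ} (hy : |y| ≤ D - 1) {i : ℕ} (hi : m + i < M) :
    |(W_r L m y i).arg| ≤ 6 * η / ((m + i : ℕ) : ℝ) := by
  have hw := W_w_ne h hy i (by omega)
  have h1 := W_r_bound h hy hi hw
  have h2 := W_r_re (W_r_half h hy hi hw)
  rw [W_arg (by linarith)]
  have h0 : ∀ t : ℝ, 0 ≤ t → Real.arctan t ≤ t := by
    intro t ht
    have h4 := Real.le_tan (Real.arctan_nonneg.2 ht) (Real.arctan_lt_pi_div_two t)
    rwa [Real.tan_arctan] at h4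
  have h3 : ∀ t : ℝ, |Real.arctan t| ≤ |t| := by
    intro t
    rcases le_total 0 t with ht | ht
    · rw [abs_of_nonneg ht, abs_of_nonneg (Real.arctan_nonneg.2 ht)]
      exact h0 t ht
    · have h4 := h0 (-t) (by linarith)
      rw [Real.arctan_neg] at h4
      rw [abs_of_nonpos ht, abs_of_nonpos]
      · exact h4
      · have := Real.arctan_nonneg.2 (show 0 ≤ -t by linarith)
        rw [Real.arctan_neg] at this
        linarith
  refine (h3 _).trans ?_
  have h4 : |(W_r L m y i).im| ≤ 3 * η / ((m + i : ℕ) : ℝ) := by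
    have h5 := (Complex.abs_im_le_norm (W_r L m y i - 1)).trans h1
    rwa [Complex.sub_im, Complex.one_im, sub_zero] at h5
  rw [abs_div, abs_of_pos (by linarith : 0 < (W_r L m y i).re), div_le_iff₀ (by linarith)]
  have h5 : 0 ≤ 3 * η / ((m + i : ℕ) : ℝ) := (abs_nonneg _).trans h4
  have h6 : 6 * η / ((m + i : ℕ) : ℝ) = 2 * (3 * η / ((m + i : ℕ) : ℝ)) := by ring
  rw [h6]
  nlinarith

theorem W_arg_rho (h : W_hyp L m M D η) {y : ℝ} {k : ℕ} (hk : m ≤ k)
    (hkM : k ≤ M) : (W_rho L y k).arg = (W_u L k).arg - Real.arctan (y / (k - 1 / 2)) := by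
  have hq := h.q hkM
  have hq0 := W_q_nonneg L k
  have hk1 : (1 : ℝ) ≤ k := by exact_mod_cast h.mk1 hk
  have hu : 0 < (W_u L k).re := by
    unfold W_u
    rw [Complex.div_ofReal_re]
    simp only [W_U]
    exact div_pos (by linarith) (by linarith)
  have e1 : (1 - W_z y / k).re = (k - 1 / 2) / k := by
    rw [Complex.sub_re, Complex.one_re, Complex.div_natCast_re]
    simp only [W_z]
    field_simp
  have e2 : (1 - W_z y / k).im = - (y / k) := by
    rw [Complex.sub_im, Complex.one_im, Complex.div_natCast_im]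
    simp only [W_z]
    ring
  have hz : 0 < (1 - W_z y / k).re := by
    rw [e1]
    exact div_pos (by linarith) (by linarith)
  have h1 := abs_lt.1 (Complex.abs_arg_lt_pi_div_two_iff.2 (Or.inl hu))
  have h2 := abs_lt.1 (Complex.abs_arg_lt_pi_div_two_iff.2 (Or.inl hz))
  have h3 : (1 - W_z y / k).arg = - Real.arctan (y / (k - 1 / 2)) := by
    rw [W_arg hz, e1, e2, ← Real.arctan_neg]
    congr 1
    field_simp
  have hu0 : W_u L k ≠ 0 := by
    intro h0
    rw [h0, Complex.zero_re] at hu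
    exact lt_irrefl _ hu
  have hz0 : 1 - W_z y / k ≠ 0 := by
    intro h0
    rw [h0, Complex.zero_re] at hz
    exact lt_irrefl _ hz
  unfold W_rho
  rw [(Complex.arg_mul_eq_add_arg_iff hu0 hz0).2 ⟨by linarith [h1.1, h2.1], by
    linarith [h1.2, h2.2]⟩, h3]
  ring

theorem W_var (h : W_hyp L m M D η) {y1 y2 : ℝ} (hy : y1 ≤ y2) (hy1 : |y1| ≤ D - 1)
    (hy2 : |y2| ≤ D - 1) {δ : ℝ} (hδ : 1 / (m : ℝ) ≤ δ) {n : ℕ} (hn : m + n ≤ M) :
    ((y2 - y1) * (1 - δ) - 12 * η) * ∑ k ∈ range (n + 1), 1 / ((m + k : ℕ) : ℝ) ≤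
      W_Th L m y1 n - W_Th L m y2 n := by
  have hm4 := h.hm
  have hD := h.hD
  have hη := h.hη0
  have h1 : ∀ k ∈ range (n + 1), (y2 - y1) * (1 - δ) * (1 / ((m + k : ℕ) : ℝ)) ≤
      (W_rho L y1 (m + k)).arg - (W_rho L y2 (m + k)).arg := by
    intro k hk
    rw [mem_range] at hk
    rw [W_arg_rho h (by omega) (by omega), W_arg_rho h (by omega) (by omega)]
    have hj : 4 * D ^ 2 ≤ ((m + k : ℕ) : ℝ) := h.mk4 (by omega)
    have hmj : (m : ℝ) ≤ ((m + k : ℕ) : ℝ) := by exact_mod_cast (by omega : m ≤ m + k)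
    set j : ℝ := ((m + k : ℕ) : ℝ) with hjdef
    have hj4 : 4 ≤ j := by nlinarith
    have hκ : 0 < j - 1 / 2 := by linarith
    have hm0 : (0 : ℝ) < m := by nlinarith
    have h2 := W_arctan_le (A := D / (j - 1 / 2)) (x := y1 / (j - 1 / 2))
      (y := y2 / (j - 1 / 2)) (by
        rw [← neg_div]
        exact div_le_div_of_nonneg_right (by linarith [(abs_le.1 hy1).1]) hκ.le)
      (div_le_div_of_nonneg_right hy hκ.le)
      (div_le_div_of_nonneg_right (by linarith [(abs_le.1 hy2).2]) hκ.le)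
    have h3 : (y2 - y1) * (1 - δ) * (1 / j) ≤
        1 / (1 + (D / (j - 1 / 2)) ^ 2) * (y2 / (j - 1 / 2) - y1 / (j - 1 / 2)) := by
      have h4 : 1 / (1 + (D / (j - 1 / 2)) ^ 2) * (y2 / (j - 1 / 2) - y1 / (j - 1 / 2)) =
          (y2 - y1) * (1 / ((j - 1 / 2) * (1 + (D / (j - 1 / 2)) ^ 2))) := by
        field_simp
      rw [h4, mul_assoc]
      refine mul_le_mul_of_nonneg_left ?_ (by linarith)
      have h5 : (D / (j - 1 / 2)) ^ 2 ≤ 1 / m := by
        rw [div_pow, div_le_div_iff₀ (by positivity) hm0]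
        nlinarith
      have h6 : 0 < 1 + (D / (j - 1 / 2)) ^ 2 := by positivity
      rw [mul_one_div, div_le_div_iff₀ (by linarith) (by positivity)]
      rcases le_total δ 1 with hδ1 | hδ1
      · have h7 : (1 - δ) * (1 + (D / (j - 1 / 2)) ^ 2) ≤ 1 := by nlinarith
        have h8 : 0 ≤ (1 - δ) * (1 + (D / (j - 1 / 2)) ^ 2) := by
          refine mul_nonneg (by linarith) h6.le
        nlinarith
      · have h7 : (1 - δ) * ((j - 1 / 2) * (1 + (D / (j - 1 / 2)) ^ 2)) ≤ 0 :=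
          mul_nonpos_of_nonpos_of_nonneg (by linarith) (by positivity)
        linarith
    linarith
  have h2 : ∀ k ∈ range n, -(12 * η) * (1 / ((m + k : ℕ) : ℝ)) ≤
      (W_r L m y1 k).arg - (W_r L m y2 k).arg := by
    intro k hk
    rw [mem_range] at hk
    have e1 := abs_le.1 (W_arg_r h hy1 (i := k) (by omega))
    have e2 := abs_le.1 (W_arg_r h hy2 (i := k) (by omega))
    have e3 : -(12 * η) * (1 / ((m + k : ℕ) : ℝ)) = -(6 * η / ((m + k : ℕ) : ℝ)) -
        6 * η / ((m + k : ℕ) : ℝ) := by ring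
    rw [e3]
    linarith [e1.1, e2.2]
  have h3 := sum_le_sum h1
  have h4 := sum_le_sum h2
  rw [← mul_sum, sum_sub_distrib] at h3 h4
  have h5 : ∑ k ∈ range n, 1 / ((m + k : ℕ) : ℝ) ≤
      ∑ k ∈ range (n + 1), 1 / ((m + k : ℕ) : ℝ) := by
    rw [sum_range_succ]
    have : 0 ≤ 1 / ((m + n : ℕ) : ℝ) := by positivity
    linarith
  unfold W_Th
  nlinarith

theorem W_harm (m : ℕ) (hm : 1 ≤ m) (n : ℕ) :
    Real.log (((m + n : ℕ) : ℝ) / m) ≤ ∑ k ∈ range n, 1 / ((m + k : ℕ) : ℝ) := by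
  have hm0 : (0 : ℝ) < m := by exact_mod_cast hm
  induction n with
  | zero => simp [div_self hm0.ne']
  | succ n ih =>
    rw [sum_range_succ]
    have hn0 : (0 : ℝ) < ((m + n : ℕ) : ℝ) := by exact_mod_cast (by omega : 0 < m + n)
    have h1 : (((m + (n + 1) : ℕ) : ℝ) / m) = (((m + n : ℕ) : ℝ) / m) *
        (1 + 1 / ((m + n : ℕ) : ℝ)) := by
      push_cast at hn0 ⊢
      field_simp
      ring
    rw [h1, Real.log_mul (by positivity) (by positivity)]
    have h2 := Real.log_le_sub_one_of_pos (show 0 < 1 + 1 / ((m + n : ℕ) : ℝ) by positivity)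
    linarith

theorem W_count (h : W_hyp L m M D η) {y1 y2 : ℝ} (hy : y1 ≤ y2) (hy1 : |y1| ≤ D - 1)
    (hy2 : |y2| ≤ D - 1) {n : ℕ} (hn : m + n ≤ M) : ∃ S : Finset ℝ,
      (∀ y ∈ S, y1 ≤ y ∧ y ≤ y2 ∧ tr L m (√3 * y) (n + 1) = 0) ∧
      (W_Th L m y1 n - W_Th L m y2 n) / Real.pi - 1 ≤ (S.card : ℝ) := by
  classical
  have hsub : Set.Icc y1 y2 ⊆ {y | |y| ≤ D - 1} := by
    intro y hy'
    rw [Set.mem_ofPred_eq, abs_le]
    exact ⟨(abs_le.1 hy1).1.trans hy'.1, hy'.2.trans (abs_le.1 hy2).2⟩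
  have hcont := (W_Th_cont h hn).mono hsub
  have hivt := intermediate_value_Icc' hy hcont
  have hex : ∀ q : ℤ, q ∈ Finset.Icc ⌈W_Th L m y2 n / Real.pi⌉ ⌊W_Th L m y1 n / Real.pi⌋ →
      ∃ y ∈ Set.Icc y1 y2, W_Th L m y n = q * Real.pi := by
    intro q hq
    rw [Finset.mem_Icc, Int.ceil_le, Int.le_floor] at hq
    obtain ⟨y, hy', hyq⟩ := hivt (show (q : ℝ) * Real.pi ∈ Set.Icc _ _ from by
      constructor
      · have := hq.1
        rwa [div_le_iff₀ Real.pi_pos] at this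
      · have := hq.2
        rwa [le_div_iff₀ Real.pi_pos] at this)
    exact ⟨y, hy', hyq⟩
  choose! Y hY1 hY2 using hex
  refine ⟨(Finset.Icc ⌈W_Th L m y2 n / Real.pi⌉ ⌊W_Th L m y1 n / Real.pi⌋).image Y, ?_, ?_⟩
  · intro y hy'
    rw [Finset.mem_image] at hy'
    obtain ⟨q, hq, rfl⟩ := hy'
    have h1 := hY1 q hq
    exact ⟨h1.1, h1.2, W_zero h (hsub h1) hn q (hY2 q hq)⟩
  · rw [Finset.card_image_of_injOn, Int.card_Icc]
    · have h1 := Int.lt_floor_add_one (W_Th L m y1 n / Real.pi)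
      have h2 := Int.ceil_lt_add_one (W_Th L m y2 n / Real.pi)
      have h3 : ((⌊W_Th L m y1 n / Real.pi⌋ + 1 - ⌈W_Th L m y2 n / Real.pi⌉ : ℤ) : ℝ) ≤
          (((⌊W_Th L m y1 n / Real.pi⌋ + 1 - ⌈W_Th L m y2 n / Real.pi⌉).toNat : ℕ) : ℝ) := by
        exact_mod_cast Int.self_le_toNat _
      refine le_trans ?_ h3
      push_cast
      rw [sub_div]
      linarith
    · intro q hq q' hq' heq
      have e1 := hY2 q hq
      have e2 := hY2 q' hq'
      rw [heq] at e1
      rw [e1] at e2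
      have := mul_right_cancel₀ Real.pi_ne_zero e2
      exact_mod_cast this

theorem wkb (y1 y2 δ : ℝ) (hy : y1 < y2) (hδ : 0 < δ) : ∃ L0 : ℕ, ∀ L : ℕ, L0 ≤ L →
    ∃ m n : ℕ, 1 ≤ m ∧ 1 ≤ n ∧ m + n < L ∧ ∃ S : Finset ℝ,
      (∀ y ∈ S, y1 ≤ y ∧ y ≤ y2 ∧ tr L m (√3 * y) (n + 1) = 0) ∧
      (y2 - y1) / Real.pi * (1 - δ) * Real.log L ≤ (S.card : ℝ) := by
  set d : ℝ := min δ 1 with hd
  have hd0 : 0 < d := lt_min hδ one_pos
  have hd1 : d ≤ 1 := min_le_right _ _
  have hdδ : d ≤ δ := min_le_left _ _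
  set D : ℝ := 1 + max |y1| |y2| with hD
  have hD1 : 1 ≤ D := by
    have : 0 ≤ max |y1| |y2| := (abs_nonneg y1).trans (le_max_left _ _)
    linarith
  have hy1 : |y1| ≤ D - 1 := by
    have := le_max_left |y1| |y2|
    linarith
  have hy2 : |y2| ≤ D - 1 := by
    have := le_max_right |y1| |y2|
    linarith
  have hyy : 0 < y2 - y1 := by linarith
  set η : ℝ := min (1 / 6) ((y2 - y1) * (d / 4) / 12) with hη
  have hη0 : 0 < η := lt_min (by norm_num) (by positivity)
  have hη6 : η ≤ 1 / 6 := min_le_left _ _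
  have hηy : 12 * η ≤ (y2 - y1) * (d / 4) := by
    have := min_le_right (1 / 6) ((y2 - y1) * (d / 4) / 12)
    linarith
  obtain ⟨m, hm⟩ := exists_nat_ge (max (4 * D ^ 2 / η) (4 / d))
  have hm1 : 4 * D ^ 2 / η ≤ m := (le_max_left _ _).trans hm
  have hm2 : 4 / d ≤ m := (le_max_right _ _).trans hm
  have hm4 : 4 * D ^ 2 ≤ m := by
    rw [div_le_iff₀ hη0] at hm1
    have hm0 : (0 : ℝ) ≤ m := Nat.cast_nonneg m
    nlinarith
  have hm0 : (0 : ℝ) < m := by nlinarith
  have hmN : 1 ≤ m := by exact_mod_cast hm0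
  set e0 : ℝ := η / (8 * D) with he0
  have he00 : 0 < e0 := by positivity
  have he01 : e0 ≤ 1 / 48 := by
    rw [he0, div_le_iff₀ (by positivity)]
    nlinarith
  set c : ℝ := (y2 - y1) / Real.pi with hc
  have hc0 : 0 < c := div_pos hyy Real.pi_pos
  set κ : ℝ := Real.log (e0 / m) with hκ
  set Λ : ℝ := (1 - c * (1 - d / 2) * κ) / (c * (d / 2)) with hΛ
  refine ⟨max ⌈Real.exp Λ⌉₊ (max ⌈(m + 1) / e0⌉₊ 1), ?_⟩
  intro L hL
  have hL1 : Real.exp Λ ≤ L := (Nat.le_ceil _).trans (by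
    exact_mod_cast (le_max_left _ _).trans hL)
  have hL2 : (m + 1) / e0 ≤ L := (Nat.le_ceil _).trans (by
    exact_mod_cast (le_max_left _ _).trans ((le_max_right _ _).trans hL))
  have hL3 : 1 ≤ L := (le_max_right _ _).trans ((le_max_right _ _).trans hL)
  have hL0 : (0 : ℝ) < L := by exact_mod_cast hL3
  set M : ℕ := ⌊e0 * L⌋₊ with hM
  have hM1 : (M : ℝ) ≤ e0 * L := Nat.floor_le (by positivity)
  have hM2 : e0 * L < M + 1 := Nat.lt_floor_add_one _
  have hmM : m + 1 ≤ M := by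
    rw [hM]
    refine Nat.le_floor ?_
    rw [div_le_iff₀ he00] at hL2
    push_cast
    linarith
  have hq : W_q L M ≤ e0 ^ 2 := by
    unfold W_q
    rw [div_le_iff₀ (by positivity), ← mul_pow]
    exact pow_le_pow_left₀ (Nat.cast_nonneg _) hM1 2
  have hyp : W_hyp L m M D η :=
    { hL := hL3
      hD := hD1
      hm := hm4
      hM := hq.trans (by nlinarith)
      hη := hη6
      hη0 := hη0
      h1 := by
        have h1 : 4 * D * W_q L M ≤ 4 * D * e0 ^ 2 :=
          mul_le_mul_of_nonneg_left hq (by positivity)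
        have h2 : 4 * D * e0 ^ 2 = η / 2 * e0 := by
          rw [he0]
          field_simp
          ring
        rw [h2] at h1
        nlinarith
      h2 := by
        rw [div_le_iff₀ hη0] at hm1
        rw [div_le_iff₀ hm0]
        linarith }
  have hδm : 1 / (m : ℝ) ≤ d / 4 := by
    rw [div_le_iff₀ hd0] at hm2
    rw [div_le_iff₀ hm0]
    linarith
  obtain ⟨S, hS1, hS2⟩ := W_count hyp hy.le hy1 hy2 (n := M - m) (by omega)
  refine ⟨m, M - m, hmN, by omega, ?_, S, hS1, ?_⟩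
  · have h1 : (M : ℝ) < L := by nlinarith
    have h2 : M < L := by exact_mod_cast h1
    omega
  · refine le_trans ?_ hS2
    have h1 := W_var hyp hy.le hy1 hy2 hδm (n := M - m) (by omega)
    have h2 := W_harm m hmN (M - m + 1)
    have h3 : κ + Real.log L ≤ Real.log (((m + (M - m + 1) : ℕ) : ℝ) / m) := by
      rw [hκ, ← Real.log_mul (by positivity) hL0.ne']
      refine Real.log_le_log (by positivity) ?_
      rw [div_mul_eq_mul_div]
      refine div_le_div_of_nonneg_right ?_ hm0.le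
      have : m + (M - m + 1) = M + 1 := by omega
      rw [this]
      push_cast
      linarith
    have h4 : κ + Real.log L ≤ ∑ k ∈ range (M - m + 1), 1 / ((m + k : ℕ) : ℝ) := h3.trans h2
    have h5 : (y2 - y1) * (1 - d / 2) * (κ + Real.log L) ≤
        W_Th L m y1 (M - m) - W_Th L m y2 (M - m) := by
      refine le_trans ?_ h1
      have h6 : (y2 - y1) * (1 - d / 2) ≤ (y2 - y1) * (1 - d / 4) - 12 * η := by nlinarith
      have h7 : 0 ≤ (y2 - y1) * (1 - d / 2) := mul_nonneg hyy.le (by linarith)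
      have h8 : 0 ≤ ∑ k ∈ range (M - m + 1), 1 / ((m + k : ℕ) : ℝ) :=
        sum_nonneg fun k _ => by positivity
      exact (mul_le_mul_of_nonneg_left h4 h7).trans (mul_le_mul_of_nonneg_right h6 h8)
    have h6 : c * (1 - d / 2) * (κ + Real.log L) ≤
        (W_Th L m y1 (M - m) - W_Th L m y2 (M - m)) / Real.pi := by
      rw [le_div_iff₀ Real.pi_pos]
      refine le_trans (le_of_eq ?_) h5
      rw [hc]
      field_simp
    have h7 : Λ ≤ Real.log L := by
      rw [Real.le_log_iff_exp_le hL0]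
      exact hL1
    have h8 : 1 - c * (1 - d / 2) * κ ≤ c * (d / 2) * Real.log L := by
      rw [hΛ, div_le_iff₀ (by positivity)] at h7
      linarith
    have h9 : 0 ≤ Real.log L := Real.log_nonneg (by exact_mod_cast hL3)
    have h10 : c * (1 - δ) * Real.log L ≤ c * (1 - d) * Real.log L := by
      refine mul_le_mul_of_nonneg_right ?_ h9
      exact mul_le_mul_of_nonneg_left (by linarith) hc0.le
    refine h10.trans ?_
    nlinarith

end

end Pool.Agent.H160R2.OA
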