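import Pool.Agent.H160R2.OA.Mu
import Pool.Agent.H160R2.OA.Wkb
import Pool.Agent.H160R2.OA.Count
import Pool.Agent.H160R2.OA.Det

set_option autoImplicit false

namespace Pool.Agent.H160R2.OA
open Finset

/-- **Task N.** Lower bound for the number of logarithms of eigenvalues of `B L` in `[l1, l2]`. -/
theorem density (l1 l2 δ : ℝ) (hl : l1 < l2) (hδ : 0 < δ) : ∃ L0 : ℕ, ∀ L : ℕ, L0 ≤ L →
    ∀ (hJ : (J L).IsHermitian) (μ : Fin L → ℝ), IsMu L hJ μ →
      3 / (2 * Real.pi ^ 2) * (l2 - l1) * (1 - δ) * Real.log L ≤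
        ((univ.filter (fun i => l1 ≤ Real.log (μ i) ∧ Real.log (μ i) ≤ l2)).card : ℝ) := by
  classical
  have hpi : 0 < Real.pi := Real.pi_pos
  have hD : 0 < l2 - l1 := by linarith
  have hA : 0 < 3 / (2 * Real.pi ^ 2) * (l2 - l1) := by positivity
  rcases le_or_gt 1 δ with h1 | h1
  · refine ⟨0, fun L _ hJ μ _ => ?_⟩
    have hlog : 0 ≤ Real.log (L : ℝ) := Real.log_natCast_nonneg L
    have h2 : 3 / (2 * Real.pi ^ 2) * (l2 - l1) * (1 - δ) ≤ 0 :=
      mul_nonpos_of_nonneg_of_nonpos hA.le (by linarith)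
    exact (mul_nonpos_of_nonpos_of_nonneg h2 hlog).trans (Nat.cast_nonneg _)
  · set ε : ℝ := 3 * (l2 - l1) * δ / (16 * Real.pi) with hε
    have hε0 : 0 < ε := by positivity
    set Y1 : ℝ := 3 * l1 / (2 * Real.pi) + ε with hY1
    set Y2 : ℝ := 3 * l2 / (2 * Real.pi) - ε with hY2
    have hYd : Y2 - Y1 = 3 * (l2 - l1) / (2 * Real.pi) * (1 - δ / 4) := by
      rw [hY1, hY2, hε]; field_simp; ring
    have hY : Y1 < Y2 := by
      have : 0 < 3 * (l2 - l1) / (2 * Real.pi) * (1 - δ / 4) := by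
        apply mul_pos (by positivity); linarith
      linarith
    obtain ⟨La, hLa⟩ := wkb Y1 Y2 (δ / 4) hY (by positivity)
    obtain ⟨Lb, hLb⟩ := mu_lim (max |Y1| |Y2|) (2 * Real.pi * ε / 3) (by positivity)
    obtain ⟨Lc, hLc⟩ : ∃ Lc : ℕ, ∀ L : ℕ, Lc ≤ L →
        2 ≤ 3 / (2 * Real.pi ^ 2) * (l2 - l1) * (δ / 2) * Real.log L := by
      have ht : Filter.Tendsto (fun L : ℕ => 3 / (2 * Real.pi ^ 2) * (l2 - l1) * (δ / 2) *
          Real.log (L : ℝ)) Filter.atTop Filter.atTop := by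
        apply Filter.Tendsto.const_mul_atTop (by positivity)
        exact Real.tendsto_log_atTop.comp tendsto_natCast_atTop_atTop
      exact Filter.eventually_atTop.1 (ht.eventually_ge_atTop 2)
    refine ⟨max La (max Lb Lc), fun L hL hJ μ hμ => ?_⟩
    have hLa' : La ≤ L := (le_max_left _ _).trans hL
    have hLb' : Lb ≤ L := (le_max_left _ _).trans ((le_max_right _ _).trans hL)
    have hLc' : Lc ≤ L := (le_max_right _ _).trans ((le_max_right _ _).trans hL)
    obtain ⟨m, n, hm, hn, hmn, S, hS, hcard⟩ := hLa L hLa'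
    have hlog : 0 ≤ Real.log (L : ℝ) := Real.log_natCast_nonneg L
    have h3 : (0 : ℝ) < √3 := Real.sqrt_pos.2 (by norm_num)
    -- the set of eigenvalues
    have hcnt := count_of_trunc L m n hm hn hmn (√3 * ((Y1 + Y2) / 2)) (√3 * ((Y2 - Y1) / 2))
      (S.image (fun y => √3 * y)) (by
        intro e he
        obtain ⟨y, hy, rfl⟩ := Finset.mem_image.1 he
        obtain ⟨ha, hb, hc⟩ := hS y hy
        refine ⟨?_, hc⟩
        rw [← mul_sub, abs_mul, abs_of_pos h3]
        apply mul_le_mul_of_nonneg_left _ h3.le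
        rw [abs_le]
        constructor <;> linarith) hJ
    have himg : (S.image (fun y => √3 * y)).card = S.card := by
      apply Finset.card_image_of_injective
      intro x y hxy
      exact mul_left_cancel₀ h3.ne' hxy
    rw [himg] at hcnt
    have hsub : (univ.filter (fun i => |hJ.eigenvalues i - √3 * ((Y1 + Y2) / 2)| ≤
        √3 * ((Y2 - Y1) / 2))) ⊆
        (univ.filter (fun i => l1 ≤ Real.log (μ i) ∧ Real.log (μ i) ≤ l2)) := by
      intro i hi
      rw [Finset.mem_filter] at hi ⊢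
      refine ⟨Finset.mem_univ _, ?_⟩
      obtain ⟨-, hmuv, -, -⟩ := hμ
      obtain ⟨v, hv0, hv1, hv2⟩ := hmuv i
      set y : ℝ := hJ.eigenvalues i / √3 with hy
      have hEy : hJ.eigenvalues i = √3 * y := by rw [hy]; field_simp
      have h4 := hi.2
      rw [hEy, ← mul_sub, abs_mul, abs_of_pos h3] at h4
      have h5 : |y - (Y1 + Y2) / 2| ≤ (Y2 - Y1) / 2 := le_of_mul_le_mul_left h4 h3
      rw [abs_le] at h5
      have hy1 : Y1 ≤ y := by linarith [h5.1]
      have hy2 : y ≤ Y2 := by linarith [h5.2]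
      have hyY : |y| ≤ max |Y1| |Y2| := abs_le_max_abs_abs hy1 hy2
      rw [hEy] at hv1
      obtain ⟨-, h6⟩ := hLb L hLb' y hyY v hv0 hv1 (μ i) hv2
      rw [abs_le] at h6
      have e1 : 2 * Real.pi * Y1 / 3 = l1 + 2 * Real.pi * ε / 3 := by
        rw [hY1]; field_simp
      have e2 : 2 * Real.pi * Y2 / 3 = l2 - 2 * Real.pi * ε / 3 := by
        rw [hY2]; field_simp
      have e3 : 2 * Real.pi * Y1 / 3 ≤ 2 * Real.pi * y / 3 := by
        have : 2 * Real.pi * Y1 ≤ 2 * Real.pi * y :=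
          mul_le_mul_of_nonneg_left hy1 (by positivity)
        linarith
      have e4 : 2 * Real.pi * y / 3 ≤ 2 * Real.pi * Y2 / 3 := by
        have : 2 * Real.pi * y ≤ 2 * Real.pi * Y2 :=
          mul_le_mul_of_nonneg_left hy2 (by positivity)
        linarith
      constructor
      · linarith [h6.1]
      · linarith [h6.2]
    have hcs := Finset.card_le_card hsub
    have hS2 : (S.card : ℝ) ≤
        2 + ((univ.filter (fun i => l1 ≤ Real.log (μ i) ∧ Real.log (μ i) ≤ l2)).card : ℝ) := by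
      exact_mod_cast hcnt.trans (Nat.add_le_add_left hcs 2)
    have hc := hLc L hLc'
    rw [hYd] at hcard
    have key : 3 / (2 * Real.pi ^ 2) * (l2 - l1) * (1 - δ / 2) * Real.log L ≤
        3 * (l2 - l1) / (2 * Real.pi) * (1 - δ / 4) / Real.pi * (1 - δ / 4) * Real.log L := by
      have e5 : 3 * (l2 - l1) / (2 * Real.pi) * (1 - δ / 4) / Real.pi * (1 - δ / 4) =
          3 / (2 * Real.pi ^ 2) * (l2 - l1) * (1 - δ / 4) ^ 2 := by
        field_simp
      rw [e5]
      apply mul_le_mul_of_nonneg_right _ hlog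
      apply mul_le_mul_of_nonneg_left _ hA.le
      nlinarith [sq_nonneg δ]
    have e6 : 3 / (2 * Real.pi ^ 2) * (l2 - l1) * (1 - δ / 2) * Real.log L =
        3 / (2 * Real.pi ^ 2) * (l2 - l1) * (1 - δ) * Real.log L +
        3 / (2 * Real.pi ^ 2) * (l2 - l1) * (δ / 2) * Real.log L := by ring
    linarith

end Pool.Agent.H160R2.OA
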