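import Pool.Agent.H160R2.OA.Alg

/-! Task E: eigenvectors of `J` and `B` -/

set_option autoImplicit false

namespace Pool.Agent.H160R2.OA
open Finset

theorem E_b_pos (L k : ℕ) (hk : 1 ≤ k) (hkL : k < L) : 0 < b L k := by
  have h1 : (0 : ℝ) < k := by exact_mod_cast hk
  have h2 : (k : ℝ) < L := by exact_mod_cast hkL
  have h3 : (0 : ℝ) < L := h1.trans h2
  unfold b
  apply mul_pos h1
  have h4 : (k : ℝ) ^ 2 / (L : ℝ) ^ 2 < 1 := by
    rw [div_lt_one (by positivity)]
    exact pow_lt_pow_left₀ h2 h1.le (by norm_num)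
  linarith

theorem E_vec (L : ℕ) (hL : 0 < L) (e : ℝ) (v : Fin L → ℝ) (hv : (J L).mulVec v = e • v) :
    ∀ j : Fin L, v j = v ⟨0, hL⟩ * sol L e j := by
  set vv : ℕ → ℝ := fun k => if h : k < L then v ⟨k, h⟩ else 0 with hvv
  have hvk : ∀ k : Fin L, vv k = v k := by
    intro k
    simp only [hvv]
    rw [dif_pos k.2]
  have hrow : ∀ i : ℕ, i < L → a L i * vv i + b L (i + 1) * vv (i + 1) + b L i * vv (i - 1) =
      e * vv i := by
    intro i hi
    have h1 := A_row L hL ⟨i, hi⟩ vv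
    have h2 : ∑ k : Fin L, J L ⟨i, hi⟩ k * vv k = e * vv i := by
      have h3 := congrFun hv ⟨i, hi⟩
      rw [Pi.smul_apply, smul_eq_mul, ← hvk ⟨i, hi⟩] at h3
      rw [← h3]
      unfold Matrix.mulVec dotProduct
      exact Finset.sum_congr rfl fun k _ => by rw [hvk]
    rw [h2] at h1
    exact h1.symm
  have key : ∀ n : ℕ, (n < L → vv n = vv 0 * sol L e n) ∧
      (n + 1 < L → vv (n + 1) = vv 0 * sol L e (n + 1)) := by
    intro n
    induction n with
    | zero =>
      refine ⟨fun _ => by simp [sol], fun h => ?_⟩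
      have hb := (E_b_pos L 1 le_rfl h).ne'
      have h1 := hrow 0 hL
      rw [A_b_zero, zero_mul, add_zero] at h1
      have h2 : sol L e (0 + 1) = (e - a L 0) / b L 1 := by simp [sol]
      rw [h2]
      simp only [zero_add] at h1 ⊢
      field_simp
      linarith
    | succ n ih =>
      refine ⟨ih.2, fun h => ?_⟩
      have hb := (E_b_pos L (n + 2) (by omega) h).ne'
      have h1 := hrow (n + 1) (by omega)
      rw [Nat.add_sub_cancel] at h1
      have i1 := ih.1 (by omega)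
      have i2 := ih.2 (by omega)
      have h2 : sol L e (n + 1 + 1) =
          ((e - a L (n + 1)) * sol L e (n + 1) - b L (n + 1) * sol L e n) / b L (n + 2) := by
        rw [sol]
      rw [h2]
      rw [i1, i2] at h1
      have h3 : b L (n + 1 + 1) = b L (n + 2) := rfl
      rw [h3] at h1
      field_simp
      linarith
  intro j
  have h := (key j).1 j.2
  rw [hvk] at h
  have h0 : vv 0 = v ⟨0, hL⟩ := hvk ⟨0, hL⟩
  rw [h, h0]

theorem E_ne (L : ℕ) (hL : 0 < L) (e : ℝ) (v : Fin L → ℝ) (hv0 : v ≠ 0)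
    (hv : (J L).mulVec v = e • v) : v ⟨0, hL⟩ ≠ 0 := by
  intro h
  apply hv0
  funext j
  rw [E_vec L hL e v hv j, h, zero_mul]
  rfl

theorem E_RT_sq (L : ℕ) : (R L).transpose * (R L).transpose = 1 := by
  rw [← Matrix.transpose_mul, R_sq, Matrix.transpose_one]

theorem E_JRT (L : ℕ) (hL : 0 < L) : J L * (R L).transpose = -((R L).transpose * J L) := by
  have h := congrArg Matrix.transpose (JR L hL)
  rw [Matrix.transpose_mul, Matrix.transpose_neg, Matrix.transpose_mul, (J_symm L).eq] at h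
  rw [h, neg_neg]

theorem E_binom (L k : ℕ) (hk : k < L) :
    ∑ j ∈ range L, (-1 : ℝ) ^ j * (Nat.choose k j : ℝ) / 2 ^ j = 1 / 2 ^ k := by
  have h1 : ∑ j ∈ range L, (-1 : ℝ) ^ j * (Nat.choose k j : ℝ) / 2 ^ j =
      ∑ j ∈ range (k + 1), (-1 : ℝ) ^ j * (Nat.choose k j : ℝ) / 2 ^ j := by
    symm
    apply Finset.sum_subset
    · intro j hj
      rw [mem_range] at *
      omega
    · intro j _ hj
      rw [mem_range] at hj
      rw [Nat.choose_eq_zero_of_lt (by omega : k < j)]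
      simp
  rw [h1]
  have h2 := add_pow (-1 / 2 : ℝ) 1 k
  have h3 : (-1 / 2 : ℝ) + 1 = 1 / 2 := by norm_num
  rw [h3, div_pow, one_pow] at h2
  rw [h2]
  apply Finset.sum_congr rfl
  intro j _
  rw [div_pow]
  ring

theorem ev_B (L : ℕ) (hL : 0 < L) (e : ℝ) (v : Fin L → ℝ) (hv0 : v ≠ 0)
    (hv : (J L).mulVec v = e • v) :
    (∀ j : Fin L, v j = v ⟨0, hL⟩ * sol L e j) ∧ v ⟨0, hL⟩ ≠ 0 ∧ IsEv L (-e) ∧
    ∃ μ : ℝ, 0 < μ ∧ (B L).mulVec v = μ • v ∧ F L e = μ * F L (-e) := by
  have hvec := E_vec L hL e v hv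
  have hne := E_ne L hL e v hv0 hv
  set w : Fin L → ℝ := (R L).transpose.mulVec v with hw
  have hw0 : w ≠ 0 := by
    intro h
    apply hv0
    have h1 : (R L).transpose.mulVec w = v := by
      rw [hw, Matrix.mulVec_mulVec, E_RT_sq, Matrix.one_mulVec]
    rw [← h1, h, Matrix.mulVec_zero]
  have hJw : (J L).mulVec w = (-e) • w := by
    rw [hw, Matrix.mulVec_mulVec, E_JRT L hL, Matrix.neg_mulVec, ← Matrix.mulVec_mulVec, hv,
      Matrix.mulVec_smul, neg_smul]
  have hwvec := E_vec L hL (-e) w hJw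
  have hwne := E_ne L hL (-e) w hw0 hJw
  have hJRw : (J L).mulVec ((R L).mulVec w) = e • (R L).mulVec w := by
    rw [Matrix.mulVec_mulVec, JR L hL, Matrix.neg_mulVec, ← Matrix.mulVec_mulVec, hJw,
      Matrix.mulVec_smul, neg_smul, neg_neg]
  have hRw := E_vec L hL e ((R L).mulVec w) hJRw
  have hRw0 : (R L).mulVec w ⟨0, hL⟩ = w ⟨0, hL⟩ := by
    unfold Matrix.mulVec dotProduct
    rw [Finset.sum_eq_single (⟨0, hL⟩ : Fin L)]
    · simp [R]
    · intro k _ hk
      have hk' : 0 < (k : ℕ) := by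
        rcases Nat.eq_zero_or_pos (k : ℕ) with h | h
        · exact absurd (Fin.ext h) hk
        · exact h
      simp only [R, Matrix.of_apply]
      rw [Nat.choose_eq_zero_of_lt hk']
      simp
    · intro h
      exact absurd (mem_univ _) h
  set μ : ℝ := w ⟨0, hL⟩ / v ⟨0, hL⟩ with hμ
  have hBv : (B L).mulVec v = μ • v := by
    rw [B_eq, ← Matrix.mulVec_mulVec, ← hw]
    funext j
    rw [hRw j, hRw0, Pi.smul_apply, smul_eq_mul, hvec j, hμ]
    field_simp
  have hμpos : 0 < μ := by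
    have h1 : dotProduct v ((B L).mulVec v) = dotProduct w w := by
      rw [B_eq, ← Matrix.mulVec_mulVec, ← hw, Matrix.dotProduct_mulVec, ← Matrix.mulVec_transpose,
        ← hw]
    rw [hBv, dotProduct_smul, smul_eq_mul] at h1
    have h2 : 0 < dotProduct w w := by
      rcases (Finset.sum_nonneg (fun i _ => mul_self_nonneg (w i)) :
        0 ≤ ∑ i, w i * w i).lt_or_eq with h | h
      · exact h
      · exfalso
        apply hw0
        funext i
        have := (Finset.sum_eq_zero_iff_of_nonneg (fun i _ => mul_self_nonneg (w i))).1 h.symm i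
          (mem_univ i)
        exact mul_self_eq_zero.1 this
    have h3 : 0 ≤ dotProduct v v := Finset.sum_nonneg (fun i _ => mul_self_nonneg (v i))
    rw [← h1] at h2
    exact pos_of_mul_pos_left h2 h3
  refine ⟨hvec, hne, ⟨w, hw0, hJw⟩, μ, hμpos, hBv, ?_⟩
  have hF1 : v ⟨0, hL⟩ * F L e = ∑ k : Fin L, v k * (1 / 2 ^ (k : ℕ)) := by
    unfold F
    rw [Finset.sum_range, Finset.mul_sum]
    apply Finset.sum_congr rfl
    intro k _
    rw [hvec k]
    ring
  have hF2 : w ⟨0, hL⟩ * F L (-e) = ∑ k : Fin L, v k * (1 / 2 ^ (k : ℕ)) := by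
    unfold F
    rw [Finset.sum_range, Finset.mul_sum]
    have e1 : ∀ j : Fin L, w ⟨0, hL⟩ * (sol L (-e) j / 2 ^ (j : ℕ)) =
        ∑ k : Fin L, v k * ((-1 : ℝ) ^ (j : ℕ) * (Nat.choose k j : ℝ) / 2 ^ (j : ℕ)) := by
      intro j
      have e2 : w ⟨0, hL⟩ * (sol L (-e) j / 2 ^ (j : ℕ)) = w j / 2 ^ (j : ℕ) := by
        rw [hwvec j]; ring
      rw [e2, hw]
      unfold Matrix.mulVec dotProduct
      rw [Finset.sum_div]
      apply Finset.sum_congr rfl
      intro k _
      simp only [R, Matrix.of_apply, Matrix.transpose_apply]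
      ring
    rw [Finset.sum_congr rfl (fun j _ => e1 j), Finset.sum_comm]
    apply Finset.sum_congr rfl
    intro k _
    rw [← Finset.mul_sum, ← Finset.sum_range (fun j => (-1 : ℝ) ^ j * (Nat.choose k j : ℝ) / 2 ^ j),
      E_binom L k k.2]
  rw [hμ]
  have := hF1.trans hF2.symm
  field_simp
  linarith

end Pool.Agent.H160R2.OA
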