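import Pool.Agent.H160R2.OA.Defs

/-! Task I: the integral -/

set_option autoImplicit false

namespace Pool.Agent.H160R2.OA
open Finset

/-- lower bound for cosh -/
theorem I_cosh_ge (x : ℝ) : (1 + x ^ 2) / 4 ≤ Real.cosh x := by
  have h1 : 1 + |x| + |x| ^ 2 / 2 ≤ Real.exp |x| := Real.quadratic_le_exp_of_nonneg (abs_nonneg x)
  have h2 : Real.cosh x = Real.cosh |x| := (Real.cosh_abs x).symm
  rw [h2, Real.cosh_eq]
  have h3 := Real.exp_pos (-|x|)
  have h4 := abs_nonneg x
  have h5 : |x| ^ 2 = x ^ 2 := sq_abs x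
  nlinarith

theorem I_den_ge (θ : ℝ) (h0 : 0 ≤ θ) (h1 : θ < Real.pi) :
    ∃ c : ℝ, 0 < c ∧ ∀ x : ℝ, c * (1 + x ^ 2) ≤ 2 * Real.cosh x + 2 * Real.cos θ := by
  have hc : -1 < Real.cos θ := by
    rw [← Real.cos_pi]
    exact Real.cos_lt_cos_of_nonneg_of_le_pi h0 le_rfl h1
  refine ⟨(1 + min 0 (Real.cos θ)) / 2, ?_, ?_⟩
  · have : -1 < min 0 (Real.cos θ) := lt_min (by norm_num) hc
    linarith
  · intro x
    have hx := I_cosh_ge x
    have hx1 := Real.one_le_cosh x
    have hm1 : min 0 (Real.cos θ) ≤ 0 := min_le_left _ _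
    have hm2 : min 0 (Real.cos θ) ≤ Real.cos θ := min_le_right _ _
    have hm3 : -1 < min 0 (Real.cos θ) := lt_min (by norm_num) hc
    nlinarith [sq_nonneg x]

theorem I_integrable (θ : ℝ) (h0 : 0 ≤ θ) (h1 : θ < Real.pi) :
    MeasureTheory.Integrable (fun x : ℝ =>
      Real.log ((2 * Real.cosh x + 1) / (2 * Real.cosh x + 2 * Real.cos θ))) := by
  obtain ⟨c, hc, hcx⟩ := I_den_ge θ h0 h1
  have hden : ∀ x : ℝ, 0 < 2 * Real.cosh x + 2 * Real.cos θ := fun x =>
    lt_of_lt_of_le (by positivity) (hcx x)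
  have hnum : ∀ x : ℝ, 0 < 2 * Real.cosh x + 1 := fun x => by
    have := Real.one_le_cosh x
    linarith
  have hcont : Continuous (fun x : ℝ =>
      Real.log ((2 * Real.cosh x + 1) / (2 * Real.cosh x + 2 * Real.cos θ))) := by
    refine Continuous.log ?_ ?_
    · refine Continuous.div ?_ ?_ (fun x => (hden x).ne')
      · exact (Real.continuous_cosh.const_mul 2 |>.add continuous_const)
      · exact (Real.continuous_cosh.const_mul 2 |>.add continuous_const)
    · intro x
      exact (div_pos (hnum x) (hden x)).ne'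
  have hdom : MeasureTheory.Integrable (fun x : ℝ => (3 / c + 6) * (1 + x ^ 2)⁻¹) :=
    integrable_inv_one_add_sq.const_mul _
  refine hdom.mono' hcont.aestronglyMeasurable (Filter.Eventually.of_forall fun x => ?_)
  have hcos : |Real.cos θ| ≤ 1 := Real.abs_cos_le_one θ
  rw [abs_le] at hcos
  have hx2 : 0 < 1 + x ^ 2 := by positivity
  rw [Real.norm_eq_abs, abs_le]
  have key1 : Real.log ((2 * Real.cosh x + 1) / (2 * Real.cosh x + 2 * Real.cos θ)) ≤
      3 / (c * (1 + x ^ 2)) := by
    refine (Real.log_le_sub_one_of_pos (div_pos (hnum x) (hden x))).trans ?_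
    have : (2 * Real.cosh x + 1) / (2 * Real.cosh x + 2 * Real.cos θ) - 1 =
        (1 - 2 * Real.cos θ) / (2 * Real.cosh x + 2 * Real.cos θ) := by
      rw [div_sub_one (hden x).ne']
      congr 1
      ring
    rw [this]
    calc (1 - 2 * Real.cos θ) / (2 * Real.cosh x + 2 * Real.cos θ)
        ≤ 3 / (2 * Real.cosh x + 2 * Real.cos θ) :=
          div_le_div_of_nonneg_right (by linarith) (hden x).le
      _ ≤ 3 / (c * (1 + x ^ 2)) := div_le_div_of_nonneg_left (by norm_num) (by positivity) (hcx x)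
  have key2 : -(6 / (1 + x ^ 2)) ≤
      Real.log ((2 * Real.cosh x + 1) / (2 * Real.cosh x + 2 * Real.cos θ)) := by
    have h := Real.log_le_sub_one_of_pos (div_pos (hden x) (hnum x))
    have h' : Real.log ((2 * Real.cosh x + 2 * Real.cos θ) / (2 * Real.cosh x + 1)) =
        - Real.log ((2 * Real.cosh x + 1) / (2 * Real.cosh x + 2 * Real.cos θ)) := by
      rw [← Real.log_inv, inv_div]
    rw [h'] at h
    have : (2 * Real.cosh x + 2 * Real.cos θ) / (2 * Real.cosh x + 1) - 1 =
        (2 * Real.cos θ - 1) / (2 * Real.cosh x + 1) := by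
      rw [div_sub_one (hnum x).ne']
      congr 1
      ring
    rw [this] at h
    have h2 : (2 * Real.cos θ - 1) / (2 * Real.cosh x + 1) ≤ 3 / (2 * Real.cosh x + 1) :=
      div_le_div_of_nonneg_right (by linarith) (hnum x).le
    have h3 : 3 / (2 * Real.cosh x + 1) ≤ 3 / ((1 + x ^ 2) / 2) := by
      refine div_le_div_of_nonneg_left (by norm_num) (by positivity) ?_
      have := I_cosh_ge x
      linarith
    have h4 : 3 / ((1 + x ^ 2) / 2) = 6 / (1 + x ^ 2) := by
      field_simp
      norm_num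
    linarith
  have e1 : (3 / c + 6) * (1 + x ^ 2)⁻¹ = 3 / (c * (1 + x ^ 2)) + 6 / (1 + x ^ 2) := by
    field_simp
  have p1 : 0 < 3 / (c * (1 + x ^ 2)) := by positivity
  have p2 : 0 < 6 / (1 + x ^ 2) := by positivity
  rw [e1]
  constructor <;> linarith

/-- Fourier series of the logarithm on the half line -/
theorem I_hasSum_log (t x : ℝ) (hx : 0 < x) :
    HasSum (fun n : ℕ => (-1) ^ (n + 1) * (Real.cos (n * t) * Real.exp (-(n * x))) / n)
      ((Real.log (2 * Real.cosh x + 2 * Real.cos t) - x) / 2) := by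
  set z : ℂ := Complex.exp (((-x : ℝ) : ℂ) + (t : ℂ) * Complex.I) with hz
  have hznorm : ‖z‖ < 1 := by
    rw [hz, Complex.norm_exp]
    simp [hx]
  have h := Complex.hasSum_re (Complex.hasSum_taylorSeries_log hznorm)
  have hterm : (fun n : ℕ => (-1) ^ (n + 1) * (Real.cos (n * t) * Real.exp (-(n * x))) / n) =
      fun n : ℕ => ((-1) ^ (n + 1) * z ^ n / n : ℂ).re := by
    funext n
    have h1 : z ^ n = ((Real.exp (-(n * x)) * Real.cos (n * t) : ℝ) : ℂ) +
        ((Real.exp (-(n * x)) * Real.sin (n * t) : ℝ) : ℂ) * Complex.I := by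
      rw [hz, ← Complex.exp_nat_mul]
      have : (n : ℂ) * (((-x : ℝ) : ℂ) + (t : ℂ) * Complex.I) =
          ((-(n * x) : ℝ) : ℂ) + ((n * t : ℝ) : ℂ) * Complex.I := by
        push_cast
        ring
      rw [this, Complex.exp_add, Complex.exp_mul_I]
      push_cast
      ring
    have h2 : ((-1) ^ (n + 1) * z ^ n / n : ℂ) =
        (((-1) ^ (n + 1) * (Real.exp (-(n * x)) * Real.cos (n * t)) / n : ℝ) : ℂ) +
        (((-1) ^ (n + 1) * (Real.exp (-(n * x)) * Real.sin (n * t)) / n : ℝ) : ℂ) * Complex.I := by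
      rw [h1]
      push_cast
      ring
    rw [h2]
    simp only [Complex.add_re, Complex.ofReal_re, Complex.mul_re, Complex.I_re, mul_zero,
      Complex.ofReal_im, Complex.I_im, mul_one, sub_self, add_zero]
    ring
  rw [hterm]
  convert h using 1
  rw [Complex.log_re]
  have hz1 : z = ((Real.exp (-x) * Real.cos t : ℝ) : ℂ) +
        ((Real.exp (-x) * Real.sin t : ℝ) : ℂ) * Complex.I := by
    rw [hz, Complex.exp_add, Complex.exp_mul_I]
    push_cast
    ring
  have hn2 : ‖1 + z‖ ^ 2 = Real.exp (-x) * (2 * Real.cosh x + 2 * Real.cos t) := by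
    rw [← Complex.normSq_eq_norm_sq, hz1, Complex.normSq_apply]
    simp only [Complex.add_re, Complex.one_re, Complex.ofReal_re, Complex.mul_re, Complex.I_re,
      mul_zero, Complex.ofReal_im, Complex.I_im, mul_one, sub_self, add_zero, Complex.add_im,
      Complex.one_im, Complex.mul_im, zero_add]
    rw [Real.cosh_eq]
    have he : Real.exp (-x) * Real.exp x = 1 := by
      rw [← Real.exp_add]; simp
    have hs := Real.sin_sq_add_cos_sq t
    linear_combination he.symm + Real.exp (-x) ^ 2 * hs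
  have hpos : 0 < 2 * Real.cosh x + 2 * Real.cos t := by
    have h1 : 1 < Real.cosh x := Real.one_lt_cosh.2 hx.ne'
    have h2 := Real.neg_one_le_cos t
    linarith
  have hlog : 2 * Real.log ‖1 + z‖ = -x + Real.log (2 * Real.cosh x + 2 * Real.cos t) := by
    rw [← Real.log_exp (-x), ← Real.log_mul (Real.exp_pos _).ne' hpos.ne', ← hn2, Real.log_pow]
    norm_num
  linarith

/-- Fourier series of the quadratic -/
theorem I_hasSum_sq (t : ℝ) (h0 : 0 ≤ t) (h1 : t ≤ Real.pi) :
    HasSum (fun n : ℕ => (-1) ^ (n + 1) * Real.cos (n * t) / (n : ℝ) ^ 2)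
      (Real.pi ^ 2 / 12 - t ^ 2 / 4) := by
  have hpi := Real.pi_pos
  have hx : (Real.pi + t) / (2 * Real.pi) ∈ Set.Icc (0 : ℝ) 1 := by
    constructor
    · positivity
    · rw [div_le_one (by positivity)]
      linarith
  have h := (hasSum_one_div_nat_pow_mul_cos (k := 1) one_ne_zero hx).neg
  have hB : (Polynomial.map (algebraMap ℚ ℝ) (Polynomial.bernoulli (2 * 1))).eval
      ((Real.pi + t) / (2 * Real.pi)) =
      ((Real.pi + t) / (2 * Real.pi)) ^ 2 - ((Real.pi + t) / (2 * Real.pi)) + 1 / 6 := by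
    rw [Polynomial.bernoulli]
    simp [Finset.sum_range_succ, bernoulli_two, bernoulli_one]
    ring
  rw [hB] at h
  have e1 : (fun n : ℕ => (-1) ^ (n + 1) * Real.cos (n * t) / (n : ℝ) ^ 2) =
      fun n : ℕ => -(1 / (n : ℝ) ^ (2 * 1) *
        Real.cos (2 * Real.pi * n * ((Real.pi + t) / (2 * Real.pi)))) := by
    funext n
    have : 2 * Real.pi * n * ((Real.pi + t) / (2 * Real.pi)) = n * t + n * Real.pi := by
      field_simp
      ring
    rw [this, Real.cos_add_nat_mul_pi]
    ring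
  have e2 : Real.pi ^ 2 / 12 - t ^ 2 / 4 = -((-1) ^ (1 + 1) * (2 * Real.pi) ^ (2 * 1) / 2 /
      ((2 * 1).factorial : ℝ) * (((Real.pi + t) / (2 * Real.pi)) ^ 2 -
        ((Real.pi + t) / (2 * Real.pi)) + 1 / 6)) := by
    have : ((2 * 1).factorial : ℝ) = 2 := by norm_num [Nat.factorial]
    rw [this]
    field_simp
    ring
  rw [e1, e2]
  exact h

/-- the integral over the half line -/
theorem I_half (t : ℝ) (h0 : 0 ≤ t) (h1 : t < Real.pi) :
    ∫ x in Set.Ioi (0 : ℝ),
      Real.log ((2 * Real.cosh x + 1) / (2 * Real.cosh x + 2 * Real.cos t)) =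
      t ^ 2 / 2 - Real.pi ^ 2 / 18 := by
  have hpi := Real.pi_pos
  -- the coefficients
  set c : ℕ → ℝ := fun n =>
    2 * ((-1) ^ (n + 1) * (Real.cos (n * (Real.pi / 3)) - Real.cos (n * t))) / n with hc
  have hcb : ∀ n, |c n| ≤ 4 / n := by
    intro n
    have h3 : |Real.cos (n * (Real.pi / 3)) - Real.cos (n * t)| ≤ 2 := by
      have h4 := Real.abs_cos_le_one (n * (Real.pi / 3))
      have h5 := Real.abs_cos_le_one (n * t)
      rw [abs_le] at h4 h5 ⊢
      constructor <;> linarith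
    rw [hc]
    simp only
    rw [abs_div, abs_mul, abs_mul, abs_pow, abs_neg, abs_one, one_pow, one_mul, Nat.abs_cast]
    refine div_le_div_of_nonneg_right ?_ (Nat.cast_nonneg n)
    rw [abs_two]
    linarith
  set G : ℕ → ℝ → ℝ := fun n x => c n * Real.exp (-n * x) with hG
  have hc0 : c 0 = 0 := by simp [hc]
  have hGint : ∀ n, MeasureTheory.Integrable (G n)
      (MeasureTheory.volume.restrict (Set.Ioi (0 : ℝ))) := by
    intro n
    rcases Nat.eq_zero_or_pos n with hn | hn
    · subst hn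
      have : G 0 = fun _ => 0 := by
        funext x
        simp [hG, hc0]
      rw [this]
      exact MeasureTheory.integrable_zero _ _ _
    · have hn' : (-(n : ℝ)) < 0 := by
        have : (0 : ℝ) < n := by exact_mod_cast hn
        linarith
      exact (integrableOn_exp_mul_Ioi hn' 0).const_mul _
  have hval : ∀ n : ℕ, ∀ d : ℝ, (n = 0 → d = 0) →
      ∫ x in Set.Ioi (0 : ℝ), d * Real.exp (-n * x) = d / n := by
    intro n d hd
    rcases Nat.eq_zero_or_pos n with hn | hn
    · subst hn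
      simp [hd rfl]
    · have hn' : (-(n : ℝ)) < 0 := by
        have : (0 : ℝ) < n := by exact_mod_cast hn
        linarith
      rw [MeasureTheory.integral_const_mul, integral_exp_mul_Ioi hn' 0]
      simp
      ring
  have hGnorm : ∀ n, ∫ x in Set.Ioi (0 : ℝ), ‖G n x‖ = |c n| / n := by
    intro n
    rw [← hval n |c n| (by rintro rfl; simp [hc0])]
    congr 1
    funext x
    simp only [hG]
    rw [norm_mul, Real.norm_eq_abs, Real.norm_eq_abs, abs_of_pos (Real.exp_pos _)]
  have hGsum : Summable fun n => ∫ x in Set.Ioi (0 : ℝ), ‖G n x‖ := by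
    have hs : Summable fun n : ℕ => 4 * (1 / (n : ℝ) ^ 2) :=
      (Real.summable_one_div_nat_pow.2 (by norm_num)).mul_left 4
    refine Summable.of_nonneg_of_le (fun n => ?_) (fun n => ?_) hs
    · exact MeasureTheory.integral_nonneg fun x => norm_nonneg _
    · rw [hGnorm]
      calc |c n| / n ≤ (4 / n) / n := div_le_div_of_nonneg_right (hcb n) (Nat.cast_nonneg n)
        _ = 4 * (1 / (n : ℝ) ^ 2) := by
          rw [div_div, ← sq]
          ring
  have hmain := MeasureTheory.hasSum_integral_of_summable_integral_norm hGint hGsum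
  have hsum : HasSum (fun n => ∫ x in Set.Ioi (0 : ℝ), G n x) (t ^ 2 / 2 - Real.pi ^ 2 / 18) := by
    have h3 := ((I_hasSum_sq (Real.pi / 3) (by positivity) (by linarith)).sub
      (I_hasSum_sq t h0 h1.le)).mul_left 2
    have e1 : 2 * (Real.pi ^ 2 / 12 - (Real.pi / 3) ^ 2 / 4 - (Real.pi ^ 2 / 12 - t ^ 2 / 4)) =
        t ^ 2 / 2 - Real.pi ^ 2 / 18 := by ring
    rw [e1] at h3
    have e2 : (fun n => ∫ x in Set.Ioi (0 : ℝ), G n x) = fun i : ℕ =>
        2 * ((-1) ^ (i + 1) * Real.cos (i * (Real.pi / 3)) / (i : ℝ) ^ 2 -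
          (-1) ^ (i + 1) * Real.cos (i * t) / (i : ℝ) ^ 2) := by
      funext n
      rw [show (fun x => G n x) = fun x => c n * Real.exp (-n * x) from rfl,
        hval n (c n) (by rintro rfl; exact hc0)]
      simp only [hc]
      rw [div_div, ← sq]
      ring
    rw [e2]
    exact h3
  rw [← hmain.unique hsum]
  refine MeasureTheory.setIntegral_congr_fun measurableSet_Ioi ?_
  intro x hx
  have hx' : 0 < x := hx
  have hA := (I_hasSum_log (Real.pi / 3) x hx').sub (I_hasSum_log t x hx')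
  have hA2 := hA.mul_left 2
  have hGx : (fun n : ℕ => 2 * ((-1) ^ (n + 1) * (Real.cos (n * (Real.pi / 3)) *
      Real.exp (-(n * x))) / n - (-1) ^ (n + 1) * (Real.cos (n * t) *
      Real.exp (-(n * x))) / n)) = fun n => G n x := by
    funext n
    simp only [hG, hc]
    rw [neg_mul]
    ring
  rw [hGx] at hA2
  show Real.log ((2 * Real.cosh x + 1) / (2 * Real.cosh x + 2 * Real.cos t)) = ∑' i : ℕ, G i x
  rw [hA2.tsum_eq]
  have hp1 : 0 < 2 * Real.cosh x + 1 := by
    have := Real.one_le_cosh x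
    linarith
  have hp2 : 0 < 2 * Real.cosh x + 2 * Real.cos t := by
    have h1 : 1 < Real.cosh x := Real.one_lt_cosh.2 hx'.ne'
    have h2 := Real.neg_one_le_cos t
    linarith
  rw [Real.log_div hp1.ne' hp2.ne', Real.cos_pi_div_three]
  ring_nf

theorem integral_log (θ : ℝ) (h0 : 0 ≤ θ) (h1 : θ < Real.pi) :
    MeasureTheory.Integrable (fun x : ℝ =>
      Real.log ((2 * Real.cosh x + 1) / (2 * Real.cosh x + 2 * Real.cos θ))) ∧
    ∫ x : ℝ, Real.log ((2 * Real.cosh x + 1) / (2 * Real.cosh x + 2 * Real.cos θ)) =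
      θ ^ 2 - Real.pi ^ 2 / 9 := by
  refine ⟨I_integrable θ h0 h1, ?_⟩
  have h := integral_comp_abs (f := fun x : ℝ =>
    Real.log ((2 * Real.cosh x + 1) / (2 * Real.cosh x + 2 * Real.cos θ)))
  simp only [Real.cosh_abs] at h
  rw [h, I_half θ h0 h1]
  ring

end Pool.Agent.H160R2.OA
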