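import Pool.Agent.H160R2.OA.Alg
import Pool.Agent.H160R2.OA.Det
import Pool.Agent.H160R2.OA.Int
import Pool.Agent.H160R2.OA.Dens

/-! Task Z: linear statistics of the eigenvalues and the exponents. -/

set_option autoImplicit false

namespace Pool.Agent.H160R2.OA
open Finset MeasureTheory

/-- step function approximation from below on `[-Λ, Λ]` -/
theorem Z_step (g : ℝ → ℝ) (hg : Continuous g) (hg0 : ∀ x, 0 ≤ g x) (Λ I : ℝ) (hΛ : 0 < Λ)
    (hI : I < ∫ x in (-Λ)..Λ, g x) :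
    ∃ (N : ℕ) (w : ℝ) (p m : ℕ → ℝ), 0 < w ∧ (∀ j, p (j + 1) = p j + w) ∧ (∀ j, 0 ≤ m j) ∧
      (∀ j < N, ∀ x, p j ≤ x → x ≤ p (j + 1) → m j ≤ g x) ∧
      I < ∑ j ∈ range N, w * m j := by
  set ω := ((∫ x in (-Λ)..Λ, g x) - I) / (8 * Λ) with hω
  have hω0 : 0 < ω := div_pos (by linarith) (by linarith)
  have huc := isCompact_Icc.uniformContinuousOn_of_continuous (hg.continuousOn (s := Set.Icc (-Λ) Λ))
  obtain ⟨η, hη, hη'⟩ := Metric.uniformContinuousOn_iff.mp huc ω hω0
  obtain ⟨N, hN⟩ := exists_nat_gt (2 * Λ / η)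
  have hNpos : (0 : ℝ) < N := lt_of_le_of_lt (by positivity) hN
  set w := 2 * Λ / N with hw
  have hw0 : 0 < w := by positivity
  have hwη : w < η := by
    rw [hw, div_lt_iff₀ hNpos]
    rw [div_lt_iff₀ hη] at hN
    linarith
  have hNw : N * w = 2 * Λ := by rw [hw]; field_simp
  set p : ℕ → ℝ := fun j => -Λ + j * w with hp
  have hpj : ∀ j, p (j + 1) = p j + w := by intro j; simp only [hp]; push_cast; ring
  set m : ℕ → ℝ := fun j => max 0 (g (p j) - ω) with hm
  have hin : ∀ j < N, ∀ x, p j ≤ x → x ≤ p (j + 1) → |g x - g (p j)| < ω := by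
    intro j hj x h1 h2
    have hjN : (j : ℝ) + 1 ≤ N := by exact_mod_cast hj
    have hj0 : (0 : ℝ) ≤ j := Nat.cast_nonneg j
    have e1 : -Λ ≤ p j := by simp only [hp]; nlinarith
    have e2 : p (j + 1) ≤ Λ := by
      simp only [hp]; push_cast
      nlinarith
    have h3 := hη' x ⟨by linarith, by linarith⟩ (p j) ⟨e1, by linarith⟩ (by
      rw [Real.dist_eq, abs_of_nonneg (by linarith)]
      rw [hpj] at h2
      linarith)
    rwa [Real.dist_eq] at h3
  refine ⟨N, w, p, m, hw0, hpj, fun j => le_max_left _ _, ?_, ?_⟩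
  · intro j hj x h1 h2
    have h3 := abs_lt.mp (hin j hj x h1 h2)
    exact max_le (hg0 x) (by linarith)
  · have hsum : ∫ x in (-Λ)..Λ, g x = ∑ j ∈ range N, ∫ x in (p j)..(p (j + 1)), g x := by
      rw [intervalIntegral.sum_integral_adjacent_intervals
        (fun k _ => hg.intervalIntegrable _ _)]
      have e1 : p 0 = -Λ := by simp [hp]
      have e2 : p N = Λ := by simp only [hp]; rw [hNw]; ring
      rw [e1, e2]
    have hcell : ∀ j ∈ range N, ∫ x in (p j)..(p (j + 1)), g x ≤ w * m j + w * (2 * ω) := by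
      intro j hj
      rw [mem_range] at hj
      have h1 : ∫ x in (p j)..(p (j + 1)), g x ≤ ∫ _x in (p j)..(p (j + 1)), (m j + 2 * ω) := by
        apply intervalIntegral.integral_mono_on (by rw [hpj]; linarith) (hg.intervalIntegrable _ _)
          intervalIntegrable_const
        intro x hx
        have h3 := abs_lt.mp (hin j hj x hx.1 hx.2)
        have h4 : g (p j) - ω ≤ m j := le_max_right _ _
        linarith
      rw [intervalIntegral.integral_const, hpj, smul_eq_mul] at h1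
      have e : p j + w - p j = w := by ring
      rw [e] at h1
      rw [hpj j]
      linarith
    have h2 := sum_le_sum hcell
    rw [← hsum, sum_add_distrib, sum_const, card_range, nsmul_eq_mul] at h2
    have h3 : (N : ℝ) * (w * (2 * ω)) = ((∫ x in (-Λ)..Λ, g x) - I) / 2 := by
      calc (N : ℝ) * (w * (2 * ω)) = (N * w) * (2 * ω) := by ring
        _ = ((∫ x in (-Λ)..Λ, g x) - I) / 2 := by rw [hNw, hω]; field_simp; ring
    rw [h3] at h2
    linarith

theorem sum_lower (g : ℝ → ℝ) (hg : Continuous g) (hg0 : ∀ x, 0 ≤ g x)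
    (hgi : MeasureTheory.Integrable g) (A : ℝ) (hA : A < 3 / (2 * Real.pi ^ 2) * ∫ x, g x) :
    ∃ L0 : ℕ, ∀ L : ℕ, L0 ≤ L → ∀ (hJ : (J L).IsHermitian) (μ : Fin L → ℝ),
      IsMu L hJ μ → A * Real.log L ≤ ∑ i, g (Real.log (μ i)) := by
  classical
  by_cases hA0 : A ≤ 0
  · refine ⟨1, fun L hL hJ μ _ => ?_⟩
    have h1 : 0 ≤ Real.log L := Real.log_nonneg (by exact_mod_cast hL)
    have h2 : 0 ≤ ∑ i, g (Real.log (μ i)) := sum_nonneg fun i _ => hg0 _
    nlinarith
  push Not at hA0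
  set c := 3 / (2 * Real.pi ^ 2) with hc
  have hc0 : 0 < c := by have := Real.pi_pos; positivity
  -- truncation
  have htend := intervalIntegral_tendsto_integral hgi
    (Filter.tendsto_neg_atTop_atBot.comp (Filter.tendsto_id (α := ℝ)))
    (Filter.tendsto_id (α := ℝ) (x := Filter.atTop))
  have hlt : A / c < ∫ x, g x := by rw [div_lt_iff₀' hc0]; exact hA
  obtain ⟨Λ, hΛ1, hΛ2⟩ := ((htend.eventually_const_lt hlt).and (Filter.eventually_gt_atTop 0)).exists
  have hΛ1' : A / c < ∫ x in (-Λ)..Λ, g x := hΛ1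
  obtain ⟨N, w, p, m, hw0, hp, hm0, hm, hI⟩ := Z_step g hg hg0 Λ (A / c) hΛ2 hΛ1'
  set X := ∑ j ∈ range N, w * m j with hX
  have hX0 : 0 < X := lt_trans (by positivity) hI
  have hcX : A < c * X := by rwa [div_lt_iff₀' hc0] at hI
  have hcX0 : 0 < c * X := by positivity
  -- the small parameter
  set δ := (1 - A / (c * X)) / 2 with hδ
  have hratio : A / (c * X) < 1 := by rw [div_lt_one hcX0]; exact hcX
  have hratio0 : 0 < A / (c * X) := by positivity
  have hδ0 : 0 < δ := by rw [hδ]; linarith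
  have hδ1 : δ < 1 := by rw [hδ]; linarith
  have hδA : A ≤ c * X * (1 - δ) ^ 2 := by
    have h1 : A / (c * X) ≤ (1 - δ) ^ 2 := by
      have : A / (c * X) = 1 - 2 * δ := by rw [hδ]; ring
      rw [this]; nlinarith [sq_nonneg δ]
    rw [div_le_iff₀ hcX0] at h1
    linarith
  -- the density on the cells
  have hdens : ∀ j : ℕ, ∃ L0 : ℕ, ∀ L : ℕ, L0 ≤ L →
      ∀ (hJ : (J L).IsHermitian) (μ : Fin L → ℝ), IsMu L hJ μ →
      c * (w * (1 - δ)) * (1 - δ) * Real.log L ≤
        ((univ.filter (fun i => p j ≤ Real.log (μ i) ∧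
          Real.log (μ i) ≤ p j + w * (1 - δ))).card : ℝ) := by
    intro j
    have hwδ : 0 < w * (1 - δ) := mul_pos hw0 (by linarith)
    obtain ⟨L0, h0⟩ := density (p j) (p j + w * (1 - δ)) δ (by linarith) hδ0
    refine ⟨L0, fun L hL hJ μ hμ => ?_⟩
    have h1 := h0 L hL hJ μ hμ
    have e : p j + w * (1 - δ) - p j = w * (1 - δ) := by ring
    rw [e] at h1
    exact h1
  choose L0 hL0 using hdens
  refine ⟨max 1 ((range N).sup L0), fun L hL hJ μ hμ => ?_⟩
  have hL1 : 1 ≤ L := le_trans (le_max_left _ _) hL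
  have hlog : 0 ≤ Real.log L := Real.log_nonneg (by exact_mod_cast hL1)
  have hLj : ∀ j ∈ range N, L0 j ≤ L := fun j hj =>
    (Finset.le_sup (f := L0) hj).trans ((le_max_right _ _).trans hL)
  -- disjoint cells
  set C : ℕ → Finset (Fin L) := fun j => univ.filter (fun i => p j ≤ Real.log (μ i) ∧
          Real.log (μ i) ≤ p j + w * (1 - δ)) with hC
  have hmono : ∀ j k : ℕ, j < k → p j + w ≤ p k := by
    intro j k hjk
    induction k with
    | zero => omega
    | succ k ih =>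
      rcases Nat.lt_succ_iff_lt_or_eq.mp hjk with h | h
      · have := ih h
        rw [hp k]; linarith
      · subst h; rw [hp j]
  have hwlt : w * (1 - δ) < w := by nlinarith
  have hdisj : (range N : Set ℕ).PairwiseDisjoint C := by
    intro j _ k _ hjk
    rw [Function.onFun, disjoint_left]
    intro i hi hi'
    simp only [hC, mem_filter, mem_univ, true_and] at hi hi'
    rcases lt_or_gt_of_ne hjk with h | h
    · have := hmono j k h; linarith
    · have := hmono k j h; linarith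
  calc A * Real.log L ≤ c * X * (1 - δ) ^ 2 * Real.log L := mul_le_mul_of_nonneg_right hδA hlog
    _ = ∑ j ∈ range N, m j * (c * (w * (1 - δ)) * (1 - δ) * Real.log L) := by
        rw [hX, mul_sum, sum_mul, sum_mul]
        apply sum_congr rfl
        intro j _; ring
    _ ≤ ∑ j ∈ range N, m j * ((C j).card : ℝ) := by
        apply sum_le_sum
        intro j hj
        exact mul_le_mul_of_nonneg_left (hL0 j L (hLj j hj) hJ μ hμ) (hm0 j)
    _ ≤ ∑ j ∈ range N, ∑ i ∈ C j, g (Real.log (μ i)) := by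
        apply sum_le_sum
        intro j hj
        rw [mul_comm, ← nsmul_eq_mul]
        apply card_nsmul_le_sum
        intro i hi
        simp only [hC, mem_filter, mem_univ, true_and] at hi
        apply hm j (mem_range.mp hj) _ hi.1
        rw [hp j]; linarith [hi.2]
    _ = ∑ i ∈ (range N).biUnion C, g (Real.log (μ i)) := (sum_biUnion hdisj).symm
    _ ≤ ∑ i, g (Real.log (μ i)) :=
        sum_le_sum_of_subset_of_nonneg (subset_univ _) (fun i _ _ => hg0 _)

/-- the exponent -/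
noncomputable def ex (θ : ℝ) : ℝ := 3 / 4 * (θ ^ 2 / Real.pi ^ 2 - 1 / 9)

theorem Z_cos_gt {θ : ℝ} (h0 : 0 ≤ θ) (h1 : θ < Real.pi) : -1 < Real.cos θ := by
  rw [← Real.cos_pi]
  exact Real.cos_lt_cos_of_nonneg_of_le_pi h0 le_rfl h1

theorem Z_pos {θ : ℝ} (h0 : 0 ≤ θ) (h1 : θ < Real.pi) (x : ℝ) :
    0 < 2 * Real.cosh x + 2 * Real.cos θ := by
  have := Real.one_le_cosh x
  have := Z_cos_gt h0 h1
  linarith

theorem Z_pos1 (x : ℝ) : 0 < 2 * Real.cosh x + 1 := by
  have := Real.one_le_cosh x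
  linarith

/-- the logarithm of the determinant -/
theorem Z_log_det {L : ℕ} {hJ : (J L).IsHermitian} {μ : Fin L → ℝ} (hμ : IsMu L hJ μ) {θ : ℝ}
    (h0 : 0 ≤ θ) (h1 : θ < Real.pi) :
    0 < ‖(wB L (Complex.exp (θ * Complex.I))).det‖ ∧
    2 * Real.log ‖(wB L (Complex.exp (θ * Complex.I))).det‖ =
      ∑ i, Real.log (2 * Real.cosh (Real.log (μ i)) + 2 * Real.cos θ) := by
  have h2 := hμ.2.2.2 θ
  have hprod : 0 < ∏ i, (2 * Real.cosh (Real.log (μ i)) + 2 * Real.cos θ) :=
    prod_pos fun i _ => Z_pos h0 h1 _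
  have hpos : 0 < ‖(wB L (Complex.exp (θ * Complex.I))).det‖ := by
    rw [← h2] at hprod
    rcases (norm_nonneg (wB L (Complex.exp (θ * Complex.I))).det).eq_or_lt with h | h
    · rw [← h] at hprod; norm_num at hprod
    · exact h
  refine ⟨hpos, ?_⟩
  rw [← Real.log_prod (fun i _ => (Z_pos h0 h1 _).ne'), ← h2, Real.log_pow]
  norm_num

theorem Z_sum_log {L : ℕ} {hJ : (J L).IsHermitian} {μ : Fin L → ℝ} (hμ : IsMu L hJ μ) {θ : ℝ}
    (h0 : 0 ≤ θ) (h1 : θ < Real.pi) :
    ∑ i, Real.log ((2 * Real.cosh (Real.log (μ i)) + 1) /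
      (2 * Real.cosh (Real.log (μ i)) + 2 * Real.cos θ)) =
    2 * Real.log ‖(wB L (Complex.exp ((Real.pi / 3 : ℝ) * Complex.I))).det‖ -
      2 * Real.log ‖(wB L (Complex.exp (θ * Complex.I))).det‖ := by
  have hπ := Real.pi_pos
  have h2 := (Z_log_det hμ (θ := Real.pi / 3) (by positivity) (by linarith)).2
  have h3 := (Z_log_det hμ h0 h1).2
  rw [h2, h3, ← sum_sub_distrib]
  apply sum_congr rfl
  intro i _
  rw [Real.cos_pi_div_three]
  have e : 2 * Real.cosh (Real.log (μ i)) + 2 * (1 / 2) = 2 * Real.cosh (Real.log (μ i)) + 1 := by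
    ring
  rw [e, Real.log_div (Z_pos1 _).ne' (Z_pos h0 h1 _).ne']

theorem Z_cont {θ : ℝ} (h0 : 0 ≤ θ) (h1 : θ < Real.pi) : Continuous (fun x : ℝ =>
      Real.log ((2 * Real.cosh x + 1) / (2 * Real.cosh x + 2 * Real.cos θ))) := by
  apply Continuous.log
  · apply Continuous.div
    · exact (continuous_const.mul Real.continuous_cosh).add continuous_const
    · exact (continuous_const.mul Real.continuous_cosh).add continuous_const
    · intro x; exact (Z_pos h0 h1 x).ne'
  · intro x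
    exact (div_pos (Z_pos1 x) (Z_pos h0 h1 x)).ne'

theorem Z_herm (L : ℕ) : (J L).IsHermitian := by
  have h := J_symm L
  unfold Matrix.IsHermitian
  rw [Matrix.conjTranspose_eq_transpose_of_trivial]
  exact h

theorem det_upper (θ δ : ℝ) (h1 : Real.pi / 3 ≤ θ) (h2 : θ < Real.pi) (hδ : 0 < δ) :
    ∃ L0 : ℕ, ∀ L : ℕ, L0 ≤ L →
      ‖(wB L (Complex.exp (θ * Complex.I))).det‖ ≤
        (L : ℝ) ^ (-(ex θ) + δ) * ‖(wB L (Complex.exp ((Real.pi / 3 : ℝ) * Complex.I))).det‖ := by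
  have hπ := Real.pi_pos
  have h0 : 0 ≤ θ := by linarith
  have hcos : Real.cos θ ≤ 1 / 2 := by
    rw [← Real.cos_pi_div_three]
    exact Real.cos_le_cos_of_nonneg_of_le_pi (by positivity) h2.le h1
  obtain ⟨hint, hval⟩ := integral_log θ h0 h2
  obtain ⟨L0, hL0⟩ := sum_lower _ (Z_cont h0 h2) (by
    intro x
    apply Real.log_nonneg
    rw [one_le_div (Z_pos h0 h2 x)]
    linarith) hint (2 * ex θ - 2 * δ) (by
    rw [hval]
    have : 3 / (2 * Real.pi ^ 2) * (θ ^ 2 - Real.pi ^ 2 / 9) = 2 * ex θ := by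
      unfold ex; field_simp; ring
    rw [this]; linarith)
  refine ⟨max 1 L0, fun L hL => ?_⟩
  have hL1 : 1 ≤ L := le_trans (le_max_left _ _) hL
  have hLpos : (0 : ℝ) < L := by exact_mod_cast hL1
  obtain ⟨μ, hμ⟩ := det_wB L (by omega) (Z_herm L)
  have h3 := hL0 L (le_trans (le_max_right _ _) hL) (Z_herm L) μ hμ
  rw [Z_sum_log hμ h0 h2] at h3
  have hp1 := (Z_log_det hμ h0 h2).1
  have hp2 := (Z_log_det hμ (θ := Real.pi / 3) (by positivity) (by linarith)).1
  rw [← Real.log_le_log_iff hp1 (by positivity), Real.log_mul (by positivity) hp2.ne',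
    Real.log_rpow hLpos]
  linarith

theorem det_lower (θ δ : ℝ) (h1 : Real.pi / 3 ≤ θ) (h2 : θ ≤ 2 * Real.pi / 3) (hδ : 0 < δ) :
    ∃ δ' : ℝ, 0 < δ' ∧ ∃ L0 : ℕ, ∀ L : ℕ, L0 ≤ L →
      (L : ℝ) ^ (-(1 / 4 : ℝ) - δ') * ‖(wB L (Complex.exp ((Real.pi / 3 : ℝ) * Complex.I))).det‖ ≤
        ‖(wB L (Complex.exp ((2 * Real.pi / 3 : ℝ) * Complex.I))).det‖ →
      (L : ℝ) ^ (-(ex θ) - δ) * ‖(wB L (Complex.exp ((Real.pi / 3 : ℝ) * Complex.I))).det‖ ≤
        ‖(wB L (Complex.exp (θ * Complex.I))).det‖ := by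
  have hπ := Real.pi_pos
  have h0 : 0 ≤ θ := by linarith
  have h2' : θ < Real.pi := by linarith
  have h3 : 0 ≤ 2 * Real.pi / 3 := by positivity
  have h3' : 2 * Real.pi / 3 < Real.pi := by linarith
  have hcos : Real.cos (2 * Real.pi / 3) ≤ Real.cos θ :=
    Real.cos_le_cos_of_nonneg_of_le_pi h0 h3'.le h2
  obtain ⟨hint, hval⟩ := integral_log θ h0 h2'
  obtain ⟨hint3, hval3⟩ := integral_log (2 * Real.pi / 3) h3 h3'
  obtain ⟨L0, hL0⟩ := sum_lower _ ((Z_cont h3 h3').sub (Z_cont h0 h2')) (by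
    intro x
    simp only [Pi.sub_apply]
    rw [sub_nonneg]
    apply Real.log_le_log (div_pos (Z_pos1 x) (Z_pos h0 h2' x))
    apply div_le_div_of_nonneg_left (Z_pos1 x).le (Z_pos h3 h3' x)
    linarith) (hint3.sub hint) (1 / 2 - 2 * ex θ - δ) (by
    have e : ∫ x : ℝ, ((fun x : ℝ => Real.log ((2 * Real.cosh x + 1) /
        (2 * Real.cosh x + 2 * Real.cos (2 * Real.pi / 3)))) - (fun x : ℝ =>
        Real.log ((2 * Real.cosh x + 1) / (2 * Real.cosh x + 2 * Real.cos θ)))) x =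
        4 * Real.pi ^ 2 / 9 - θ ^ 2 := by
      simp only [Pi.sub_apply]
      rw [integral_sub hint3 hint, hval, hval3]; ring
    rw [e]
    have : 3 / (2 * Real.pi ^ 2) * (4 * Real.pi ^ 2 / 9 - θ ^ 2) = 1 / 2 - 2 * ex θ := by
      unfold ex; field_simp; ring
    rw [this]; linarith)
  refine ⟨δ / 2, by positivity, max 1 L0, fun L hL hhyp => ?_⟩
  have hL1 : 1 ≤ L := le_trans (le_max_left _ _) hL
  have hLpos : (0 : ℝ) < L := by exact_mod_cast hL1
  obtain ⟨μ, hμ⟩ := det_wB L (by omega) (Z_herm L)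
  have h4 := hL0 L (le_trans (le_max_right _ _) hL) (Z_herm L) μ hμ
  simp only [Pi.sub_apply] at h4
  rw [sum_sub_distrib, Z_sum_log hμ h0 h2', Z_sum_log hμ h3 h3'] at h4
  have hp1 := (Z_log_det hμ h0 h2').1
  have hp2 := (Z_log_det hμ (θ := Real.pi / 3) (by positivity) (by linarith)).1
  have hp3 := (Z_log_det hμ h3 h3').1
  rw [← Real.log_le_log_iff (by positivity) hp3, Real.log_mul (by positivity) hp2.ne',
    Real.log_rpow hLpos] at hhyp
  rw [← Real.log_le_log_iff (by positivity) hp1, Real.log_mul (by positivity) hp2.ne',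
    Real.log_rpow hLpos]
  linarith

/-- `θ = π/2`: the exponent `5/48` -/
theorem ex_half : ex (Real.pi / 2) = 5 / 48 := by
  unfold ex
  have := Real.pi_pos
  field_simp
  norm_num

end Pool.Agent.H160R2.OA
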