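import Pool.Agent.H160R2.OA.Defs

/-! Task G: the generating function of the Meixner-Pollaczek polynomials at `1/2` -/

set_option autoImplicit false

namespace Pool.Agent.H160R2.OA
open Finset

theorem G_rec (y : ℝ) (j : ℕ) :
    ((j : ℝ) + 1) * P y (j + 1) = (√3 * y + j + 1 / 2) * P y j - j * P y (j - 1) := by
  rcases j with _ | j
  · simp [P]
  · have h : ((j : ℝ) + 2) ≠ 0 := by positivity
    simp only [P, Nat.add_sub_cancel]
    push_cast
    field_simp
    ring

theorem G_summable (y C : ℝ) (hC : ∀ j, |P y j| ≤ C) (x : ℝ) (hx : |x| < 1) :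
    Summable (fun n : ℕ => P y n * x ^ n) := by
  refine Summable.of_norm_bounded (g := fun n : ℕ => C * |x| ^ n)
    ((summable_geometric_of_lt_one (abs_nonneg x) hx).mul_left C) fun n => ?_
  rw [Real.norm_eq_abs, abs_mul, abs_pow]
  exact mul_le_mul_of_nonneg_right (hC n) (by positivity)

theorem G_deriv (y C : ℝ) (hC : ∀ j, |P y j| ≤ C) (x : ℝ) (hx : |x| < 3 / 4) :
    HasDerivAt (fun z : ℝ => ∑' n : ℕ, P y n * z ^ n) (∑' n : ℕ, P y n * (n * x ^ (n - 1))) x ∧
    Summable (fun n : ℕ => P y n * (n * x ^ (n - 1))) := by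
  have hC0 : 0 ≤ C := (abs_nonneg _).trans (hC 0)
  have hu : Summable (fun n : ℕ => C * ((n : ℝ) * (3 / 4 : ℝ) ^ (n - 1))) := by
    refine Summable.mul_left C ?_
    rw [← summable_nat_add_iff 1]
    have h1 : Summable (fun n : ℕ => (n : ℝ) ^ 1 * (3 / 4 : ℝ) ^ n) :=
      summable_pow_mul_geometric_of_norm_lt_one 1 (by rw [Real.norm_eq_abs, abs_of_pos] <;> norm_num)
    have h2 : Summable (fun n : ℕ => (3 / 4 : ℝ) ^ n) :=
      summable_geometric_of_lt_one (by norm_num) (by norm_num)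
    refine (h1.add h2).congr fun n => ?_
    simp only [Nat.add_sub_cancel]
    push_cast
    ring
  have hb : ∀ (n : ℕ) (z : ℝ), z ∈ Set.Ioo (-(3 / 4) : ℝ) (3 / 4) →
      ‖P y n * (n * z ^ (n - 1))‖ ≤ C * ((n : ℝ) * (3 / 4 : ℝ) ^ (n - 1)) := by
    intro n z hz
    have hz' : |z| ≤ 3 / 4 := abs_le.2 ⟨hz.1.le, hz.2.le⟩
    rw [Real.norm_eq_abs, abs_mul, abs_mul, abs_pow, Nat.abs_cast]
    have := hC n
    gcongr
  have hx' : x ∈ Set.Ioo (-(3 / 4) : ℝ) (3 / 4) := abs_lt.1 hx
  refine ⟨?_, Summable.of_norm_bounded hu fun n => hb n x hx'⟩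
  refine hasDerivAt_tsum_of_isPreconnected hu isOpen_Ioo isPreconnected_Ioo (fun n z hz => ?_) hb
    (y₀ := 0) (by constructor <;> norm_num) ?_ hx'
  · exact (hasDerivAt_pow n z).const_mul (P y n)
  · exact G_summable y C hC 0 (by simp)

theorem G_ode (y C : ℝ) (hC : ∀ j, |P y j| ≤ C) (x : ℝ) (hx : |x| < 3 / 4) :
    (1 - x + x ^ 2) * (∑' n : ℕ, P y n * (n * x ^ (n - 1))) =
      (1 / 2 - x + √3 * y) * ∑' n : ℕ, P y n * x ^ n := by
  set G := ∑' n : ℕ, P y n * x ^ n with hG
  set G' := ∑' n : ℕ, P y n * (n * x ^ (n - 1)) with hG'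
  have h0 : HasSum (fun n : ℕ => P y n * x ^ n) G := (G_summable y C hC x (by linarith)).hasSum
  have h1 : HasSum (fun n : ℕ => P y n * (n * x ^ (n - 1))) G' := (G_deriv y C hC x hx).2.hasSum
  have h1s : HasSum (fun n : ℕ => P y (n + 1) * (((n : ℝ) + 1) * x ^ n)) G' := by
    have h := (hasSum_nat_add_iff (f := fun n : ℕ => P y n * (n * x ^ (n - 1))) 1 (g := G')).2
      (by simpa using h1)
    have e : (fun n : ℕ => P y (n + 1) * (((n + 1 : ℕ) : ℝ) * x ^ (n + 1 - 1))) =
        fun n : ℕ => P y (n + 1) * (((n : ℝ) + 1) * x ^ n) := by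
      ext n
      simp only [Nat.add_sub_cancel]
      push_cast
      ring
    rw [← e]
    exact h
  have h2 : HasSum (fun n : ℕ => P y n * (n * x ^ n)) (x * G') := by
    have h := h1.mul_left x
    have e : (fun n : ℕ => x * (P y n * (n * x ^ (n - 1)))) = fun n : ℕ => P y n * (n * x ^ n) := by
      ext n
      rcases n with _ | n
      · simp
      · simp only [Nat.add_sub_cancel]
        push_cast
        ring
    rwa [e] at h
  have h3 : HasSum (fun n : ℕ => n * P y (n - 1) * x ^ n) (x * (x * G' + G)) := by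
    have h := (h2.add h0).mul_left x
    refine (hasSum_nat_add_iff (f := fun n : ℕ => n * P y (n - 1) * x ^ n) 1
      (g := x * (x * G' + G))).1 ?_ |> fun t => by simpa using t
    have e : (fun n : ℕ => x * (P y n * (n * x ^ n) + P y n * x ^ n)) =
        fun n : ℕ => ((n + 1 : ℕ) : ℝ) * P y (n + 1 - 1) * x ^ (n + 1) := by
      ext n
      simp only [Nat.add_sub_cancel]
      push_cast
      ring
    rwa [e] at h
  have h4 : HasSum (fun n : ℕ => P y (n + 1) * (((n : ℝ) + 1) * x ^ n))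
      ((√3 * y + 1 / 2) * G + x * G' - x * (x * G' + G)) := by
    have h := ((h0.mul_left (√3 * y + 1 / 2)).add h2).sub h3
    have e : (fun n : ℕ => (√3 * y + 1 / 2) * (P y n * x ^ n) + P y n * (n * x ^ n) -
        n * P y (n - 1) * x ^ n) = fun n : ℕ => P y (n + 1) * (((n : ℝ) + 1) * x ^ n) := by
      ext n
      have hr := G_rec y n
      linear_combination (-x ^ n) * hr
    rwa [e] at h
  have h5 := h1s.unique h4
  linear_combination h5

/-- the phase -/
noncomputable def G_A (x : ℝ) : ℝ := 2 / √3 * (Real.arctan ((2 * x - 1) / √3) + Real.pi / 6)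

theorem G_A_deriv (x : ℝ) : HasDerivAt G_A (1 / (1 - x + x ^ 2)) x := by
  have h3 : √3 ^ 2 = 3 := Real.sq_sqrt (by norm_num)
  have h30 : (0 : ℝ) < √3 := by positivity
  have hpos : 0 < 1 - x + x ^ 2 := by nlinarith [sq_nonneg (x - 1 / 2)]
  have h1 : HasDerivAt (fun x : ℝ => (2 * x - 1) / √3) (2 / √3) x := by
    have := (((hasDerivAt_id x).const_mul 2).sub_const 1).div_const √3
    simpa using this
  have h2 := (h1.arctan.add_const (Real.pi / 6)).const_mul (2 / √3)
  refine h2.congr_deriv ?_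
  have h4 : 1 + ((2 * x - 1) / √3) ^ 2 = 4 / 3 * (1 - x + x ^ 2) := by
    rw [div_pow, h3]; ring
  rw [h4]
  field_simp
  rw [h3]
  ring

theorem G_A_zero : G_A 0 = 0 := by
  unfold G_A
  have h1 : Real.arctan ((2 * 0 - 1) / √3) = -(Real.pi / 6) := by
    have h2 : (2 * 0 - 1) / √3 = Real.tan (-(Real.pi / 6)) := by
      rw [Real.tan_neg, Real.tan_pi_div_six]; ring
    rw [h2, Real.arctan_tan] <;> linarith [Real.pi_pos]
  rw [h1]; ring

theorem G_A_half : √3 * G_A (1 / 2) = Real.pi / 3 := by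
  unfold G_A
  have h30 : (0 : ℝ) < √3 := by positivity
  have h1 : (2 * (1 / 2 : ℝ) - 1) / √3 = 0 := by norm_num
  rw [h1, Real.arctan_zero]
  field_simp
  ring

theorem P_gen (y C : ℝ) (hC : ∀ j, |P y j| ≤ C) :
    HasSum (fun j => P y j / 2 ^ j) (2 / √3 * Real.exp (Real.pi * y / 3)) := by
  have h3 : √3 ^ 2 = 3 := Real.sq_sqrt (by norm_num)
  have h30 : (0 : ℝ) < √3 := by positivity
  set G : ℝ → ℝ := fun z => ∑' n : ℕ, P y n * z ^ n with hG
  have hpos : ∀ x : ℝ, 0 < 1 - x + x ^ 2 := fun x => by nlinarith [sq_nonneg (x - 1 / 2)]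
  set H : ℝ → ℝ := fun x => G x * √(1 - x + x ^ 2) * Real.exp (-(√3 * y * G_A x)) with hH
  have hHd : ∀ x : ℝ, |x| < 3 / 4 → HasDerivAt H 0 x := by
    intro x hx
    have h1 := (G_deriv y C hC x hx).1
    have h2 : HasDerivAt (fun x : ℝ => 1 - x + x ^ 2) (-1 + 2 * x) x := by
      have h : HasDerivAt (fun x : ℝ => 1 - x + x ^ 2) (-1 + ((2 : ℕ) : ℝ) * x ^ (2 - 1)) x :=
        ((hasDerivAt_id x).const_sub 1).add (hasDerivAt_pow 2 x)
      simpa using h
    have h4 := h2.sqrt (hpos x).ne'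
    have h5 := (((G_A_deriv x).const_mul (√3 * y)).neg).exp
    have h6 := (h1.mul h4).mul h5
    refine h6.congr_deriv ?_
    have hode := G_ode y C hC x hx
    have hs : 0 < √(1 - x + x ^ 2) := Real.sqrt_pos.2 (hpos x)
    have hs2 : √(1 - x + x ^ 2) ^ 2 = 1 - x + x ^ 2 := Real.sq_sqrt (hpos x).le
    have hp := hpos x
    simp only [Pi.mul_apply]
    set g' := ∑' n : ℕ, P y n * (n * x ^ (n - 1))
    set g := ∑' n : ℕ, P y n * x ^ n
    set s := √(1 - x + x ^ 2)
    set E := Real.exp (-(√3 * y * G_A x))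
    have hne : s ≠ 0 := hs.ne'
    have hpne : 1 - x + x ^ 2 ≠ 0 := hp.ne'
    have hE : Real.exp ((-fun y_1 => √3 * y * G_A y_1) x) = E := rfl
    rw [hE]
    have key : g' * s + g * ((-1 + 2 * x) / (2 * s)) + g * s * (-(√3 * y * (1 / (1 - x + x ^ 2)))) = 0 := by
      have hg' : g' = (1 / 2 - x + √3 * y) * g / s ^ 2 := by
        rw [hs2, eq_div_iff hpne]
        linear_combination hode
      rw [hg', ← hs2]
      field_simp
      ring
    linear_combination E * key
  have hconst := constant_of_has_deriv_right_zero (f := H) (a := 0) (b := 1 / 2)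
    (fun x hx => ((hHd x (by rw [abs_of_nonneg hx.1]; linarith [hx.2])).continuousAt).continuousWithinAt)
    (fun x hx => (hHd x (by rw [abs_of_nonneg hx.1]; linarith [hx.2])).hasDerivWithinAt)
    (1 / 2) ⟨by norm_num, le_refl _⟩
  have hG0 : G 0 = 1 := by
    rw [hG]
    simp only
    rw [tsum_eq_single 0]
    · simp [P]
    · intro n hn
      simp [hn]
  have hH0 : H 0 = 1 := by
    rw [hH]
    simp only
    rw [hG0, G_A_zero]
    simp
  have hHh : H (1 / 2) = G (1 / 2) * (√3 / 2) * Real.exp (-(Real.pi * y / 3)) := by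
    rw [hH]
    simp only
    have e1 : √(1 - 1 / 2 + (1 / 2 : ℝ) ^ 2) = √3 / 2 := by
      rw [show (1 - 1 / 2 + (1 / 2 : ℝ) ^ 2) = 3 / 2 ^ 2 by norm_num, Real.sqrt_div (by norm_num),
        Real.sqrt_sq (by norm_num)]
    have e2 : √3 * y * G_A (1 / 2) = Real.pi * y / 3 := by
      have := G_A_half
      linear_combination y * this
    rw [e1, e2]
  rw [hH0, hHh] at hconst
  have hval : G (1 / 2) = 2 / √3 * Real.exp (Real.pi * y / 3) := by
    rw [Real.exp_neg] at hconst
    have he : 0 < Real.exp (Real.pi * y / 3) := Real.exp_pos _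
    field_simp at hconst ⊢
    linarith
  have hsum := (G_summable y C hC (1 / 2) (by rw [abs_of_pos] <;> norm_num)).hasSum
  have e : (fun n : ℕ => P y n * (1 / 2 : ℝ) ^ n) = fun n : ℕ => P y n / 2 ^ n := by
    ext n
    rw [one_div, inv_pow]
    ring
  rw [e] at hsum
  have e2 : (∑' n : ℕ, P y n / 2 ^ n) = G (1 / 2) := by
    rw [hG]
    simp only
    rw [← e]
  rw [e2, hval] at hsum
  exact hsum

end Pool.Agent.H160R2.OA
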