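import Pool.Agent.H160R2.OA.Defs

/-! Task Q: for fixed `j` the solutions of the recurrence converge. -/

set_option autoImplicit false

namespace Pool.Agent.H160R2.OA

lemma Q_P_rec (y : ℝ) (j : ℕ) : ((j : ℝ) + 2) * P y (j + 2) =
    (√3 * y + ((j : ℝ) + 1) + 1 / 2) * P y (j + 1) - ((j : ℝ) + 1) * P y j := by
  have h : (0 : ℝ) < (j : ℝ) + 2 := by positivity
  rw [P]
  field_simp

lemma Q_P_bd (Y : ℝ) (hY : 0 ≤ Y) (j : ℕ) : ∃ C : ℝ, 0 ≤ C ∧ ∀ y : ℝ, |y| ≤ Y → |P y j| ≤ C := by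
  induction j using Nat.twoStepInduction with
  | zero => exact ⟨1, by norm_num, fun y _ => by simp [P]⟩
  | one =>
    refine ⟨√3 * Y + 1 / 2, by positivity, fun y hy => ?_⟩
    rw [P]
    refine (abs_add_le _ _).trans ?_
    rw [abs_mul, abs_of_nonneg (Real.sqrt_nonneg 3), abs_of_nonneg (by norm_num : (0 : ℝ) ≤ 1 / 2)]
    gcongr
  | more j ih0 ih1 =>
    obtain ⟨C0, hC0, h0⟩ := ih0
    obtain ⟨C1, hC1, h1⟩ := ih1
    refine ⟨(√3 * Y + ((j : ℝ) + 1) + 1 / 2) * C1 + ((j : ℝ) + 1) * C0, by positivity,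
      fun y hy => ?_⟩
    have h2 := Q_P_rec y j
    have h3 : |√3 * y + ((j : ℝ) + 1) + 1 / 2| ≤ √3 * Y + ((j : ℝ) + 1) + 1 / 2 := by
      refine (abs_add_le _ _).trans ?_
      rw [abs_of_nonneg (by norm_num : (0 : ℝ) ≤ 1 / 2)]
      gcongr
      refine (abs_add_le _ _).trans ?_
      rw [abs_mul, abs_of_nonneg (Real.sqrt_nonneg 3),
        abs_of_nonneg (by positivity : (0 : ℝ) ≤ (j : ℝ) + 1)]
      gcongr
    have h4 : |((j : ℝ) + 2) * P y (j + 2)| ≤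
        (√3 * Y + ((j : ℝ) + 1) + 1 / 2) * C1 + ((j : ℝ) + 1) * C0 := by
      rw [h2]
      refine (abs_sub _ _).trans ?_
      rw [abs_mul, abs_mul, abs_of_nonneg (by positivity : (0 : ℝ) ≤ (j : ℝ) + 1)]
      gcongr
      · exact h1 y hy
      · exact h0 y hy
    rw [abs_mul, abs_of_nonneg (by positivity : (0 : ℝ) ≤ (j : ℝ) + 2)] at h4
    have h5 : |P y (j + 2)| ≤ ((j : ℝ) + 2) * |P y (j + 2)| := by
      have : 0 ≤ |P y (j + 2)| := abs_nonneg _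
      have : (0 : ℝ) ≤ j := by positivity
      nlinarith
    linarith

lemma Q_b_ge {L k : ℕ} (hk : 1 ≤ k) (hL : 2 * k ≤ L) : (k : ℝ) / 2 ≤ b L k := by
  have hk' : (1 : ℝ) ≤ k := by exact_mod_cast hk
  have hL' : 2 * (k : ℝ) ≤ L := by exact_mod_cast hL
  have hL0 : (0 : ℝ) < L := by linarith
  have h1 : (k : ℝ) ^ 2 / (L : ℝ) ^ 2 ≤ 1 / 2 := by
    rw [div_le_iff₀ (by positivity)]
    nlinarith
  unfold b
  nlinarith

theorem sol_lim (Y : ℝ) (j : ℕ) : ∃ C : ℝ, ∃ L0 : ℕ, ∀ L : ℕ, L0 ≤ L → ∀ y : ℝ, |y| ≤ Y →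
    |sol L (√3 * y) j - P y j| ≤ C / (L : ℝ) ^ 2 := by
  rcases lt_or_ge Y 0 with hY | hY
  · exact ⟨0, 0, fun L _ y hy => absurd (abs_nonneg y) (by linarith)⟩
  suffices H : ∃ C : ℝ, 0 ≤ C ∧ ∃ L0 : ℕ, ∀ L : ℕ, L0 ≤ L → ∀ y : ℝ, |y| ≤ Y →
      |sol L (√3 * y) j - P y j| ≤ C / (L : ℝ) ^ 2 by
    obtain ⟨C, -, h⟩ := H
    exact ⟨C, h⟩
  induction j using Nat.twoStepInduction with
  | zero =>
    refine ⟨0, le_rfl, 0, fun L _ y _ => ?_⟩
    simp [sol, P]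
  | one =>
    -- sol 1 = (e - a 0) / b 1
    refine ⟨2 * (1 / 2 + (√3 * Y + 1 / 2)), by positivity, 2, fun L hL y hy => ?_⟩
    have hL2 : (2 : ℝ) ≤ L := by exact_mod_cast hL
    have hL0 : (0 : ℝ) < L := by linarith
    have hb : (1 : ℝ) / 2 ≤ b L 1 := by
      have := Q_b_ge (L := L) (k := 1) le_rfl hL
      simpa using this
    have hb0 : 0 < b L 1 := by linarith
    have hb1 : b L 1 = 1 - 1 / (L : ℝ) ^ 2 := by
      unfold b
      push_cast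
      ring
    have ha0 : a L 0 = -(1 / 2) + (1 / 2) / (L : ℝ) ^ 2 := by
      unfold a
      push_cast
      field_simp
      ring
    have h1 : sol L (√3 * y) 1 - P y 1 =
        (-(1 / 2) + (√3 * y + 1 / 2)) / (L : ℝ) ^ 2 / b L 1 := by
      rw [sol, P, ha0, eq_div_iff hb0.ne', sub_mul, div_mul_cancel₀ _ hb0.ne', hb1]
      field_simp
      ring
    rw [h1, abs_div, abs_div, abs_of_pos hb0, abs_of_pos (by positivity : (0 : ℝ) < (L : ℝ) ^ 2),
      div_le_iff₀ hb0]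
    have h2 : |(-(1 / 2) + (√3 * y + 1 / 2) : ℝ)| ≤ 1 / 2 + (√3 * Y + 1 / 2) := by
      refine (abs_add_le _ _).trans ?_
      have h3 : |(-(1 / 2) : ℝ)| = 1 / 2 := by rw [abs_neg]; norm_num
      rw [h3]
      gcongr
      refine (abs_add_le _ _).trans ?_
      rw [abs_mul, abs_of_nonneg (Real.sqrt_nonneg 3),
        abs_of_nonneg (by norm_num : (0 : ℝ) ≤ 1 / 2)]
      gcongr
    have h4 : 0 ≤ (1 / 2 + (√3 * Y + 1 / 2)) / (L : ℝ) ^ 2 := by positivity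
    calc |(-(1 / 2) + (√3 * y + 1 / 2) : ℝ)| / (L : ℝ) ^ 2 ≤
        (1 / 2 + (√3 * Y + 1 / 2)) / (L : ℝ) ^ 2 := by gcongr
      _ ≤ 2 * (1 / 2 + (√3 * Y + 1 / 2)) / (L : ℝ) ^ 2 * b L 1 := by
          rw [mul_div_assoc]
          nlinarith
  | more j ih0 ih1 =>
    obtain ⟨C0, hC0, L0, h0⟩ := ih0
    obtain ⟨C1, hC1, L1, h1⟩ := ih1
    obtain ⟨K0, hK0, hP0⟩ := Q_P_bd Y hY j
    obtain ⟨K1, hK1, hP1⟩ := Q_P_bd Y hY (j + 1)
    obtain ⟨K2, hK2, hP2⟩ := Q_P_bd Y hY (j + 2)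
    set α : ℝ := (2 * ((j + 1 : ℕ) : ℝ) + 1) *
      (((j + 1 : ℕ) : ℝ) ^ 2 + ((j + 1 : ℕ) : ℝ) + 1 / 2) with hα
    have hα0 : 0 ≤ α := by positivity
    set D : ℝ := (√3 * Y + ((j : ℝ) + 1 + 1 / 2) + α) * C1 + ((j : ℝ) + 1) * C0 +
      (α * K1 + ((j : ℝ) + 1) ^ 3 * K0 + ((j : ℝ) + 2) ^ 3 * K2) with hD
    have hD0 : 0 ≤ D := by positivity
    refine ⟨D, hD0, max (max L0 L1) (2 * (j + 2)), fun L hL y hy => ?_⟩
    have hLL0 : L0 ≤ L := (le_max_left _ _).trans ((le_max_left _ _).trans hL)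
    have hLL1 : L1 ≤ L := (le_max_right _ _).trans ((le_max_left _ _).trans hL)
    have hL2 : 2 * (j + 2) ≤ L := (le_max_right _ _).trans hL
    have hL4 : (2 : ℝ) * ((j : ℝ) + 2) ≤ L := by exact_mod_cast hL2
    have hj0 : (0 : ℝ) ≤ j := by positivity
    have hL0 : (0 : ℝ) < L := by linarith
    have hL1 : (1 : ℝ) ≤ (L : ℝ) ^ 2 := by nlinarith
    have hb : ((j + 2 : ℕ) : ℝ) / 2 ≤ b L (j + 2) := Q_b_ge (by omega) hL2
    have hb1 : 1 ≤ b L (j + 2) := by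
      push_cast at hb
      linarith
    have hb0 : 0 < b L (j + 2) := by linarith
    have hbk : ∀ k : ℕ, b L k = k - (k : ℝ) ^ 3 / (L : ℝ) ^ 2 := by
      intro k
      unfold b
      ring
    have hak : a L (j + 1) = -(((j : ℝ) + 1) + 1 / 2) + α / (L : ℝ) ^ 2 := by
      unfold a
      rw [hα]
      push_cast
      field_simp
      ring
    have e0 := h0 L hLL0 y hy
    have e1 := h1 L hLL1 y hy
    set s0 := sol L (√3 * y) j with hs0
    set s1 := sol L (√3 * y) (j + 1) with hs1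
    have hrec : b L (j + 2) * sol L (√3 * y) (j + 2) =
        (√3 * y - a L (j + 1)) * s1 - b L (j + 1) * s0 := by
      rw [sol, hs0, hs1]
      field_simp
    have key : b L (j + 2) * (sol L (√3 * y) (j + 2) - P y (j + 2)) =
        (√3 * y - a L (j + 1)) * (s1 - P y (j + 1)) - b L (j + 1) * (s0 - P y j) +
        (-(α * P y (j + 1)) + ((j : ℝ) + 1) ^ 3 * P y j + ((j : ℝ) + 2) ^ 3 * P y (j + 2)) /
          (L : ℝ) ^ 2 := by
      have h5 := Q_P_rec y j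
      rw [mul_sub, hrec, hbk (j + 2), hbk (j + 1), hak]
      push_cast
      have h6 : P y (j + 2) = ((√3 * y + ((j : ℝ) + 1) + 1 / 2) * P y (j + 1) -
        ((j : ℝ) + 1) * P y j) / ((j : ℝ) + 2) := by rw [P]
      have h7 : (0 : ℝ) < (j : ℝ) + 2 := by positivity
      linear_combination (-1 : ℝ) * h5
    have h8 : |√3 * y - a L (j + 1)| ≤ √3 * Y + ((j : ℝ) + 1 + 1 / 2) + α := by
      rw [hak]
      have h9 : √3 * y - (-(((j : ℝ) + 1) + 1 / 2) + α / (L : ℝ) ^ 2) =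
          √3 * y + ((((j : ℝ) + 1) + 1 / 2) + -(α / (L : ℝ) ^ 2)) := by ring
      rw [h9]
      refine (abs_add_le _ _).trans ?_
      have g1 : |√3 * y| ≤ √3 * Y := by
        rw [abs_mul, abs_of_nonneg (Real.sqrt_nonneg 3)]
        gcongr
      have g2 : |(((j : ℝ) + 1) + 1 / 2) + -(α / (L : ℝ) ^ 2)| ≤ ((j : ℝ) + 1 + 1 / 2) + α := by
        refine (abs_add_le _ _).trans ?_
        rw [abs_of_nonneg (by positivity : (0 : ℝ) ≤ (j : ℝ) + 1 + 1 / 2), abs_neg,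
          abs_of_nonneg (by positivity : (0 : ℝ) ≤ α / (L : ℝ) ^ 2)]
        have := div_le_self hα0 hL1
        linarith
      linarith
    have h10 : |b L (j + 1)| ≤ (j : ℝ) + 1 := by
      have h11 : ((j + 1 : ℕ) : ℝ) / 2 ≤ b L (j + 1) := Q_b_ge (by omega) (by omega)
      have h12 : 0 ≤ b L (j + 1) := le_trans (by positivity) h11
      rw [abs_of_nonneg h12, hbk]
      push_cast
      have : 0 ≤ ((j : ℝ) + 1) ^ 3 / (L : ℝ) ^ 2 := by positivity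
      linarith
    have h13 : |b L (j + 2) * (sol L (√3 * y) (j + 2) - P y (j + 2))| ≤ D / (L : ℝ) ^ 2 := by
      rw [key]
      have t1 : |(√3 * y - a L (j + 1)) * (s1 - P y (j + 1))| ≤
          (√3 * Y + ((j : ℝ) + 1 + 1 / 2) + α) * (C1 / (L : ℝ) ^ 2) := by
        rw [abs_mul]
        gcongr
      have t2 : |b L (j + 1) * (s0 - P y j)| ≤ ((j : ℝ) + 1) * (C0 / (L : ℝ) ^ 2) := by
        rw [abs_mul]
        gcongr
      have t3 : |(-(α * P y (j + 1)) + ((j : ℝ) + 1) ^ 3 * P y j +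
          ((j : ℝ) + 2) ^ 3 * P y (j + 2)) / (L : ℝ) ^ 2| ≤
          (α * K1 + ((j : ℝ) + 1) ^ 3 * K0 + ((j : ℝ) + 2) ^ 3 * K2) / (L : ℝ) ^ 2 := by
        rw [abs_div, abs_of_pos (by positivity : (0 : ℝ) < (L : ℝ) ^ 2)]
        gcongr
        refine (abs_add_le _ _).trans (add_le_add ((abs_add_le _ _).trans (add_le_add ?_ ?_)) ?_)
        · rw [abs_neg, abs_mul, abs_of_nonneg hα0]
          gcongr
          exact hP1 y hy
        · rw [abs_mul, abs_of_nonneg (by positivity : (0 : ℝ) ≤ ((j : ℝ) + 1) ^ 3)]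
          gcongr
          exact hP0 y hy
        · rw [abs_mul, abs_of_nonneg (by positivity : (0 : ℝ) ≤ ((j : ℝ) + 2) ^ 3)]
          gcongr
          exact hP2 y hy
      calc _ ≤ |(√3 * y - a L (j + 1)) * (s1 - P y (j + 1))| + |b L (j + 1) * (s0 - P y j)| +
            |(-(α * P y (j + 1)) + ((j : ℝ) + 1) ^ 3 * P y j +
          ((j : ℝ) + 2) ^ 3 * P y (j + 2)) / (L : ℝ) ^ 2| :=
            (abs_add_le _ _).trans (add_le_add (abs_sub _ _) le_rfl)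
        _ ≤ (√3 * Y + ((j : ℝ) + 1 + 1 / 2) + α) * (C1 / (L : ℝ) ^ 2) +
            ((j : ℝ) + 1) * (C0 / (L : ℝ) ^ 2) +
            (α * K1 + ((j : ℝ) + 1) ^ 3 * K0 + ((j : ℝ) + 2) ^ 3 * K2) / (L : ℝ) ^ 2 := by
            gcongr
        _ = D / (L : ℝ) ^ 2 := by
            rw [hD]
            ring
    rw [abs_mul, abs_of_pos hb0] at h13
    have h14 : |sol L (√3 * y) (j + 2) - P y (j + 2)| ≤
        b L (j + 2) * |sol L (√3 * y) (j + 2) - P y (j + 2)| := by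
      have := abs_nonneg (sol L (√3 * y) (j + 2) - P y (j + 2))
      nlinarith
    linarith

end Pool.Agent.H160R2.OA
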