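import Pool.Agent.H160R2.OA.Defs

/-!
# Boundedness of the solutions `sol L e j` for `j ≤ 0.7 L`
-/

set_option autoImplicit false

namespace Pool.Agent.H160R2.OA
open Finset

namespace SB

/-- quadratic form attached to the recurrence -/
noncomputable def X (L : ℕ) (e : ℝ) (j : ℕ) : ℝ :=
  b L j * sol L e j ^ 2 + b L (j + 1) * sol L e (j + 1) ^ 2 +
    (a L j - e) * sol L e j * sol L e (j + 1)

theorem b_eq (L k : ℕ) : b L k = (k : ℝ) * (1 - (k : ℝ) ^ 2 * (1 / (L : ℝ) ^ 2)) := by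
  unfold b; ring

theorem a_eq (L j : ℕ) (hL : 0 < L) :
    a L j = (2 * (j : ℝ) + 1) * (((j : ℝ) ^ 2 + j + 1 / 2) * (1 / (L : ℝ) ^ 2) - 1 / 2) := by
  unfold a
  have : (0 : ℝ) < L := by exact_mod_cast hL
  field_simp
  ring

theorem u_bound {L : ℕ} {x : ℝ} (hx : 0 ≤ x) (hj : x ≤ 7 / 10 * L) :
    x ^ 2 * (1 / (L : ℝ) ^ 2) ≤ 49 / 100 := by
  rcases Nat.eq_zero_or_pos L with h | h
  · subst h; norm_num
  · have hL : (0 : ℝ) < L := by exact_mod_cast h
    rw [mul_one_div, div_le_iff₀ (by positivity)]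
    nlinarith

theorem b_lower {L k : ℕ} (hk : (k : ℝ) ≤ 7 / 10 * L) : (k : ℝ) / 2 ≤ b L k := by
  rw [b_eq]
  have := u_bound (Nat.cast_nonneg k) hk
  have h0 : (0 : ℝ) ≤ k := Nat.cast_nonneg k
  nlinarith

theorem b_upper (L k : ℕ) : b L k ≤ k := by
  rw [b_eq]
  have h0 : (0 : ℝ) ≤ k := Nat.cast_nonneg k
  have : 0 ≤ (k : ℝ) ^ 2 * (1 / (L : ℝ) ^ 2) := by positivity
  nlinarith

theorem sol_rec {L : ℕ} (e : ℝ) {j : ℕ} (hj : ((j + 2 : ℕ) : ℝ) ≤ 7 / 10 * L) :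
    b L (j + 2) * sol L e (j + 2) =
      (e - a L (j + 1)) * sol L e (j + 1) - b L (j + 1) * sol L e j := by
  have h := b_lower hj
  have : 0 < b L (j + 2) := lt_of_lt_of_le (by positivity) h
  rw [show sol L e (j + 2) = ((e - a L (j + 1)) * sol L e (j + 1) - b L (j + 1) * sol L e j) /
    b L (j + 2) from rfl]
  field_simp

theorem a_abs {L j : ℕ} (hj : ((j + 1 : ℕ) : ℝ) ≤ 7 / 10 * L) : |a L j| ≤ 2 * j + 1 := by
  have hL : 0 < L := by
    rcases Nat.eq_zero_or_pos L with h | h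
    · subst h; push_cast at hj; have : (0 : ℝ) ≤ j := Nat.cast_nonneg j; linarith
    · exact h
  rw [a_eq L j hL]
  have h0 : (0 : ℝ) ≤ j := Nat.cast_nonneg j
  have hu := u_bound (Nat.cast_nonneg (j + 1)) hj
  push_cast at hu
  have hu0 : (0 : ℝ) ≤ 1 / (L : ℝ) ^ 2 := by positivity
  set u := 1 / (L : ℝ) ^ 2
  have h1 : ((j : ℝ) ^ 2 + j + 1 / 2) * u ≤ 49 / 100 := by nlinarith [mul_nonneg h0 hu0]
  have h2 : 0 ≤ ((j : ℝ) ^ 2 + j + 1 / 2) * u := by positivity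
  rw [abs_mul, abs_of_nonneg (by positivity : (0 : ℝ) ≤ 2 * (j : ℝ) + 1)]
  have h3 : |((j : ℝ) ^ 2 + j + 1 / 2) * u - 1 / 2| ≤ 1 := by
    rw [abs_le]; constructor <;> linarith
  nlinarith

/-- the first solutions are bounded -/
theorem init (E : ℝ) (n : ℕ) : ∃ C : ℝ, 1 ≤ C ∧ ∀ L : ℕ, ∀ e : ℝ, |e| ≤ E →
    ∀ j : ℕ, j ≤ n → (j : ℝ) ≤ 7 / 10 * L → |sol L e j| ≤ C := by
  induction n with
  | zero =>
    refine ⟨1, le_rfl, fun L e he j hj _ => ?_⟩
    have : j = 0 := by omega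
    subst this
    simp [sol]
  | succ n ih =>
    obtain ⟨C, hC1, hC⟩ := ih
    refine ⟨C * (2 * (|E| + 2 * n + 1 + n)) + C, ?_, fun L e he j hj hjL => ?_⟩
    · have : 0 ≤ C * (2 * (|E| + 2 * n + 1 + n)) := by positivity
      linarith
    · have hpos : 0 ≤ C * (2 * (|E| + 2 * n + 1 + n)) := by positivity
      rcases Nat.lt_or_ge j (n + 1) with h | h
      · have := hC L e he j (by omega) hjL
        linarith
      · have hjn : j = n + 1 := by omega
        subst hjn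
        have heE : |e| ≤ |E| := he.trans (le_abs_self E)
        have hn1 : ((n : ℕ) : ℝ) ≤ 7 / 10 * L := by push_cast at hjL ⊢; linarith
        rcases n with _ | n
        · have hb := b_lower hjL
          have ha := a_abs (L := L) (j := 0) (by simpa using hjL)
          have hb' : 0 < b L 1 := lt_of_lt_of_le (by norm_num) hb
          have : sol L e (0 + 1) = (e - a L 0) / b L 1 := rfl
          rw [this, abs_div, abs_of_pos hb', div_le_iff₀ hb']
          have h1 : |e - a L 0| ≤ |E| + 1 := by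
            refine (abs_sub _ _).trans ?_
            simp at ha
            linarith
          push_cast at hb ⊢
          simp only [mul_zero, add_zero] at hb ⊢
          have h2 : (1 : ℝ) / 2 ≤ b L 1 := by simpa using hb
          have h3 : 0 ≤ |E| := abs_nonneg E
          nlinarith [mul_nonneg (sub_nonneg.2 hC1) h3, mul_nonneg (mul_nonneg (sub_nonneg.2 hC1) h3) hb'.le]
        · have hb := b_lower hjL
          have hrec := sol_rec e (L := L) (j := n) hjL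
          have hb' : 0 < b L (n + 2) := lt_of_lt_of_le (by positivity) hb
          have ha := a_abs (L := L) (j := n + 1) hjL
          have h1 := hC L e he (n + 1) le_rfl hn1
          have h2 := hC L e he n (by omega) (by push_cast at hn1; linarith)
          have hbn := b_upper L (n + 1)
          have hbn' := b_lower hn1
          have hbn0 : 0 ≤ b L (n + 1) := le_trans (by positivity) hbn'
          have h3 : b L (n + 2) * |sol L e (n + 2)| ≤
              (|E| + (2 * ((n + 1 : ℕ) : ℝ) + 1)) * C + ((n + 1 : ℕ) : ℝ) * C := by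
            have : b L (n + 2) * |sol L e (n + 2)| = |b L (n + 2) * sol L e (n + 2)| := by
              rw [abs_mul, abs_of_pos hb']
            rw [this, hrec]
            refine (abs_sub _ _).trans ?_
            rw [abs_mul, abs_mul, abs_of_nonneg hbn0]
            have h4 : |e - a L (n + 1)| ≤ |E| + (2 * ((n + 1 : ℕ) : ℝ) + 1) :=
              (abs_sub _ _).trans (by linarith)
            have := abs_nonneg (sol L e (n + 1))
            have := abs_nonneg (sol L e n)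
            gcongr
          have h5 : (1 : ℝ) ≤ b L (n + 2) := by
            have : (0 : ℝ) ≤ n := Nat.cast_nonneg n
            push_cast at hb
            linarith
          have h6 : |sol L e (n + 2)| ≤ b L (n + 2) * |sol L e (n + 2)| := by
            nlinarith [abs_nonneg (sol L e (n + 2))]
          have h7 := h6.trans h3
          have h8 : 0 ≤ |E| := abs_nonneg E
          have h9 : (0 : ℝ) ≤ n := Nat.cast_nonneg n
          show |sol L e (n + 2)| ≤ _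
          push_cast at h7 ⊢
          nlinarith [mul_nonneg (by linarith : (0:ℝ) ≤ C) h8, mul_nonneg (by linarith : (0:ℝ) ≤ C) h9]

theorem X_rec {L : ℕ} (e : ℝ) {j : ℕ} (hj : ((j + 2 : ℕ) : ℝ) ≤ 7 / 10 * L) :
    b L (j + 2) * (X L e (j + 1) - X L e j) =
      (b L (j + 1) ^ 2 - b L j * b L (j + 2)) * sol L e j ^ 2 +
      (b L (j + 1) * (a L (j + 1) - e) - b L (j + 2) * (a L j - e)) *
        (sol L e j * sol L e (j + 1)) := by
  have h := sol_rec e hj
  unfold X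
  rw [show j + 1 + 1 = j + 2 from rfl]
  linear_combination (b L (j + 2) * sol L e (j + 2) - b L (j + 1) * sol L e j) * h

/-- positivity of the quadratic form -/
theorem X_pos {L : ℕ} {e E : ℝ} (he : |e| ≤ E) {j : ℕ} (hj : ((j + 1 : ℕ) : ℝ) ≤ 7 / 10 * L)
    (hjE : (7 + 5 * E) / 3 ≤ j) :
    ((j : ℝ) + 1) / 5 * (sol L e j ^ 2 + sol L e (j + 1) ^ 2) ≤ X L e j := by
  have hL : 0 < L := by
    rcases Nat.eq_zero_or_pos L with h | h
    · subst h; push_cast at hj; have : (0 : ℝ) ≤ j := Nat.cast_nonneg j; linarith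
    · exact h
  have h0 : (0 : ℝ) ≤ j := Nat.cast_nonneg j
  have hu := u_bound (Nat.cast_nonneg (j + 1)) hj
  push_cast at hu
  have hu0 : (0 : ℝ) ≤ 1 / (L : ℝ) ^ 2 := by positivity
  unfold X
  rw [a_eq L j hL, b_eq, b_eq]
  push_cast
  set u := 1 / (L : ℝ) ^ 2
  set p := sol L e j
  set q := sol L e (j + 1)
  set x : ℝ := (j : ℝ)
  have hxu : 0 ≤ x * u := mul_nonneg h0 hu0
  have hxxu : 0 ≤ x * (x * u) := mul_nonneg h0 hxu
  have hA : (2 * x + 1) * ((x ^ 2 + x + 1 / 2) * u - 1 / 2) ≤ 0 := by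
    have : (x ^ 2 + x + 1 / 2) * u ≤ 49 / 100 := by nlinarith
    have h2 : (0 : ℝ) ≤ 2 * x + 1 := by linarith
    nlinarith
  set A := (2 * x + 1) * ((x ^ 2 + x + 1 / 2) * u - 1 / 2)
  have habs : |A - e| ≤ -A + E := by
    refine (abs_sub _ _).trans ?_
    rw [abs_of_nonpos hA]
    linarith
  have hpq : |p * q| ≤ (p ^ 2 + q ^ 2) / 2 := by
    rw [abs_le]; constructor <;> nlinarith [sq_nonneg (p - q), sq_nonneg (p + q)]
  have hcross : -((-A + E) * ((p ^ 2 + q ^ 2) / 2)) ≤ (A - e) * p * q := by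
    have h1 : |(A - e) * p * q| ≤ (-A + E) * ((p ^ 2 + q ^ 2) / 2) := by
      rw [mul_assoc, abs_mul]
      have := abs_nonneg (A - e)
      gcongr
      linarith [abs_nonneg (A - e)]
    exact (abs_le.1 h1).1
  have hm1 : x * (1 - (x + 1) ^ 2 * u) ≤ x * (1 - x ^ 2 * u) := by
    apply mul_le_mul_of_nonneg_left _ h0
    nlinarith
  have hm2 : x * (1 - (x + 1) ^ 2 * u) ≤ (x + 1) * (1 - (x + 1) ^ 2 * u) := by
    nlinarith
  have hkey : (x + 1) / 5 ≤ x * (1 - (x + 1) ^ 2 * u) - (-A + E) / 2 := by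
    have : x * (1 - (x + 1) ^ 2 * u) - (-A + E) / 2 =
        x / 2 - 1 / 4 - E / 2 + (1 / 4 - x ^ 2 / 2) * u := by
      show x * (1 - (x + 1) ^ 2 * u) -
        (-((2 * x + 1) * ((x ^ 2 + x + 1 / 2) * u - 1 / 2)) + E) / 2 = _
      ring
    rw [this]
    have : x ^ 2 * u ≤ 49 / 100 := by nlinarith
    nlinarith
  have hp2 := sq_nonneg p
  have hq2 := sq_nonneg q
  nlinarith [mul_le_mul_of_nonneg_right hkey hp2, mul_le_mul_of_nonneg_right hkey hq2,
    mul_le_mul_of_nonneg_right hm1 hp2, mul_le_mul_of_nonneg_right hm2 hq2]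

/-- one step of the growth of the quadratic form -/
theorem X_step {L : ℕ} {e E : ℝ} (hE : 0 ≤ E) (he : |e| ≤ E) {j : ℕ}
    (hj : ((j + 2 : ℕ) : ℝ) ≤ 7 / 10 * L) (hjE : (7 + 5 * E) / 3 ≤ j) :
    X L e (j + 1) ≤ X L e j * (1 + (10 * (6 + E)) / (((j : ℝ) + 1) * ((j : ℝ) + 2)) +
      (10 * (6 + E)) * ((j : ℝ) + 1) * (1 / (L : ℝ) ^ 2)) := by
  have hL : 0 < L := by
    rcases Nat.eq_zero_or_pos L with h | h
    · subst h; push_cast at hj; have : (0 : ℝ) ≤ j := Nat.cast_nonneg j; linarith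
    · exact h
  have hj1 : ((j + 1 : ℕ) : ℝ) ≤ 7 / 10 * L := by push_cast at hj ⊢; linarith
  have hpos := X_pos he hj1 hjE
  have hrec := X_rec e hj
  have hb2 := b_lower hj
  have h0 : (0 : ℝ) ≤ j := Nat.cast_nonneg j
  have hu := u_bound (Nat.cast_nonneg (j + 2)) hj
  have hu0 : (0 : ℝ) ≤ 1 / (L : ℝ) ^ 2 := by positivity
  push_cast at hu hb2
  have hD1 : |b L (j + 1) ^ 2 - b L j * b L (j + 2)| ≤ 3 := by
    rw [b_eq, b_eq, b_eq]
    push_cast
    set u := 1 / (L : ℝ) ^ 2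
    set x : ℝ := (j : ℝ)
    have h1 : (x + 1) ^ 2 * u ≤ 49 / 100 := by nlinarith [mul_nonneg h0 hu0]
    have h2 : 0 ≤ (x + 1) ^ 2 * u := by positivity
    have h3 : u ≤ 49 / 100 := by nlinarith [mul_nonneg h0 hu0, mul_nonneg h0 (mul_nonneg h0 hu0)]
    have : ((x + 1) * (1 - (x + 1) ^ 2 * u)) ^ 2 -
        x * (1 - x ^ 2 * u) * ((x + 2) * (1 - (x + 2) ^ 2 * u)) =
        1 - 2 * u + 3 * ((x + 1) ^ 2 * u) ^ 2 - 3 * ((x + 1) ^ 2 * u) * u + u ^ 2 := by ring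
    rw [this, abs_le]
    constructor <;> nlinarith [mul_nonneg h2 hu0]
  have hD2 : |b L (j + 1) * (a L (j + 1) - e) - b L (j + 2) * (a L j - e)| ≤
      2 * ((j : ℝ) ^ 3 * (1 / (L : ℝ) ^ 2)) + 6 + 2 * E := by
    rw [b_eq, b_eq, a_eq L j hL, a_eq L (j + 1) hL]
    push_cast
    set u := 1 / (L : ℝ) ^ 2
    set x : ℝ := (j : ℝ)
    have e1 : (x + 1) * (1 - (x + 1) ^ 2 * u) *
        ((2 * (x + 1) + 1) * (((x + 1) ^ 2 + (x + 1) + 1 / 2) * u - 1 / 2) - e) -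
        (x + 2) * (1 - (x + 2) ^ 2 * u) * ((2 * x + 1) * ((x ^ 2 + x + 1 / 2) * u - 1 / 2) - e) =
        -1 / 2 + (2 * x ^ 3 + 15 / 2 * x ^ 2 + 17 / 2 * x + 4) * u
        - (3 * x ^ 4 + 14 * x ^ 3 + 45 / 2 * x ^ 2 + 29 / 2 * x + 7 / 2) * u ^ 2
        + e * (1 - (3 * x ^ 2 + 9 * x + 7) * u) := by ring
    rw [e1]
    have hx2 : 0 ≤ x ^ 2 := by positivity
    have hx3 : 0 ≤ x ^ 3 := by positivity
    have hx4 : 0 ≤ x ^ 4 := by positivity
    have h1 : (2 * x ^ 3 + 15 / 2 * x ^ 2 + 17 / 2 * x + 4) * u ≤ 2 * (x ^ 3 * u) + 4 := by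
      nlinarith [mul_nonneg h0 hu0, mul_nonneg hx2 hu0]
    have h2 : 0 ≤ (2 * x ^ 3 + 15 / 2 * x ^ 2 + 17 / 2 * x + 4) * u := by positivity
    have h3 : (3 * x ^ 4 + 14 * x ^ 3 + 45 / 2 * x ^ 2 + 29 / 2 * x + 7 / 2) * u ^ 2 ≤ 1 := by
      have h31 : (3 * x ^ 4 + 14 * x ^ 3 + 45 / 2 * x ^ 2 + 29 / 2 * x + 7 / 2) ≤
        3 * ((x + 2) ^ 2) ^ 2 := by nlinarith
      have h32 : 3 * ((x + 2) ^ 2 * u) ^ 2 ≤ 3 * (49 / 100) ^ 2 := by
        have : 0 ≤ (x + 2) ^ 2 * u := by positivity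
        gcongr
      calc _ ≤ 3 * ((x + 2) ^ 2) ^ 2 * u ^ 2 := by gcongr
        _ = 3 * ((x + 2) ^ 2 * u) ^ 2 := by ring
        _ ≤ _ := by linarith
    have h4 : 0 ≤ (3 * x ^ 4 + 14 * x ^ 3 + 45 / 2 * x ^ 2 + 29 / 2 * x + 7 / 2) * u ^ 2 := by
      positivity
    have h5 : |e * (1 - (3 * x ^ 2 + 9 * x + 7) * u)| ≤ E * 2 := by
      rw [abs_mul]
      have : |1 - (3 * x ^ 2 + 9 * x + 7) * u| ≤ 2 := by
        have h51 : 0 ≤ (3 * x ^ 2 + 9 * x + 7) * u := by positivity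
        have h52 : (3 * x ^ 2 + 9 * x + 7) * u ≤ 3 := by nlinarith [mul_nonneg h0 hu0]
        rw [abs_le]; constructor <;> linarith
      gcongr
    have h6 := abs_le.1 h5
    rw [abs_le]
    have h7 : 0 ≤ x ^ 3 * u := by positivity
    constructor <;> linarith [h6.1, h6.2]
  set D1 := b L (j + 1) ^ 2 - b L j * b L (j + 2)
  set D2 := b L (j + 1) * (a L (j + 1) - e) - b L (j + 2) * (a L j - e)
  set u := 1 / (L : ℝ) ^ 2
  set p := sol L e j
  set q := sol L e (j + 1)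
  set x : ℝ := (j : ℝ)
  have hp2 := sq_nonneg p
  have hq2 := sq_nonneg q
  have hpq : |p * q| ≤ (p ^ 2 + q ^ 2) / 2 := by
    rw [abs_le]; constructor <;> nlinarith [sq_nonneg (p - q), sq_nonneg (p + q)]
  have hx3 : 0 ≤ x ^ 3 * u := by positivity
  have hnum : D1 * p ^ 2 + D2 * (p * q) ≤ (x ^ 3 * u + 6 + E) * (p ^ 2 + q ^ 2) := by
    have h1 : D1 * p ^ 2 ≤ 3 * p ^ 2 := mul_le_mul_of_nonneg_right (le_of_abs_le hD1) hp2
    have h2 : D2 * (p * q) ≤ (2 * (x ^ 3 * u) + 6 + 2 * E) * ((p ^ 2 + q ^ 2) / 2) := by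
      refine (le_abs_self _).trans ?_
      rw [abs_mul]
      have := abs_nonneg D2
      gcongr
    nlinarith
  have hXn : 0 ≤ X L e j := le_trans (by positivity) hpos
  have hpq2 : p ^ 2 + q ^ 2 ≤ 5 / (x + 1) * X L e j := by
    rw [div_mul_eq_mul_div, le_div_iff₀ (by positivity)]
    linarith
  have hnum2 : D1 * p ^ 2 + D2 * (p * q) ≤ (x ^ 3 * u + 6 + E) * (5 / (x + 1) * X L e j) := by
    refine hnum.trans ?_
    gcongr
  rw [← hrec] at hnum2
  -- now divide by b2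
  have hb2' : 0 < b L (j + 2) := lt_of_lt_of_le (by positivity) hb2
  set b2 := b L (j + 2)
  have hfin : X L e (j + 1) - X L e j ≤
      (x ^ 3 * u + 6 + E) * (5 / (x + 1) * X L e j) / ((x + 2) / 2) := by
    have hR : 0 ≤ (x ^ 3 * u + 6 + E) * (5 / (x + 1) * X L e j) := by positivity
    rw [le_div_iff₀ (by positivity)]
    rcases le_or_gt (X L e (j + 1) - X L e j) 0 with h | h
    · nlinarith
    · nlinarith
  have heq : (x ^ 3 * u + 6 + E) * (5 / (x + 1) * X L e j) / ((x + 2) / 2) =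
      X L e j * (10 * (6 + E) / ((x + 1) * (x + 2)) + 10 * (x ^ 3 * u) / ((x + 1) * (x + 2))) := by
    field_simp
    ring
  rw [heq] at hfin
  have hlast : 10 * (x ^ 3 * u) / ((x + 1) * (x + 2)) ≤ 10 * (6 + E) * (x + 1) * u := by
    rw [div_le_iff₀ (by positivity)]
    have h1 : x ^ 3 ≤ (x + 1) * ((x + 1) * (x + 2)) := by nlinarith [sq_nonneg x]
    have h2 : x ^ 3 * u ≤ (x + 1) * ((x + 1) * (x + 2)) * u := mul_le_mul_of_nonneg_right h1 hu0
    have h3 : 0 ≤ (x + 1) * ((x + 1) * (x + 2)) * u := by positivity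
    nlinarith [mul_nonneg hE h3]
  nlinarith [mul_le_mul_of_nonneg_left hlast hXn]

theorem X_grow {L : ℕ} {e E : ℝ} (hE : 0 ≤ E) (he : |e| ≤ E) {j0 : ℕ}
    (hjE : (7 + 5 * E) / 3 ≤ j0) {M : ℝ} (hM : 0 ≤ M) (hM0 : X L e j0 ≤ M) (k : ℕ)
    (hk : ((j0 + k + 1 : ℕ) : ℝ) ≤ 7 / 10 * L) :
    X L e (j0 + k) ≤ M * Real.exp (10 * (6 + E) * (1 - 1 / (((j0 + k : ℕ) : ℝ) + 1)) +
      10 * (6 + E) * ((((j0 + k : ℕ) : ℝ) + 1) ^ 2 * (1 / (L : ℝ) ^ 2))) := by
  induction k with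
  | zero =>
    refine hM0.trans (le_mul_of_one_le_right hM (Real.one_le_exp ?_))
    have h1 : (1 : ℝ) / (((j0 + 0 : ℕ) : ℝ) + 1) ≤ 1 := by
      rw [div_le_one (by positivity)]
      have : (0 : ℝ) ≤ ((j0 + 0 : ℕ) : ℝ) := Nat.cast_nonneg _
      linarith
    have h2 : 0 ≤ 1 - (1 : ℝ) / (((j0 + 0 : ℕ) : ℝ) + 1) := by linarith
    positivity
  | succ k ih =>
    have hk1 : ((j0 + k + 1 : ℕ) : ℝ) ≤ 7 / 10 * L := by push_cast at hk ⊢; linarith
    have ih' := ih hk1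
    have hjk : (7 + 5 * E) / 3 ≤ ((j0 + k : ℕ) : ℝ) := by
      push_cast
      have : (0 : ℝ) ≤ k := Nat.cast_nonneg k
      linarith
    have hstep := X_step hE he (L := L) (j := j0 + k) hk hjk
    have hx : (0 : ℝ) ≤ ((j0 + k : ℕ) : ℝ) := Nat.cast_nonneg _
    rw [show j0 + (k + 1) = j0 + k + 1 from rfl]
    refine hstep.trans ?_
    have hu0 : (0 : ℝ) ≤ 1 / (L : ℝ) ^ 2 := by positivity
    rw [show ((j0 + k + 1 : ℕ) : ℝ) = ((j0 + k : ℕ) : ℝ) + 1 by push_cast; ring]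
    set x : ℝ := ((j0 + k : ℕ) : ℝ)
    set u := 1 / (L : ℝ) ^ 2
    set K := 10 * (6 + E)
    have hK : 0 ≤ K := by positivity
    have hnn : 0 ≤ 1 + K / ((x + 1) * (x + 2)) + K * (x + 1) * u := by positivity
    refine (mul_le_mul_of_nonneg_right ih' hnn).trans ?_
    rw [mul_assoc]
    refine mul_le_mul_of_nonneg_left ?_ hM
    have h1 : 1 + K / ((x + 1) * (x + 2)) + K * (x + 1) * u ≤
        Real.exp (K / ((x + 1) * (x + 2)) + K * (x + 1) * u) := by
      have := Real.add_one_le_exp (K / ((x + 1) * (x + 2)) + K * (x + 1) * u)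
      linarith
    refine (mul_le_mul_of_nonneg_left h1 (Real.exp_pos _).le).trans ?_
    rw [← Real.exp_add]
    apply Real.exp_le_exp.2
    have h2 : K / ((x + 1) * (x + 2)) = K * (1 / (x + 1)) - K * (1 / (x + 1 + 1)) := by
      field_simp
      ring
    rw [h2]
    have h3 : 0 ≤ x * (K * u) := by positivity
    have h4 : 0 ≤ K * u := by positivity
    nlinarith

end SB

theorem sol_bdd (E : ℝ) : ∃ C : ℝ, 0 < C ∧ ∃ L0 : ℕ, ∀ L : ℕ, L0 ≤ L → ∀ e : ℝ, |e| ≤ E →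
    ∀ j : ℕ, (j : ℝ) ≤ 7 / 10 * L → |sol L e j| ≤ C := by
  obtain ⟨j0, hj0⟩ := exists_nat_ge ((7 + 5 * |E|) / 3)
  obtain ⟨C0, hC01, hC0⟩ := SB.init |E| (j0 + 1)
  set K := 10 * (6 + |E|) with hKdef
  have hK : 0 ≤ K := by positivity
  -- bound of X at j0
  set M : ℝ := ((j0 : ℝ) + (j0 + 1) + (2 * j0 + 1 + |E|)) * C0 ^ 2 with hMdef
  have hM : 0 ≤ M := by positivity
  set C1 := 5 * (M * Real.exp (2 * K)) with hC1
  have hC1' : 0 ≤ C1 := by positivity
  refine ⟨C0 + (C1 + 1), by positivity, 0, fun L _ e he j hj => ?_⟩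
  have he' : |e| ≤ |E| := he.trans (le_abs_self E)
  rcases Nat.lt_or_ge j (j0 + 2) with h | h
  · have := hC0 L e he' j (by omega) hj
    linarith
  · obtain ⟨k, rfl⟩ : ∃ k, j = j0 + k + 1 := ⟨j - j0 - 1, by omega⟩
    have hj0L : ((j0 + 1 : ℕ) : ℝ) ≤ 7 / 10 * L := by
      push_cast at hj ⊢
      have : (0 : ℝ) ≤ k := Nat.cast_nonneg k
      linarith
    have hj0L' : ((j0 : ℕ) : ℝ) ≤ 7 / 10 * L := by push_cast at hj0L ⊢; linarith
    have hM0 : SB.X L e j0 ≤ M := by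
      unfold SB.X
      have h1 := hC0 L e he' j0 (by omega) hj0L'
      have h2 := hC0 L e he' (j0 + 1) le_rfl hj0L
      have h3 := SB.b_upper L j0
      have h4 := SB.b_upper L (j0 + 1)
      have h5 := SB.a_abs hj0L
      push_cast at h4
      have h6 : |a L j0 - e| ≤ 2 * j0 + 1 + |E| := (abs_sub _ _).trans (by linarith)
      have h7 : sol L e j0 ^ 2 ≤ C0 ^ 2 := by
        rw [← sq_abs]; gcongr
      have h8 : sol L e (j0 + 1) ^ 2 ≤ C0 ^ 2 := by
        rw [← sq_abs]; gcongr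
      have h9 : (a L j0 - e) * sol L e j0 * sol L e (j0 + 1) ≤ (2 * j0 + 1 + |E|) * C0 ^ 2 := by
        refine (le_abs_self _).trans ?_
        rw [abs_mul, abs_mul, sq, ← mul_assoc]
        have := abs_nonneg (a L j0 - e)
        gcongr
      have h10 : b L j0 * sol L e j0 ^ 2 ≤ j0 * C0 ^ 2 := by
        have := sq_nonneg (sol L e j0)
        calc _ ≤ (j0 : ℝ) * sol L e j0 ^ 2 := by gcongr
          _ ≤ _ := by gcongr
      have h11 : b L (j0 + 1) * sol L e (j0 + 1) ^ 2 ≤ (j0 + 1) * C0 ^ 2 := by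
        have := sq_nonneg (sol L e (j0 + 1))
        calc _ ≤ ((j0 : ℝ) + 1) * sol L e (j0 + 1) ^ 2 := by gcongr
          _ ≤ _ := by gcongr
      rw [hMdef]
      linarith
    have hg := SB.X_grow (abs_nonneg E) he' hj0 hM hM0 k hj
    have hjk : (7 + 5 * |E|) / 3 ≤ ((j0 + k : ℕ) : ℝ) := by
      push_cast
      have : (0 : ℝ) ≤ k := Nat.cast_nonneg k
      linarith
    have hpos := SB.X_pos he' (L := L) (j := j0 + k) hj hjk
    have hexp : Real.exp (K * (1 - 1 / (((j0 + k : ℕ) : ℝ) + 1)) +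
      K * ((((j0 + k : ℕ) : ℝ) + 1) ^ 2 * (1 / (L : ℝ) ^ 2))) ≤ Real.exp (2 * K) := by
      apply Real.exp_le_exp.2
      have h1 := SB.u_bound (Nat.cast_nonneg (j0 + k + 1)) hj
      have h2 : (0 : ℝ) ≤ 1 / (((j0 + k : ℕ) : ℝ) + 1) := by positivity
      push_cast at h1 h2 ⊢
      have h3 : K * (1 - 1 / ((j0 : ℝ) + k + 1)) ≤ K * 1 :=
        mul_le_mul_of_nonneg_left (by linarith) hK
      have h4 : K * (((j0 : ℝ) + k + 1) ^ 2 * (1 / (L : ℝ) ^ 2)) ≤ K * 1 :=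
        mul_le_mul_of_nonneg_left (by linarith) hK
      linarith
    have hX : SB.X L e (j0 + k) ≤ M * Real.exp (2 * K) :=
      hg.trans (mul_le_mul_of_nonneg_left hexp hM)
    have hsq : sol L e (j0 + k + 1) ^ 2 ≤ C1 := by
      have hx : (0 : ℝ) ≤ ((j0 + k : ℕ) : ℝ) := Nat.cast_nonneg _
      have h1 := sq_nonneg (sol L e (j0 + k))
      have h2 := sq_nonneg (sol L e (j0 + k + 1))
      nlinarith [mul_nonneg hx h1, mul_nonneg hx h2]
    have habs : |sol L e (j0 + k + 1)| ≤ C1 + 1 := by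
      nlinarith [sq_abs (sol L e (j0 + k + 1)), abs_nonneg (sol L e (j0 + k + 1)),
        sq_nonneg (|sol L e (j0 + k + 1)| - 1)]
    linarith

end Pool.Agent.H160R2.OA
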