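import Pool.Agent.H160R2.OA.Defs
import Pool.Agent.H160R2.OA.SolBdd

/-! # Task T: the tail of the solution at an eigenvalue -/

set_option autoImplicit false

namespace Pool.Agent.H160R2.OA
open Finset

theorem T_b_pos (L k : ℕ) (h1 : 1 ≤ k) (h2 : k < L) : 0 < b L k := by
  unfold b
  have hk : (0:ℝ) < k := by exact_mod_cast h1
  have hL : (0:ℝ) < L := by
    have : 0 < L := by omega
    exact_mod_cast this
  have hkL : (k:ℝ) < L := by exact_mod_cast h2
  apply mul_pos hk
  have : (k:ℝ) ^ 2 / (L:ℝ) ^ 2 < 1 := by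
    rw [div_lt_one (by positivity)]
    nlinarith
  linarith

theorem T_b_zero (L : ℕ) : b L 0 = 0 := by simp [b]

theorem T_b_last (L : ℕ) (hL : 0 < L) : b L L = 0 := by
  unfold b
  have hL' : (L:ℝ) ≠ 0 := by
    have : (0:ℝ) < L := by exact_mod_cast hL
    exact ne_of_gt this
  rw [div_self (pow_ne_zero 2 hL')]
  ring

/-- extension of a vector by zero -/
noncomputable def Text {L : ℕ} (v : Fin L → ℝ) (j : ℕ) : ℝ := if h : j < L then v ⟨j, h⟩ else 0

theorem T_row (L : ℕ) (v : Fin L → ℝ) (i : ℕ) (hi : i < L) :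
    (J L).mulVec v ⟨i, hi⟩ =
      a L i * Text v i + b L (i + 1) * Text v (i + 1) + b L i * Text v (i - 1) := by
  have key : ∀ j : Fin L, (J L) ⟨i, hi⟩ j * v j =
      (fun j : ℕ => (if j = i then a L i * Text v i else 0)
        + (if j = i + 1 then b L (i + 1) * Text v (i + 1) else 0)
        + (if j = i - 1 then (if 1 ≤ i then b L i * Text v (i - 1) else 0) else 0)) (j : ℕ) := by
    intro j
    have hj : v j = Text v (j : ℕ) := by
      unfold Text
      rw [dif_pos j.2]
    rw [hj]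
    simp only [J, Matrix.of_apply]
    by_cases h1 : i = (j : ℕ)
    · rw [if_pos h1, if_pos h1.symm, if_neg (by omega : ¬ (j : ℕ) = i + 1)]
      by_cases h0 : 1 ≤ i
      · rw [if_neg (by omega : ¬ (j : ℕ) = i - 1), ← h1]; ring
      · rw [if_pos (by omega : (j : ℕ) = i - 1), if_neg h0, ← h1]; ring
    · rw [if_neg h1, if_neg (by omega : ¬ (j : ℕ) = i)]
      by_cases h2 : i + 1 = (j : ℕ)
      · rw [if_pos h2, if_pos h2.symm, if_neg (by omega : ¬ (j : ℕ) = i - 1), ← h2]; ring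
      · rw [if_neg h2, if_neg (by omega : ¬ (j : ℕ) = i + 1)]
        by_cases h3 : (j : ℕ) + 1 = i
        · rw [if_pos h3, if_pos (by omega : (j : ℕ) = i - 1), if_pos (by omega : 1 ≤ i)]
          have : i - 1 = (j : ℕ) := by omega
          rw [this]; ring
        · rw [if_neg h3]
          by_cases h4 : (j : ℕ) = i - 1
          · rw [if_pos h4, if_neg (by omega : ¬ 1 ≤ i)]; ring
          · rw [if_neg h4]; ring
  have hsum : (J L).mulVec v ⟨i, hi⟩ = ∑ j : Fin L, (J L) ⟨i, hi⟩ j * v j := rfl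
  rw [hsum, Finset.sum_congr rfl (fun j _ => key j)]
  rw [Fin.sum_univ_eq_sum_range (fun j : ℕ => (if j = i then a L i * Text v i else 0)
        + (if j = i + 1 then b L (i + 1) * Text v (i + 1) else 0)
        + (if j = i - 1 then (if 1 ≤ i then b L i * Text v (i - 1) else 0) else 0)) L]
  rw [Finset.sum_add_distrib, Finset.sum_add_distrib, Finset.sum_ite_eq', Finset.sum_ite_eq',
    Finset.sum_ite_eq']
  rw [if_pos (Finset.mem_range.mpr hi), if_pos (Finset.mem_range.mpr (by omega : i - 1 < L))]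
  congr 1
  · congr 1
    by_cases h : i + 1 < L
    · rw [if_pos (Finset.mem_range.mpr h)]
    · rw [if_neg (by simpa using h)]
      have : Text v (i + 1) = 0 := by
        unfold Text
        rw [dif_neg h]
      rw [this, mul_zero]
  · by_cases h : 1 ≤ i
    · rw [if_pos h]
    · rw [if_neg h]
      have : i = 0 := by omega
      rw [this, T_b_zero, zero_mul]

/-- the solution is proportional to the eigenvector -/
theorem T_prop (L : ℕ) (e : ℝ) (v : Fin L → ℝ) (hv : (J L).mulVec v = e • v) (j : ℕ) :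
    (j < L → Text v j = Text v 0 * sol L e j) ∧
      (j + 1 < L → Text v (j + 1) = Text v 0 * sol L e (j + 1)) := by
  have row : ∀ i, i < L →
      a L i * Text v i + b L (i + 1) * Text v (i + 1) + b L i * Text v (i - 1) = e * Text v i := by
    intro i hi
    rw [← T_row L v i hi, hv]
    simp [Text, hi]
  induction j with
  | zero =>
    refine ⟨fun _ => by simp [sol], fun h => ?_⟩
    have h0 := row 0 (by omega)
    rw [T_b_zero] at h0
    have hb := T_b_pos L 1 le_rfl h
    simp only [sol]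
    field_simp
    simp only [zero_add] at h0 ⊢
    linarith
  | succ j ih =>
    refine ⟨ih.2, fun h => ?_⟩
    have h0 := row (j + 1) (by omega)
    have hb := T_b_pos L (j + 2) (by omega) h
    rw [show j + 1 - 1 = j from rfl, ih.2 (by omega), ih.1 (by omega)] at h0
    have e1 : sol L e (j + 1 + 1) =
        ((e - a L (j + 1)) * sol L e (j + 1) - b L (j + 1) * sol L e j) / b L (j + 2) := by
      simp only [sol]
    rw [e1]
    have hb' : b L (j + 2) ≠ 0 := ne_of_gt hb
    field_simp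
    have e2 : j + 1 + 1 = j + 2 := rfl
    rw [e2] at h0 ⊢
    linarith

/-- the last row -/
theorem T_last (L : ℕ) (e : ℝ) (he : IsEv L e) (hL : 2 ≤ L) :
    (a L (L - 1) - e) * sol L e (L - 1) + b L (L - 1) * sol L e (L - 2) = 0 := by
  obtain ⟨v, hv0, hv⟩ := he
  have hT0 : Text v 0 ≠ 0 := by
    intro h
    apply hv0
    funext j
    have := (T_prop L e v hv j).1 j.2
    rw [h, zero_mul] at this
    simpa [Text] using this
  have h1 : (J L).mulVec v ⟨L - 1, by omega⟩ = e * Text v (L - 1) := by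
    rw [hv]
    simp only [Pi.smul_apply, smul_eq_mul, Text]
    rw [dif_pos (by omega)]
  rw [T_row, show L - 1 + 1 = L by omega, T_b_last L (by omega), zero_mul, add_zero,
    show L - 1 - 1 = L - 2 by omega] at h1
  rw [(T_prop L e v hv (L - 1)).1 (by omega), (T_prop L e v hv (L - 2)).1 (by omega)] at h1
  have h2 : Text v 0 * ((a L (L - 1) - e) * sol L e (L - 1) + b L (L - 1) * sol L e (L - 2)) = 0 := by
    linarith
  rcases mul_eq_zero.mp h2 with h | h
  · exact absurd h hT0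
  · exact h

/-- the recurrence in additive form -/
theorem T_rec (L : ℕ) (e : ℝ) (j : ℕ) (hj : j + 2 < L) :
    b L (j + 2) * sol L e (j + 2) + (a L (j + 1) - e) * sol L e (j + 1)
      + b L (j + 1) * sol L e j = 0 := by
  have hb := T_b_pos L (j + 2) (by omega) hj
  have hb' : b L (j + 2) ≠ 0 := ne_of_gt hb
  have e1 : sol L e (j + 2) =
      ((e - a L (j + 1)) * sol L e (j + 1) - b L (j + 1) * sol L e j) / b L (j + 2) := by
    simp only [sol]
  rw [e1]
  field_simp
  ring

theorem T_ineq1 (E : ℝ) (L j : ℕ) (hE : 50 * |E| + 50 ≤ (L : ℝ)) (hj : 87 / 100 * (L : ℝ) ≤ j) :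
    E ≤ a L j - b L j - b L (j + 1) := by
  have hl : (50 : ℝ) ≤ L := by linarith [abs_nonneg E]
  have hEl : E ≤ (L : ℝ) / 50 := by linarith [le_abs_self E]
  have hx0 : (0:ℝ) ≤ j := Nat.cast_nonneg j
  have e1 : a L j - b L j - b L (j + 1) =
      ((j : ℝ) + 1 / 2) * (4 * ((j : ℝ) + 1 / 2) ^ 2 + 2 - 3 * (L : ℝ) ^ 2) / (L : ℝ) ^ 2 := by
    unfold a b
    push_cast
    field_simp
    ring
  rw [e1, le_div_iff₀ (by positivity)]
  set l : ℝ := (L : ℝ)
  set x : ℝ := (j : ℝ)
  have h2 : (276 / 10000 : ℝ) * l ^ 2 ≤ 4 * (x + 1 / 2) ^ 2 + 2 - 3 * l ^ 2 := by nlinarith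
  calc E * l ^ 2 ≤ l / 50 * l ^ 2 := by
        apply mul_le_mul_of_nonneg_right hEl (by positivity)
    _ ≤ (87 / 100 * l) * ((276 / 10000 : ℝ) * l ^ 2) := by
        have : 0 ≤ l ^ 3 := by positivity
        nlinarith
    _ ≤ (x + 1 / 2) * (4 * (x + 1 / 2) ^ 2 + 2 - 3 * l ^ 2) := by
        apply mul_le_mul (by linarith) h2 (by positivity) (by linarith)

theorem T_ineq2 (E : ℝ) (L j : ℕ) (hE : 20 * |E| + 1000 ≤ (L : ℝ)) (hj1 : 1 / 2 * (L : ℝ) ≤ j)
    (hj2 : (j : ℝ) ≤ 88 / 100 * (L : ℝ)) :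
    |a L j| + E + b L j ≤ 4 * b L (j + 1) := by
  have hl : (1000 : ℝ) ≤ L := by linarith [abs_nonneg E]
  have hEl : E ≤ (L : ℝ) / 20 - 50 := by linarith [le_abs_self E]
  have hx0 : (0:ℝ) ≤ j := Nat.cast_nonneg j
  have e1 : 4 * b L (j + 1) - b L j - a L j =
      ((L : ℝ) ^ 2 * (4 * (j : ℝ) + 9 / 2) - 5 * (j : ℝ) ^ 3 - 15 * (j : ℝ) ^ 2 - 14 * j - 9 / 2)
        / (L : ℝ) ^ 2 := by
    unfold a b
    push_cast
    field_simp
    ring
  have e2 : 4 * b L (j + 1) - b L j + a L j =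
      ((L : ℝ) ^ 2 * (2 * (j : ℝ) + 7 / 2) - (j : ℝ) ^ 3 - 9 * (j : ℝ) ^ 2 - 10 * j - 7 / 2)
        / (L : ℝ) ^ 2 := by
    unfold a b
    push_cast
    field_simp
    ring
  have h1 : E ≤ 4 * b L (j + 1) - b L j - a L j := by
    rw [e1, le_div_iff₀ (by positivity)]
    set l : ℝ := (L : ℝ)
    set x : ℝ := (j : ℝ)
    have h3 : x ^ 2 ≤ (7744 / 10000) * l ^ 2 := by nlinarith
    have h4 : (64 / 1000) * l ^ 3 ≤ x * (4 * l ^ 2 - 5 * x ^ 2) := by
      have : (128 / 1000) * l ^ 2 ≤ 4 * l ^ 2 - 5 * x ^ 2 := by nlinarith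
      calc (64 / 1000) * l ^ 3 = (1 / 2 * l) * ((128 / 1000) * l ^ 2) := by ring
        _ ≤ x * (4 * l ^ 2 - 5 * x ^ 2) :=
          mul_le_mul hj1 this (by positivity) hx0
    have h5 : E * l ^ 2 ≤ (l / 20 - 50) * l ^ 2 := mul_le_mul_of_nonneg_right hEl (by positivity)
    have h6 : x ≤ l := by linarith
    nlinarith [mul_nonneg (sub_nonneg.mpr hl) (sq_nonneg l)]
  have h2 : E ≤ 4 * b L (j + 1) - b L j + a L j := by
    rw [e2, le_div_iff₀ (by positivity)]
    set l : ℝ := (L : ℝ)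
    set x : ℝ := (j : ℝ)
    have h3 : x ^ 2 ≤ (7744 / 10000) * l ^ 2 := by nlinarith
    have h4 : (1 / 2) * l ^ 3 ≤ x * (2 * l ^ 2 - x ^ 2) := by
      have : l ^ 2 ≤ 2 * l ^ 2 - x ^ 2 := by nlinarith
      calc (1 / 2) * l ^ 3 = (1 / 2 * l) * (l ^ 2) := by ring
        _ ≤ x * (2 * l ^ 2 - x ^ 2) :=
          mul_le_mul hj1 this (by positivity) hx0
    have h5 : E * l ^ 2 ≤ (l / 20 - 50) * l ^ 2 := mul_le_mul_of_nonneg_right hEl (by positivity)
    have h6 : x ≤ l := by linarith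
    nlinarith [mul_nonneg (sub_nonneg.mpr hl) (sq_nonneg l)]
  rcases abs_cases (a L j) with ⟨h, _⟩ | ⟨h, _⟩ <;> rw [h] <;> linarith

theorem T_dec (E : ℝ) (L : ℕ) (e : ℝ) (he : |e| ≤ E) (hev : IsEv L e)
    (hL : 50 * |E| + 50 ≤ (L : ℝ)) (d : ℕ) :
    ∀ i : ℕ, i + 2 + d = L → 87 / 100 * (L : ℝ) ≤ (i : ℝ) + 1 →
      |sol L e (i + 1)| ≤ |sol L e i| := by
  have heE : e ≤ E := (le_abs_self e).trans he
  induction d with
  | zero =>
    intro i hi h87
    have h := T_last L e hev (by omega)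
    rw [show L - 1 = i + 1 by omega, show L - 2 = i by omega] at h
    have h1 := T_ineq1 E L (i + 1) hL (by push_cast; exact h87)
    have hb : b L (i + 1 + 1) = 0 := by
      rw [show i + 1 + 1 = L by omega]
      exact T_b_last L (by omega)
    rw [hb] at h1
    have hbp := T_b_pos L (i + 1) (by omega) (by omega)
    have h2 : (a L (i + 1) - e) * |sol L e (i + 1)| = b L (i + 1) * |sol L e i| := by
      have h3 : (a L (i + 1) - e) * sol L e (i + 1) = -(b L (i + 1) * sol L e i) := by linarith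
      have h4 := congrArg abs h3
      rw [abs_neg, abs_mul, abs_mul, abs_of_pos hbp, abs_of_pos (by linarith)] at h4
      exact h4
    have h5 : b L (i + 1) * |sol L e (i + 1)| ≤ b L (i + 1) * |sol L e i| := by
      rw [← h2]
      exact mul_le_mul_of_nonneg_right (by linarith) (abs_nonneg _)
    exact le_of_mul_le_mul_left h5 hbp
  | succ d ih =>
    intro i hi h87
    have hih := ih (i + 1) (by omega) (by push_cast; linarith)
    have h := T_rec L e i (by omega)
    have h1 := T_ineq1 E L (i + 1) hL (by push_cast; exact h87)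
    rw [show i + 1 + 1 = i + 2 from rfl] at h1 hih
    have hbp := T_b_pos L (i + 1) (by omega) (by omega)
    have hbp2 := T_b_pos L (i + 2) (by omega) (by omega)
    have h2 : (a L (i + 1) - e) * |sol L e (i + 1)| ≤
        b L (i + 2) * |sol L e (i + 2)| + b L (i + 1) * |sol L e i| := by
      have h3 : (a L (i + 1) - e) * sol L e (i + 1) =
        -(b L (i + 2) * sol L e (i + 2) + b L (i + 1) * sol L e i) := by linarith
      have h4 := congrArg abs h3
      rw [abs_neg, abs_mul, abs_of_pos (show 0 < a L (i + 1) - e by linarith)] at h4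
      rw [h4]
      refine (abs_add_le _ _).trans ?_
      rw [abs_mul, abs_mul, abs_of_pos hbp, abs_of_pos hbp2]
    have h6 : b L (i + 2) * |sol L e (i + 2)| ≤ b L (i + 2) * |sol L e (i + 1)| :=
      mul_le_mul_of_nonneg_left hih hbp2.le
    have h5 : b L (i + 1) * |sol L e (i + 1)| ≤ b L (i + 1) * |sol L e i| := by
      have h7 : b L (i + 1) * |sol L e (i + 1)| ≤
          (a L (i + 1) - e - b L (i + 2)) * |sol L e (i + 1)| :=
        mul_le_mul_of_nonneg_right (by linarith) (abs_nonneg _)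
      nlinarith
    exact le_of_mul_le_mul_left h5 hbp

theorem T_grow (E : ℝ) (L : ℕ) (e : ℝ) (he : |e| ≤ E)
    (hL : 20 * |E| + 1000 ≤ (L : ℝ)) (i : ℕ) (hi : i + 2 < L)
    (h1 : 1 / 2 * (L : ℝ) ≤ (i : ℝ) + 1) (h2 : (i : ℝ) + 1 ≤ 88 / 100 * (L : ℝ)) (M : ℝ)
    (hM0 : |sol L e i| ≤ M) (hM1 : |sol L e (i + 1)| ≤ M) :
    |sol L e (i + 2)| ≤ 4 * M := by
  have h := T_rec L e i hi
  have h3 := T_ineq2 E L (i + 1) hL (by push_cast; exact h1) (by push_cast; exact h2)
  rw [show i + 1 + 1 = i + 2 from rfl] at h3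
  have hbp := T_b_pos L (i + 1) (by omega) (by omega)
  have hbp2 := T_b_pos L (i + 2) (by omega) (by omega)
  have hM : 0 ≤ M := (abs_nonneg _).trans hM0
  have h4 : b L (i + 2) * |sol L e (i + 2)| ≤
      |a L (i + 1) - e| * |sol L e (i + 1)| + b L (i + 1) * |sol L e i| := by
    have h5 : b L (i + 2) * sol L e (i + 2) =
      -((a L (i + 1) - e) * sol L e (i + 1) + b L (i + 1) * sol L e i) := by linarith
    have h6 := congrArg abs h5
    rw [abs_neg, abs_mul, abs_of_pos hbp2] at h6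
    rw [h6]
    refine (abs_add_le _ _).trans ?_
    rw [abs_mul, abs_mul, abs_of_pos hbp]
  have h7 : |a L (i + 1) - e| ≤ |a L (i + 1)| + E := by
    have := abs_sub (a L (i + 1)) e
    linarith
  have h8 : |a L (i + 1) - e| * |sol L e (i + 1)| ≤ (|a L (i + 1)| + E) * M :=
    mul_le_mul h7 hM1 (abs_nonneg _) ((abs_nonneg _).trans h7)
  have h9 : b L (i + 1) * |sol L e i| ≤ b L (i + 1) * M := mul_le_mul_of_nonneg_left hM0 hbp.le
  have h10 : (|a L (i + 1)| + E + b L (i + 1)) * M ≤ 4 * b L (i + 2) * M :=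
    mul_le_mul_of_nonneg_right h3 hM
  have h11 : b L (i + 2) * |sol L e (i + 2)| ≤ b L (i + 2) * (4 * M) := by nlinarith
  exact le_of_mul_le_mul_left h11 hbp2

theorem T_geom (m n : ℕ) :
    ∑ j ∈ Ico (m + 1) (m + 1 + n), ((1 : ℝ) / 2) ^ j = (1 / 2) ^ m - (1 / 2) ^ (m + n) := by
  induction n with
  | zero => simp
  | succ n ih =>
    rw [show m + 1 + (n + 1) = (m + 1 + n) + 1 by ring, Finset.sum_Ico_succ_top (by omega), ih,
      show m + 1 + n = (m + n) + 1 by ring, show m + (n + 1) = (m + n) + 1 by ring, pow_succ]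
    ring

theorem sol_tail (E ε : ℝ) (hε : 0 < ε) : ∃ L0 : ℕ, ∀ L : ℕ, L0 ≤ L → ∀ e : ℝ, |e| ≤ E →
    IsEv L e →
    ∑ j ∈ (range L).filter (fun j : ℕ => 7 / 10 * (L : ℝ) < (j : ℝ)), |sol L e j| / 2 ^ j ≤ ε := by
  obtain ⟨C, hC, L1, hbdd⟩ := sol_bdd E
  obtain ⟨n0, hn0⟩ := exists_pow_lt_of_lt_one (show 0 < ε / C by positivity)
    (show (1 / 2 : ℝ) < 1 by norm_num)
  refine ⟨L1 + (⌈50 * |E| + 1000⌉₊ + 3 * (n0 + 3)), fun L hL e he hev => ?_⟩
  have hL1 : L1 ≤ L := by omega
  have hL2 : 50 * |E| + 1000 ≤ (L : ℝ) := by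
    have : ⌈50 * |E| + 1000⌉₊ ≤ L := by omega
    exact (Nat.le_ceil _).trans (by exact_mod_cast this)
  have hL3 : 3 * ((n0 : ℝ) + 3) ≤ (L : ℝ) := by
    have : 3 * (n0 + 3) ≤ L := by omega
    exact_mod_cast this
  have habs := abs_nonneg E
  set m : ℕ := ⌊7 / 10 * (L : ℝ)⌋₊ with hm
  set M : ℕ := ⌊88 / 100 * (L : ℝ)⌋₊ with hM
  have hm1 : (m : ℝ) ≤ 7 / 10 * (L : ℝ) := Nat.floor_le (by linarith)
  have hm2 : 7 / 10 * (L : ℝ) < (m : ℝ) + 1 := Nat.lt_floor_add_one _
  have hM1 : (M : ℝ) ≤ 88 / 100 * (L : ℝ) := Nat.floor_le (by linarith)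
  have hM2 : 88 / 100 * (L : ℝ) < (M : ℝ) + 1 := Nat.lt_floor_add_one _
  have hmM : m ≤ M := by
    have : (m : ℝ) ≤ M := by linarith
    exact_mod_cast this
  have hML : M + 2 < L := by
    have : (M : ℝ) + 2 < L := by linarith
    exact_mod_cast this
  have hm3 : 1 ≤ m := by
    have : (0 : ℝ) < m := by linarith
    exact_mod_cast this
  obtain ⟨K, hK⟩ := Nat.exists_eq_add_of_le hmM
  -- growth
  have hgrow : ∀ k : ℕ, k ≤ K → ∀ j : ℕ, j ≤ m + k → |sol L e j| ≤ C * 4 ^ k := by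
    intro k
    induction k with
    | zero =>
      intro _ j hj
      rw [pow_zero, mul_one]
      apply hbdd L hL1 e he j
      have : (j : ℝ) ≤ m := by exact_mod_cast hj
      linarith
    | succ k ih =>
      intro hk j hj
      have ihk := ih (by omega)
      rcases Nat.lt_or_ge (m + k) j with h | h
      · obtain ⟨i, rfl⟩ : ∃ i, j = i + 2 := ⟨j - 2, by omega⟩
        have hi : i + 1 = m + k := by omega
        have hir : (i : ℝ) + 1 = m + k := by exact_mod_cast hi
        have hkM : (m : ℝ) + k ≤ M := by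
          have : m + k ≤ M := by omega
          exact_mod_cast this
        have hk0 : (0:ℝ) ≤ k := Nat.cast_nonneg k
        have := T_grow E L e he (by linarith) i (by omega) (by linarith) (by linarith)
          (C * 4 ^ k) (ihk i (by omega)) (ihk (i + 1) (by omega))
        rw [pow_succ]
        linarith
      · refine (ihk j h).trans ?_
        apply mul_le_mul_of_nonneg_left _ hC.le
        exact pow_le_pow_right₀ (by norm_num) (by omega)
  -- decrease
  have hdec : ∀ n : ℕ, M + n < L → |sol L e (M + n)| ≤ |sol L e M| := by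
    intro n
    induction n with
    | zero => intro _; exact le_refl _
    | succ n ih =>
      intro hn
      refine le_trans ?_ (ih (by omega))
      have hn0' : (0:ℝ) ≤ n := Nat.cast_nonneg n
      exact T_dec E L e he hev (by linarith) (L - (M + n + 2)) (M + n) (by omega)
        (by push_cast; linarith)
  have hall : ∀ j : ℕ, j < L → |sol L e j| ≤ C * 4 ^ K := by
    intro j hj
    rcases Nat.lt_or_ge M j with h | h
    · obtain ⟨n, rfl⟩ := Nat.exists_eq_add_of_le h.le
      exact (hdec n hj).trans (hgrow K le_rfl M (by omega))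
    · exact hgrow K le_rfl j (by omega)
  -- the sum
  have hsub : (range L).filter (fun j : ℕ => 7 / 10 * (L : ℝ) < (j : ℝ)) ⊆ Ico (m + 1) L := by
    intro j hj
    rw [Finset.mem_filter, Finset.mem_range] at hj
    rw [Finset.mem_Ico]
    refine ⟨?_, hj.1⟩
    have : (m : ℝ) < j := by linarith [hj.2]
    exact_mod_cast this
  have hKr : 2 * K + n0 ≤ m := by
    have h1 : (M : ℝ) = m + K := by exact_mod_cast hK
    have h2 : 2 * (K : ℝ) + n0 ≤ m := by linarith
    exact_mod_cast h2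
  calc ∑ j ∈ (range L).filter (fun j : ℕ => 7 / 10 * (L : ℝ) < (j : ℝ)), |sol L e j| / 2 ^ j
      ≤ ∑ j ∈ Ico (m + 1) L, |sol L e j| / 2 ^ j :=
        Finset.sum_le_sum_of_subset_of_nonneg hsub (fun j _ _ => by positivity)
    _ ≤ ∑ j ∈ Ico (m + 1) L, C * 4 ^ K * (1 / 2) ^ j := by
        apply Finset.sum_le_sum
        intro j hj
        rw [Finset.mem_Ico] at hj
        rw [div_eq_mul_inv, ← inv_pow, one_div]
        exact mul_le_mul_of_nonneg_right (hall j hj.2) (by positivity)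
    _ = C * 4 ^ K * ∑ j ∈ Ico (m + 1) (m + 1 + (L - (m + 1))), (1 / 2 : ℝ) ^ j := by
        rw [Finset.mul_sum, show m + 1 + (L - (m + 1)) = L by omega]
    _ ≤ C * 4 ^ K * (1 / 2) ^ m := by
        rw [T_geom]
        apply mul_le_mul_of_nonneg_left _ (by positivity)
        have : (0:ℝ) ≤ (1 / 2) ^ (m + (L - (m + 1))) := by positivity
        linarith
    _ ≤ C * 4 ^ K * (1 / 2) ^ (2 * K + n0) := by
        apply mul_le_mul_of_nonneg_left _ (by positivity)
        exact pow_le_pow_of_le_one (by norm_num) (by norm_num) hKr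
    _ = C * (1 / 2) ^ n0 := by
        have h4 : (4 : ℝ) ^ K * (1 / 2) ^ (2 * K) = 1 := by
          rw [pow_mul, ← mul_pow]
          norm_num
        rw [pow_add]
        calc C * 4 ^ K * ((1 / 2) ^ (2 * K) * (1 / 2) ^ n0)
            = C * (4 ^ K * (1 / 2) ^ (2 * K)) * (1 / 2) ^ n0 := by ring
          _ = C * (1 / 2) ^ n0 := by rw [h4, mul_one]
    _ ≤ C * (ε / C) := mul_le_mul_of_nonneg_left hn0.le hC.le
    _ = ε := by field_simp

end Pool.Agent.H160R2.OA
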