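import Pool.Agent.H160R2.OA.Eig
import Pool.Agent.H160R2.OA.SolBdd
import Pool.Agent.H160R2.OA.Tail
import Pool.Agent.H160R2.OA.Lim
import Pool.Agent.H160R2.OA.Gen

/-! Task M: the eigenvalues of the Pascal matrix in terms of the eigenvalues of `J`. -/

set_option autoImplicit false

namespace Pool.Agent.H160R2.OA
open Finset

lemma M_P_bdd (Y : ℝ) : ∃ C : ℝ, 0 < C ∧ (∀ y : ℝ, |y| ≤ Y → ∀ j : ℕ, |P y j| ≤ C) ∧
    ∃ L0 : ℕ, ∀ L : ℕ, L0 ≤ L → ∀ y : ℝ, |y| ≤ Y →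
    ∀ j : ℕ, (j : ℝ) ≤ 7 / 10 * L → |sol L (√3 * y) j| ≤ C := by
  obtain ⟨C, hC, L0, h0⟩ := sol_bdd (√3 * Y)
  have h0' : ∀ L : ℕ, L0 ≤ L → ∀ y : ℝ, |y| ≤ Y →
      ∀ j : ℕ, (j : ℝ) ≤ 7 / 10 * L → |sol L (√3 * y) j| ≤ C := by
    intro L hL y hy j hj
    refine h0 L hL _ ?_ j hj
    rw [abs_mul, abs_of_nonneg (Real.sqrt_nonneg 3)]
    gcongr
  refine ⟨C, hC, ?_, L0, h0'⟩
  intro y hy j
  obtain ⟨K, L1, h1⟩ := sol_lim Y j
  refine le_of_forall_pos_le_add fun η hη => ?_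
  obtain ⟨N, hN⟩ := exists_nat_ge (|K| / η + 2 * j + 1)
  set L : ℕ := max (max L0 L1) N with hL
  have hLN : (N : ℝ) ≤ L := by exact_mod_cast le_max_right _ _
  have hL1 : |K| / η + 2 * j + 1 ≤ (L : ℝ) := hN.trans hLN
  have hK0 : 0 ≤ |K| / η := by positivity
  have hj0 : (0 : ℝ) ≤ j := by positivity
  have hLpos : (1 : ℝ) ≤ L := by linarith
  have h2 := h0' L ((le_max_left _ _).trans (le_max_left _ _)) y hy j (by linarith)
  have h3 := h1 L ((le_max_right _ _).trans (le_max_left _ _)) y hy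
  have h4 : K / (L : ℝ) ^ 2 ≤ η := by
    rw [div_le_iff₀ (by positivity)]
    have h5 : |K| ≤ η * L := by
      have : |K| / η ≤ L := by linarith
      rw [div_le_iff₀ hη] at this
      linarith
    have h6 : K ≤ |K| := le_abs_self K
    have h7 : (L : ℝ) ≤ (L : ℝ) ^ 2 := by nlinarith
    nlinarith
  have h8 : |P y j| ≤ |sol L (√3 * y) j| + |sol L (√3 * y) j - P y j| := by
    have : P y j = sol L (√3 * y) j - (sol L (√3 * y) j - P y j) := by ring
    calc |P y j| = |sol L (√3 * y) j - (sol L (√3 * y) j - P y j)| := by rw [← this]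
      _ ≤ _ := abs_sub _ _
  linarith

lemma M_finite (Y ε : ℝ) (hε : 0 < ε) (K : ℕ) : ∃ L0 : ℕ, ∀ L : ℕ, L0 ≤ L → ∀ y : ℝ, |y| ≤ Y →
    |∑ j ∈ range K, sol L (√3 * y) j / 2 ^ j - ∑ j ∈ range K, P y j / 2 ^ j| ≤ ε := by
  choose C L1 h1 using sol_lim Y
  obtain ⟨N, hN⟩ := exists_nat_ge ((∑ j ∈ range K, |C j|) / ε + 1)
  refine ⟨max ((range K).sup L1) N, fun L hL y hy => ?_⟩
  have hLN : (N : ℝ) ≤ L := by exact_mod_cast (le_max_right _ _).trans hL
  have hS0 : 0 ≤ ∑ j ∈ range K, |C j| := Finset.sum_nonneg fun _ _ => abs_nonneg _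
  have hS1 : 0 ≤ (∑ j ∈ range K, |C j|) / ε := by positivity
  have hL1 : (1 : ℝ) ≤ L := by linarith
  have h2 : ∀ j ∈ range K, |sol L (√3 * y) j / 2 ^ j - P y j / 2 ^ j| ≤ |C j| / (L : ℝ) ^ 2 := by
    intro j hj
    have h3 := h1 j L ((Finset.le_sup hj).trans ((le_max_left _ _).trans hL)) y hy
    rw [← sub_div, abs_div, abs_of_pos (by positivity : (0 : ℝ) < 2 ^ j)]
    have h4 : (1 : ℝ) ≤ 2 ^ j := one_le_pow₀ (by norm_num)
    calc |sol L (√3 * y) j - P y j| / 2 ^ j ≤ |sol L (√3 * y) j - P y j| :=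
          div_le_self (abs_nonneg _) h4
      _ ≤ C j / (L : ℝ) ^ 2 := h3
      _ ≤ |C j| / (L : ℝ) ^ 2 := by
          gcongr
          exact le_abs_self _
  rw [← Finset.sum_sub_distrib]
  calc |∑ j ∈ range K, (sol L (√3 * y) j / 2 ^ j - P y j / 2 ^ j)| ≤
      ∑ j ∈ range K, |sol L (√3 * y) j / 2 ^ j - P y j / 2 ^ j| := Finset.abs_sum_le_sum_abs _ _
    _ ≤ ∑ j ∈ range K, |C j| / (L : ℝ) ^ 2 := Finset.sum_le_sum h2
    _ = (∑ j ∈ range K, |C j|) / (L : ℝ) ^ 2 := by rw [Finset.sum_div]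
    _ ≤ ε := by
        rw [div_le_iff₀ (by positivity)]
        have h5 : ∑ j ∈ range K, |C j| ≤ ε * L := by
          have : (∑ j ∈ range K, |C j|) / ε ≤ L := by linarith
          rw [div_le_iff₀ hε] at this
          linarith
        have h7 : (L : ℝ) ≤ (L : ℝ) ^ 2 := by nlinarith
        nlinarith

lemma M_geom {C : ℝ} (hC : 0 < C) {η : ℝ} (hη : 0 < η) : ∃ K : ℕ, C * ((1 / 2 : ℝ) ^ K * 2) ≤ η := by
  obtain ⟨K, hK⟩ := exists_pow_lt_of_lt_one (show 0 < η / (2 * C) by positivity)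
    (show (1 / 2 : ℝ) < 1 by norm_num)
  refine ⟨K, ?_⟩
  rw [lt_div_iff₀ (by positivity)] at hK
  linarith

theorem F_lim (Y ε : ℝ) (hε : 0 < ε) : ∃ L0 : ℕ, ∀ L : ℕ, L0 ≤ L → ∀ y : ℝ, |y| ≤ Y →
    IsEv L (√3 * y) → |F L (√3 * y) - 2 / √3 * Real.exp (Real.pi * y / 3)| ≤ ε := by
  obtain ⟨C, hC, hP, L1, h1⟩ := M_P_bdd Y
  obtain ⟨L2, h2⟩ := sol_tail (√3 * Y) (ε / 4) (by positivity)
  obtain ⟨K, hK⟩ := M_geom hC (show 0 < ε / 4 by positivity)
  obtain ⟨L3, h3⟩ := M_finite Y (ε / 4) (by positivity) K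
  refine ⟨max (max L1 L2) (max L3 K), fun L hL y hy hev => ?_⟩
  have hL1 : L1 ≤ L := (le_max_left _ _).trans ((le_max_left _ _).trans hL)
  have hL2 : L2 ≤ L := (le_max_right _ _).trans ((le_max_left _ _).trans hL)
  have hL3 : L3 ≤ L := (le_max_left _ _).trans ((le_max_right _ _).trans hL)
  have hKL : K ≤ L := (le_max_right _ _).trans ((le_max_right _ _).trans hL)
  have hgen := P_gen y C (hP y hy)
  have e1 := h1 L hL1 y hy
  have e2 := h2 L hL2 (√3 * y) (by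
    rw [abs_mul, abs_of_nonneg (Real.sqrt_nonneg 3)]
    gcongr) hev
  have e3 := h3 L hL3 y hy
  -- the tail of the series
  have e4 : |2 / √3 * Real.exp (Real.pi * y / 3) - ∑ j ∈ range K, P y j / 2 ^ j| ≤ ε / 4 := by
    have t1 := hgen.summable.sum_add_tsum_nat_add K
    rw [hgen.tsum_eq] at t1
    rw [← t1, add_sub_cancel_left]
    have t2 : ∀ i : ℕ, ‖P y (i + K) / 2 ^ (i + K)‖ ≤ C * (1 / 2 : ℝ) ^ (i + K) := by
      intro i
      rw [Real.norm_eq_abs, abs_div, abs_of_pos (by positivity : (0 : ℝ) < 2 ^ (i + K)), one_div,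
        inv_pow, ← div_eq_mul_inv]
      gcongr
      exact hP y hy _
    have t3 : HasSum (fun i : ℕ => C * (1 / 2 : ℝ) ^ (i + K)) (C * ((1 / 2 : ℝ) ^ K * 2)) := by
      have := (hasSum_geometric_of_lt_one (show (0 : ℝ) ≤ 1 / 2 by norm_num)
        (show (1 / 2 : ℝ) < 1 by norm_num)).mul_left (C * (1 / 2 : ℝ) ^ K)
      have h5 : (1 - 1 / 2 : ℝ)⁻¹ = 2 := by norm_num
      rw [h5, mul_assoc] at this
      have h6 : (fun i : ℕ => C * (1 / 2 : ℝ) ^ (i + K)) =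
          fun i : ℕ => C * ((1 / 2 : ℝ) ^ K * (1 / 2 : ℝ) ^ i) := by
        funext i
        rw [pow_add]
        ring
      rw [h6, ← mul_assoc]
      simpa only [mul_assoc] using this
    have t4 := tsum_of_norm_bounded t3 t2
    rw [Real.norm_eq_abs] at t4
    exact t4.trans hK
  -- the tail of the sum
  have e5 : |F L (√3 * y) - ∑ j ∈ range K, sol L (√3 * y) j / 2 ^ j| ≤ ε / 2 := by
    have t1 : F L (√3 * y) - ∑ j ∈ range K, sol L (√3 * y) j / 2 ^ j =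
        ∑ j ∈ Ico K L, sol L (√3 * y) j / 2 ^ j := by
      unfold F
      rw [Finset.sum_Ico_eq_sub _ hKL]
    rw [t1]
    have t2 : ∀ j ∈ Ico K L, |sol L (√3 * y) j / 2 ^ j| ≤ C * (1 / 2 : ℝ) ^ j +
        (if 7 / 10 * (L : ℝ) < (j : ℝ) then |sol L (√3 * y) j| / 2 ^ j else 0) := by
      intro j _
      rw [abs_div, abs_of_pos (by positivity : (0 : ℝ) < 2 ^ j)]
      split_ifs with hj
      · have : 0 ≤ C * (1 / 2 : ℝ) ^ j := by positivity
        linarith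
      · rw [add_zero, one_div, inv_pow, ← div_eq_mul_inv]
        gcongr
        exact e1 j (not_lt.1 hj)
    calc |∑ j ∈ Ico K L, sol L (√3 * y) j / 2 ^ j| ≤ ∑ j ∈ Ico K L, |sol L (√3 * y) j / 2 ^ j| :=
          Finset.abs_sum_le_sum_abs _ _
      _ ≤ ∑ j ∈ Ico K L, (C * (1 / 2 : ℝ) ^ j +
          (if 7 / 10 * (L : ℝ) < (j : ℝ) then |sol L (√3 * y) j| / 2 ^ j else 0)) :=
          Finset.sum_le_sum t2
      _ = C * ∑ j ∈ Ico K L, (1 / 2 : ℝ) ^ j +
          ∑ j ∈ Ico K L, (if 7 / 10 * (L : ℝ) < (j : ℝ) then |sol L (√3 * y) j| / 2 ^ j else 0) := by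
          rw [Finset.sum_add_distrib, Finset.mul_sum]
      _ ≤ ε / 4 + ε / 4 := by
          gcongr
          · refine le_trans ?_ hK
            gcongr
            have := geom_sum_Ico_le_of_lt_one (show (0 : ℝ) ≤ 1 / 2 by norm_num)
              (show (1 / 2 : ℝ) < 1 by norm_num) (m := K) (n := L)
            refine this.trans (le_of_eq ?_)
            norm_num
            ring
          · refine le_trans ?_ e2
            rw [Finset.sum_filter]
            refine Finset.sum_le_sum_of_subset_of_nonneg ?_ fun j _ _ => ?_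
            · intro j hj
              rw [Finset.mem_Ico] at hj
              exact Finset.mem_range.2 hj.2
            · split_ifs
              · positivity
              · exact le_rfl
      _ = ε / 2 := by ring
  have e6 : F L (√3 * y) - 2 / √3 * Real.exp (Real.pi * y / 3) =
      (F L (√3 * y) - ∑ j ∈ range K, sol L (√3 * y) j / 2 ^ j) +
      (∑ j ∈ range K, sol L (√3 * y) j / 2 ^ j - ∑ j ∈ range K, P y j / 2 ^ j) -
      (2 / √3 * Real.exp (Real.pi * y / 3) - ∑ j ∈ range K, P y j / 2 ^ j) := by ring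
  rw [e6]
  refine (abs_sub _ _).trans ?_
  have e7 := abs_add_le (F L (√3 * y) - ∑ j ∈ range K, sol L (√3 * y) j / 2 ^ j)
    (∑ j ∈ range K, sol L (√3 * y) j / 2 ^ j - ∑ j ∈ range K, P y j / 2 ^ j)
  linarith

lemma M_log {A x c η : ℝ} (hc : 0 < c) (hA : c ≤ A) (hη : η ≤ c / 2)
    (hx : |x - A| ≤ η) : 0 < x ∧ |Real.log x - Real.log A| ≤ 2 * η / c := by
  have hA0 : 0 < A := by linarith
  have hη0 : 0 ≤ η := (abs_nonneg _).trans hx
  have h1 := abs_le.1 hx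
  have hx0 : c / 2 ≤ x := by linarith
  have hx1 : 0 < x := by linarith
  refine ⟨hx1, ?_⟩
  rw [abs_le]
  constructor
  · -- log A - log x ≤ A / x - 1
    have h2 : Real.log A - Real.log x ≤ A / x - 1 := by
      rw [← Real.log_div hA0.ne' hx1.ne']
      exact Real.log_le_sub_one_of_pos (by positivity)
    have h3 : A / x - 1 ≤ 2 * η / c := by
      rw [div_sub_one hx1.ne', div_le_div_iff₀ hx1 hc]
      nlinarith
    linarith
  · have h2 : Real.log x - Real.log A ≤ x / A - 1 := by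
      rw [← Real.log_div hx1.ne' hA0.ne']
      exact Real.log_le_sub_one_of_pos (by positivity)
    have h3 : x / A - 1 ≤ 2 * η / c := by
      rw [div_sub_one hA0.ne', div_le_div_iff₀ hA0 hc]
      nlinarith
    linarith

theorem mu_lim (Y ε : ℝ) (hε : 0 < ε) : ∃ L0 : ℕ, ∀ L : ℕ, L0 ≤ L → ∀ y : ℝ, |y| ≤ Y →
    ∀ v : Fin L → ℝ, v ≠ 0 → (J L).mulVec v = (√3 * y) • v →
    ∀ μ : ℝ, (B L).mulVec v = μ • v → 0 < μ ∧ |Real.log μ - 2 * Real.pi * y / 3| ≤ ε := by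
  rcases lt_or_ge Y 0 with hY | hY
  · exact ⟨0, fun L _ y hy => absurd (abs_nonneg y) (by linarith)⟩
  set c : ℝ := 2 / √3 * Real.exp (-(Real.pi * Y / 3)) with hc
  have h3 : (0 : ℝ) < √3 := by positivity
  have hc0 : 0 < c := by positivity
  obtain ⟨L0, h0⟩ := F_lim Y (min (c / 2) (c * ε / 4)) (lt_min (by positivity) (by positivity))
  refine ⟨max L0 1, fun L hL y hy v hv0 hv μ hμ => ?_⟩
  have hL0 : L0 ≤ L := (le_max_left _ _).trans hL
  have hL1 : 0 < L := (le_max_right _ _).trans hL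
  obtain ⟨-, -, hev, μ', hμ', hBv, hF⟩ := ev_B L hL1 (√3 * y) v hv0 hv
  have hμμ : μ = μ' := by
    obtain ⟨i, hi⟩ := Function.ne_iff.1 hv0
    have h4 : μ • v = μ' • v := hμ.symm.trans hBv
    have h5 := congrFun h4 i
    simp only [Pi.smul_apply, smul_eq_mul] at h5
    exact mul_right_cancel₀ hi h5
  subst hμμ
  refine ⟨hμ', ?_⟩
  have hneg : -(√3 * y) = √3 * (-y) := by ring
  rw [hneg] at hev hF
  have f1 := h0 L hL0 y hy ⟨v, hv0, hv⟩
  have f2 := h0 L hL0 (-y) (by rwa [abs_neg]) hev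
  have hpi := Real.pi_pos
  have hy' := abs_le.1 hy
  have g1 : c ≤ 2 / √3 * Real.exp (Real.pi * y / 3) := by
    rw [hc]
    gcongr
    nlinarith
  have g2 : c ≤ 2 / √3 * Real.exp (Real.pi * (-y) / 3) := by
    rw [hc]
    gcongr
    nlinarith
  obtain ⟨k1, k2⟩ := M_log hc0 g1 (min_le_left _ _) f1
  obtain ⟨k3, k4⟩ := M_log hc0 g2 (min_le_left _ _) f2
  have h6 : 2 * min (c / 2) (c * ε / 4) / c ≤ ε / 2 := by
    rw [div_le_iff₀ hc0]
    have := min_le_right (c / 2) (c * ε / 4)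
    linarith
  have h7 : Real.log (F L (√3 * y)) = Real.log μ + Real.log (F L (√3 * (-y))) := by
    rw [hF, Real.log_mul hμ'.ne' k3.ne']
  have h8 : ∀ z : ℝ, Real.log (2 / √3 * Real.exp (Real.pi * z / 3)) =
      Real.log (2 / √3) + Real.pi * z / 3 := by
    intro z
    rw [Real.log_mul (by positivity) (Real.exp_pos _).ne', Real.log_exp]
  rw [h8] at k2 k4
  have k2' := abs_le.1 k2
  have k4' := abs_le.1 k4
  rw [abs_le]
  constructor <;> linarith

end Pool.Agent.H160R2.OA
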