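import Pool.Agent.H160R2.OA.Defs

/-! Blueprint (statements only) -/

set_option autoImplicit false

namespace Pool.Agent.H160R2.OA
open Finset

/-! ### Task A (Alg.lean) -/

theorem R_sq (L : ℕ) : R L * R L = 1 := sorry
theorem B_eq (L : ℕ) : B L = R L * (R L).transpose := sorry
theorem J_symm (L : ℕ) : (J L).IsSymm := sorry
theorem JR (L : ℕ) (hL : 0 < L) : J L * R L = -(R L * J L) := sorry
theorem det_B (L : ℕ) : (B L).det = 1 := sorry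

/-! ### Task E (Eig.lean), uses A -/

theorem ev_B (L : ℕ) (hL : 0 < L) (e : ℝ) (v : Fin L → ℝ) (hv0 : v ≠ 0)
    (hv : (J L).mulVec v = e • v) :
    (∀ j : Fin L, v j = v ⟨0, hL⟩ * sol L e j) ∧ v ⟨0, hL⟩ ≠ 0 ∧ IsEv L (-e) ∧
    ∃ μ : ℝ, 0 < μ ∧ (B L).mulVec v = μ • v ∧ F L e = μ * F L (-e) := sorry

/-! ### Task S (SolBdd.lean) -/

theorem sol_bdd (E : ℝ) : ∃ C : ℝ, 0 < C ∧ ∃ L0 : ℕ, ∀ L : ℕ, L0 ≤ L → ∀ e : ℝ, |e| ≤ E →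
    ∀ j : ℕ, (j : ℝ) ≤ 7 / 10 * L → |sol L e j| ≤ C := sorry

/-! ### Task T (Tail.lean), uses S -/

theorem sol_tail (E ε : ℝ) (hε : 0 < ε) : ∃ L0 : ℕ, ∀ L : ℕ, L0 ≤ L → ∀ e : ℝ, |e| ≤ E →
    IsEv L e →
    ∑ j ∈ (range L).filter (fun j : ℕ => 7 / 10 * (L : ℝ) < (j : ℝ)), |sol L e j| / 2 ^ j ≤ ε := sorry

/-! ### Task Q (Lim.lean) -/

theorem sol_lim (Y : ℝ) (j : ℕ) : ∃ C : ℝ, ∃ L0 : ℕ, ∀ L : ℕ, L0 ≤ L → ∀ y : ℝ, |y| ≤ Y →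
    |sol L (√3 * y) j - P y j| ≤ C / (L : ℝ) ^ 2 := sorry

/-! ### Task G (Gen.lean) -/

theorem P_gen (y C : ℝ) (hC : ∀ j, |P y j| ≤ C) :
    HasSum (fun j => P y j / 2 ^ j) (2 / √3 * Real.exp (Real.pi * y / 3)) := sorry

/-! ### Task M (Mu.lean), uses E S T Q G -/

theorem F_lim (Y ε : ℝ) (hε : 0 < ε) : ∃ L0 : ℕ, ∀ L : ℕ, L0 ≤ L → ∀ y : ℝ, |y| ≤ Y →
    IsEv L (√3 * y) → |F L (√3 * y) - 2 / √3 * Real.exp (Real.pi * y / 3)| ≤ ε := sorry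

theorem mu_lim (Y ε : ℝ) (hε : 0 < ε) : ∃ L0 : ℕ, ∀ L : ℕ, L0 ≤ L → ∀ y : ℝ, |y| ≤ Y →
    ∀ v : Fin L → ℝ, v ≠ 0 → (J L).mulVec v = (√3 * y) • v →
    ∀ μ : ℝ, (B L).mulVec v = μ • v → 0 < μ ∧ |Real.log μ - 2 * Real.pi * y / 3| ≤ ε := sorry

/-! ### Task W (Wkb.lean) -/

theorem wkb (y1 y2 δ : ℝ) (hy : y1 < y2) (hδ : 0 < δ) : ∃ L0 : ℕ, ∀ L : ℕ, L0 ≤ L →
    ∃ m n : ℕ, 1 ≤ m ∧ 1 ≤ n ∧ m + n < L ∧ ∃ S : Finset ℝ,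
      (∀ y ∈ S, y1 ≤ y ∧ y ≤ y2 ∧ tr L m (√3 * y) (n + 1) = 0) ∧
      (y2 - y1) / Real.pi * (1 - δ) * Real.log L ≤ (S.card : ℝ) := sorry

/-! ### Task C (Count.lean), uses A -/

theorem card_ge_of_subspace {n : ℕ} (A : Matrix (Fin n) (Fin n) ℝ) (hA : A.IsHermitian)
    (c r : ℝ) (V : Submodule ℝ (EuclideanSpace ℝ (Fin n)))
    (hV : ∀ v ∈ V, ‖Matrix.toEuclideanLin A v - c • v‖ ≤ r * ‖v‖) :
    Module.finrank ℝ V ≤ (univ.filter (fun i => |hA.eigenvalues i - c| ≤ r)).card := sorry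

theorem count_of_trunc (L m n : ℕ) (hm : 1 ≤ m) (hn : 1 ≤ n) (hL : m + n < L) (c r : ℝ)
    (S : Finset ℝ) (hS : ∀ e ∈ S, |e - c| ≤ r ∧ tr L m e (n + 1) = 0)
    (hJ : (J L).IsHermitian) :
    S.card ≤ 2 + (univ.filter (fun i => |hJ.eigenvalues i - c| ≤ r)).card := sorry

/-! ### Task D (Det.lean), uses A E -/

/-- `μ` lists the eigenvalues of `B L` along the eigenvalues of `J L` -/
def IsMu (L : ℕ) (hJ : (J L).IsHermitian) (μ : Fin L → ℝ) : Prop :=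
    (∀ i, 0 < μ i) ∧
    (∀ i, ∃ v : Fin L → ℝ, v ≠ 0 ∧ (J L).mulVec v = hJ.eigenvalues i • v ∧
      (B L).mulVec v = μ i • v) ∧
    (∀ w : ℂ, (wB L w).det = ∏ i, (w + (μ i : ℂ))) ∧
    (∀ θ : ℝ, ‖(wB L (Complex.exp (θ * Complex.I))).det‖ ^ 2 =
      ∏ i, (2 * Real.cosh (Real.log (μ i)) + 2 * Real.cos θ))

theorem det_wB (L : ℕ) (hL : 0 < L) (hJ : (J L).IsHermitian) : ∃ μ : Fin L → ℝ, IsMu L hJ μ :=
  sorry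

/-! ### Task I (Int.lean) -/

theorem integral_log (θ : ℝ) (h0 : 0 ≤ θ) (h1 : θ < Real.pi) :
    MeasureTheory.Integrable (fun x : ℝ =>
      Real.log ((2 * Real.cosh x + 1) / (2 * Real.cosh x + 2 * Real.cos θ))) ∧
    ∫ x : ℝ, Real.log ((2 * Real.cosh x + 1) / (2 * Real.cosh x + 2 * Real.cos θ)) =
      θ ^ 2 - Real.pi ^ 2 / 9 := sorry

/-! ### Task N (Dens.lean), uses A C D M W -/

theorem density (l1 l2 δ : ℝ) (hl : l1 < l2) (hδ : 0 < δ) : ∃ L0 : ℕ, ∀ L : ℕ, L0 ≤ L →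
    ∀ (hJ : (J L).IsHermitian) (μ : Fin L → ℝ), IsMu L hJ μ →
      3 / (2 * Real.pi ^ 2) * (l2 - l1) * (1 - δ) * Real.log L ≤
        ((univ.filter (fun i => l1 ≤ Real.log (μ i) ∧ Real.log (μ i) ≤ l2)).card : ℝ) := sorry

/-! ### Task Z (Final.lean), uses N I -/

theorem sum_lower (g : ℝ → ℝ) (hg : Continuous g) (hg0 : ∀ x, 0 ≤ g x)
    (hgi : MeasureTheory.Integrable g) (A : ℝ) (hA : A < 3 / (2 * Real.pi ^ 2) * ∫ x, g x) :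
    ∃ L0 : ℕ, ∀ L : ℕ, L0 ≤ L → ∀ (hJ : (J L).IsHermitian) (μ : Fin L → ℝ),
      IsMu L hJ μ → A * Real.log L ≤ ∑ i, g (Real.log (μ i)) := sorry

/-- the exponent -/
noncomputable def ex (θ : ℝ) : ℝ := 3 / 4 * (θ ^ 2 / Real.pi ^ 2 - 1 / 9)

theorem det_upper (θ δ : ℝ) (h1 : Real.pi / 3 ≤ θ) (h2 : θ < Real.pi) (hδ : 0 < δ) :
    ∃ L0 : ℕ, ∀ L : ℕ, L0 ≤ L →
      ‖(wB L (Complex.exp (θ * Complex.I))).det‖ ≤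
        (L : ℝ) ^ (-(ex θ) + δ) * ‖(wB L (Complex.exp ((Real.pi / 3 : ℝ) * Complex.I))).det‖ :=
  sorry

theorem det_lower (θ δ : ℝ) (h1 : Real.pi / 3 ≤ θ) (h2 : θ ≤ 2 * Real.pi / 3) (hδ : 0 < δ) :
    ∃ δ' : ℝ, 0 < δ' ∧ ∃ L0 : ℕ, ∀ L : ℕ, L0 ≤ L →
      (L : ℝ) ^ (-(1 / 4 : ℝ) - δ') * ‖(wB L (Complex.exp ((Real.pi / 3 : ℝ) * Complex.I))).det‖ ≤
        ‖(wB L (Complex.exp ((2 * Real.pi / 3 : ℝ) * Complex.I))).det‖ →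
      (L : ℝ) ^ (-(ex θ) - δ) * ‖(wB L (Complex.exp ((Real.pi / 3 : ℝ) * Complex.I))).det‖ ≤
        ‖(wB L (Complex.exp (θ * Complex.I))).det‖ := sorry

/-- `θ = π/2`: the exponent `5/48` -/
theorem ex_half : ex (Real.pi / 2) = 5 / 48 := by
  unfold ex
  have := Real.pi_pos
  field_simp
  norm_num

end Pool.Agent.H160R2.OA
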